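import Mathlib
import Pool.Agent.H91.GoldMertens

namespace Pool.Agent.Lead.ZN

open Finset

/-- The primes `p` with `u < log p ≤ v`. -/
noncomputable def PL (u v : ℝ) : Finset ℕ :=
  (range (⌊Real.exp v⌋₊ + 1)).filter fun p => p.Prime ∧ u < Real.log p ∧ Real.log p ≤ v

private lemma log_le_iff {p : ℕ} (hp : 0 < p) (v : ℝ) : Real.log p ≤ v ↔ p ≤ ⌊Real.exp v⌋₊ := by
  have hp' : (0 : ℝ) < p := by exact_mod_cast hp
  rw [Real.log_le_iff_le_exp hp', Nat.le_floor_iff (Real.exp_pos v).le]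

theorem mem_PL {u v : ℝ} {p : ℕ} :
    p ∈ PL u v ↔ p.Prime ∧ u < Real.log p ∧ Real.log p ≤ v := by
  unfold PL
  rw [mem_filter, mem_range]
  constructor
  · exact fun h => h.2
  · intro h
    refine ⟨?_, h⟩
    have := (log_le_iff h.1.pos v).1 h.2.2
    omega

/-- sum of `log p / p` over the primes up to `n` -/
private noncomputable def Ap (n : ℕ) : ℝ := ∑ p ∈ Nat.primesLE n, Real.log p / p

private lemma PL_eq {u v : ℝ} : PL u v = Nat.primesLE ⌊Real.exp v⌋₊ \ Nat.primesLE ⌊Real.exp u⌋₊ := by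
  ext p
  rw [mem_PL, mem_sdiff, Nat.mem_primesLE, Nat.mem_primesLE]
  constructor
  · rintro ⟨h1, h2, h3⟩
    refine ⟨⟨(log_le_iff h1.pos v).1 h3, h1⟩, ?_⟩
    rintro ⟨h4, -⟩
    exact absurd ((log_le_iff h1.pos u).2 h4) (not_le.2 h2)
  · rintro ⟨⟨h1, h2⟩, h3⟩
    refine ⟨h2, ?_, (log_le_iff h2.pos v).2 h1⟩
    by_contra hcon
    exact h3 ⟨(log_le_iff h2.pos u).1 (not_lt.1 hcon), h2⟩

private lemma primesLE_mono {a b : ℕ} (h : a ≤ b) : Nat.primesLE a ⊆ Nat.primesLE b := by
  intro p hp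
  rw [Nat.mem_primesLE] at hp ⊢
  exact ⟨hp.1.trans h, hp.2⟩

private lemma floor_exp_mono {u v : ℝ} (h : u ≤ v) : ⌊Real.exp u⌋₊ ≤ ⌊Real.exp v⌋₊ :=
  Nat.floor_le_floor (Real.exp_le_exp.2 h)

private lemma sum_PL {u v : ℝ} (h : u ≤ v) :
    ∑ p ∈ PL u v, Real.log p / p = Ap ⌊Real.exp v⌋₊ - Ap ⌊Real.exp u⌋₊ := by
  rw [PL_eq, Ap, Ap, ← Finset.sum_sdiff (primesLE_mono (floor_exp_mono h))]
  ring

private lemma exists_T : ∃ T : ℝ, 0 ≤ T ∧ ∀ n : ℕ,
    Ap n ≤ Pool.Agent.H91.Gold.Mt n ∧ Pool.Agent.H91.Gold.Mt n ≤ Ap n + T := by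
  have hsum := ArithmeticFunction.vonMangoldt.summable_residueClass_non_primes_div (q := 1) (0 : ZMod 1)
  have hres : ∀ n : ℕ, ArithmeticFunction.vonMangoldt.residueClass (0 : ZMod 1) n = ArithmeticFunction.vonMangoldt n := by
    intro n
    unfold ArithmeticFunction.vonMangoldt.residueClass
    rw [Set.indicator_of_mem]
    exact Subsingleton.elim _ _
  simp only [hres] at hsum
  set F : ℕ → ℝ := fun n => (if n.Prime then 0 else ArithmeticFunction.vonMangoldt n) / n with hF
  have hF0 : ∀ n, 0 ≤ F n := by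
    intro n
    simp only [hF]
    split_ifs
    · simp
    · exact div_nonneg ArithmeticFunction.vonMangoldt_nonneg (Nat.cast_nonneg _)
  refine ⟨∑' n, F n, tsum_nonneg hF0, fun n => ?_⟩
  have hMt : Pool.Agent.H91.Gold.Mt n = Ap n + ∑ k ∈ Ioc 0 n, F k := by
    unfold Pool.Agent.H91.Gold.Mt Ap
    have h1 : Nat.primesLE n = (Ioc 0 n).filter Nat.Prime := by
      ext p
      rw [Nat.mem_primesLE, mem_filter, mem_Ioc]
      constructor
      · rintro ⟨h1, h2⟩; exact ⟨⟨h2.pos, h1⟩, h2⟩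
      · rintro ⟨⟨-, h1⟩, h2⟩; exact ⟨h1, h2⟩
    rw [h1, Finset.sum_filter, ← Finset.sum_add_distrib]
    apply Finset.sum_congr rfl
    intro k _
    simp only [hF]
    split_ifs with hk
    · rw [ArithmeticFunction.vonMangoldt_apply_prime hk]; simp
    · simp
  have h2 : 0 ≤ ∑ k ∈ Ioc 0 n, F k := Finset.sum_nonneg (fun k _ => hF0 k)
  have h3 : ∑ k ∈ Ioc 0 n, F k ≤ ∑' n, F n := hsum.sum_le_tsum _ (fun k _ => hF0 k)
  constructor <;> linarith

private lemma Mt_mono {a b : ℕ} (h : a ≤ b) :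
    Pool.Agent.H91.Gold.Mt a ≤ Pool.Agent.H91.Gold.Mt b := by
  unfold Pool.Agent.H91.Gold.Mt
  apply Finset.sum_le_sum_of_subset_of_nonneg
  · intro k hk
    rw [mem_Ioc] at hk ⊢
    omega
  · intro k _ _
    exact div_nonneg ArithmeticFunction.vonMangoldt_nonneg (Nat.cast_nonneg _)

private lemma Ap_bounds : ∃ K : ℝ, 1 ≤ K ∧ ∀ n : ℕ, 1 ≤ n →
    Ap n ≤ Real.log n + K ∧ Real.log n ≤ Ap n + K := by
  obtain ⟨T, hT0, hT⟩ := exists_T
  refine ⟨max (Real.log 1024 + 1) (1 + T), le_max_of_le_right (by linarith), fun n hn => ?_⟩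
  have hn0 : 0 ≤ Real.log n := Real.log_nonneg (by exact_mod_cast hn)
  have h1 := hT n
  have h2 := Pool.Agent.H91.Gold.Mt_ge n hn
  have h1024 : 0 ≤ Real.log 1024 := Real.log_nonneg (by norm_num)
  constructor
  · have h3 : Pool.Agent.H91.Gold.Mt n ≤ Real.log n + (Real.log 1024 + 1) := by
      rcases Nat.lt_or_ge n 1024 with h | h
      · have h4 := Mt_mono h.le
        have h5 := Pool.Agent.H91.Gold.Mt_le 1024 le_rfl
        push_cast at h5
        linarith
      · have h5 := Pool.Agent.H91.Gold.Mt_le n h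
        linarith
    have := le_max_left (Real.log 1024 + 1) (1 + T)
    linarith
  · have := le_max_right (Real.log 1024 + 1) (1 + T)
    linarith

private lemma floor_exp_pos {v : ℝ} (hv : 0 ≤ v) : 1 ≤ ⌊Real.exp v⌋₊ := by
  rw [Nat.one_le_floor_iff]
  exact Real.one_le_exp hv

private lemma log_floor_le (v : ℝ) (hv : 0 ≤ v) : Real.log (⌊Real.exp v⌋₊ : ℝ) ≤ v := by
  have h1 := floor_exp_pos hv
  have h2 : (0 : ℝ) < (⌊Real.exp v⌋₊ : ℝ) := by exact_mod_cast h1
  rw [Real.log_le_iff_le_exp h2]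
  exact Nat.floor_le (Real.exp_pos v).le

private lemma le_log_floor (v : ℝ) (hv : 0 ≤ v) :
    v - Real.log 2 ≤ Real.log (⌊Real.exp v⌋₊ : ℝ) := by
  have h1 := floor_exp_pos hv
  have h2 : (1 : ℝ) ≤ (⌊Real.exp v⌋₊ : ℝ) := by exact_mod_cast h1
  have h3 : Real.exp v ≤ 2 * (⌊Real.exp v⌋₊ : ℝ) := by
    have := Nat.lt_floor_add_one (Real.exp v)
    linarith
  have h4 : v ≤ Real.log (2 * (⌊Real.exp v⌋₊ : ℝ)) := by
    rw [Real.le_log_iff_exp_le (by positivity)]
    exact h3
  rw [Real.log_mul (by norm_num) (by positivity)] at h4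
  linarith

private lemma log_step {k : ℕ} (hk : 2 ≤ k) : (1 : ℝ) / k ≤ Real.log k - Real.log (k - 1 : ℕ) := by
  have hk0 : (0 : ℝ) < k := by exact_mod_cast (by omega : 0 < k)
  have hk1 : (0 : ℝ) < ((k - 1 : ℕ) : ℝ) := by exact_mod_cast (by omega : 0 < k - 1)
  have hc : ((k - 1 : ℕ) : ℝ) = k - 1 := by push_cast [Nat.cast_sub (by omega : 1 ≤ k)]; ring
  have h := Real.log_le_sub_one_of_pos (show (0 : ℝ) < ((k - 1 : ℕ) : ℝ) / k by positivity)
  rw [Real.log_div hk1.ne' hk0.ne'] at h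
  have h2 : ((k - 1 : ℕ) : ℝ) / k - 1 = - (1 / k) := by rw [hc]; field_simp; ring
  rw [h2] at h
  linarith

private lemma loglog_step {k : ℕ} (hk : 3 ≤ k) :
    (1 : ℝ) / k * (1 / Real.log k) ≤ Real.log (Real.log k) - Real.log (Real.log (k - 1 : ℕ)) := by
  have hk0 : (0 : ℝ) < k := by exact_mod_cast (by omega : 0 < k)
  have hk1 : (1 : ℝ) < ((k - 1 : ℕ) : ℝ) := by exact_mod_cast (by omega : 1 < k - 1)
  have hk2 : (1 : ℝ) < k := by exact_mod_cast (by omega : 1 < k)
  have hl1 : 0 < Real.log (k - 1 : ℕ) := Real.log_pos hk1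
  have hl2 : 0 < Real.log k := Real.log_pos hk2
  have h := Real.log_le_sub_one_of_pos (show (0 : ℝ) < Real.log (k - 1 : ℕ) / Real.log k by positivity)
  rw [Real.log_div hl1.ne' hl2.ne'] at h
  have h3 := log_step (show 2 ≤ k by omega)
  have h4 : (1 : ℝ) / k * (1 / Real.log k) ≤ (Real.log k - Real.log (k - 1 : ℕ)) * (1 / Real.log k) :=
    mul_le_mul_of_nonneg_right h3 (by positivity)
  have h5 : (Real.log k - Real.log (k - 1 : ℕ)) * (1 / Real.log k) = 1 - Real.log (k - 1 : ℕ) / Real.log k := by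
    field_simp
  rw [h5] at h4
  linarith

private lemma sum_loglog {w z : ℕ} (hw : 2 ≤ w) (h : w ≤ z) :
    ∑ k ∈ Ioc w z, (1 : ℝ) / k * (1 / Real.log k) ≤ Real.log (Real.log z) - Real.log (Real.log w) := by
  induction z, h using Nat.le_induction with
  | base => simp
  | succ z hz ih =>
    rw [Finset.sum_Ioc_succ_top (by omega)]
    have := loglog_step (k := z + 1) (by omega)
    simp only [Nat.add_sub_cancel] at this
    linarith

private lemma sum_inv_ge {w m : ℕ} (hw : 1 ≤ w) (h : w ≤ m) :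
    Real.log m - Real.log w - 1 ≤ ∑ k ∈ Ioc w m, (1 : ℝ) / k := by
  have key : Real.log (m + 1) - Real.log (w + 1) ≤ ∑ k ∈ Ioc w m, (1 : ℝ) / k := by
    induction m, h using Nat.le_induction with
    | base => simp
    | succ m hm ih =>
      rw [Finset.sum_Ioc_succ_top (by omega)]
      have hm0 : (0 : ℝ) < (m : ℝ) + 1 := by positivity
      have h1 := Real.log_le_sub_one_of_pos (show (0 : ℝ) < ((m : ℝ) + 2) / (m + 1) by positivity)
      rw [Real.log_div (by positivity) (by positivity)] at h1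
      have h2 : ((m : ℝ) + 2) / (m + 1) - 1 = 1 / (m + 1) := by field_simp; ring
      rw [h2] at h1
      push_cast
      rw [show (m : ℝ) + 1 + 1 = m + 2 by ring]
      linarith
  have hw0 : (0 : ℝ) < w := by exact_mod_cast hw
  have hm0 : (0 : ℝ) < m := by exact_mod_cast (by omega : 0 < m)
  have h1 : Real.log m ≤ Real.log (m + 1) := Real.log_le_log hm0 (by linarith)
  have h2 := Real.log_le_sub_one_of_pos (show (0 : ℝ) < ((w : ℝ) + 1) / w by positivity)
  rw [Real.log_div (by positivity) (by positivity)] at h2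
  have h3 : ((w : ℝ) + 1) / w - 1 = 1 / w := by field_simp; ring
  have h4 : (1 : ℝ) / w ≤ 1 := by
    rw [div_le_one hw0]; exact_mod_cast hw
  rw [h3] at h2
  linarith

/-- Mertens' estimates (one constant for all of them). -/
theorem mertens : ∃ C : ℝ, 1 ≤ C ∧
    (∀ u v : ℝ, 0 ≤ u → u ≤ v → ∑ p ∈ PL u v, Real.log p / p ≤ (v - u) + C) ∧
    (∀ u v : ℝ, 0 ≤ u → u ≤ v → (v - u) - C ≤ ∑ p ∈ PL u v, Real.log p / p) ∧
    (∀ u v : ℝ, 1 ≤ u → u ≤ v → ∑ p ∈ PL u v, (1 : ℝ) / p ≤ Real.log (v / u) + C) ∧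
    (∀ v : ℝ, 0 ≤ v → ∑ p ∈ PL 0 v, Real.log p ≤ C * Real.exp v) := by
  obtain ⟨K, hK1, hK⟩ := Ap_bounds
  have hlog2 : Real.log 2 ≤ 1 := by have := Real.log_two_lt_d9; linarith
  have hlog2' : 0 < Real.log 2 := Real.log_pos (by norm_num)
  have hlog2'' : Real.log 2 < 0.7 := by have := Real.log_two_lt_d9; linarith
  have hlog2l : 0.69 < Real.log 2 := by have := Real.log_two_gt_d9; linarith
  refine ⟨4 * K + 10, by linarith, ?_, ?_, ?_, ?_⟩
  · intro u v hu huv
    rw [sum_PL huv]
    have h1 := (hK _ (floor_exp_pos (hu.trans huv))).1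
    have h2 := (hK _ (floor_exp_pos hu)).2
    have h3 := log_floor_le v (hu.trans huv)
    have h4 := le_log_floor u hu
    linarith
  · intro u v hu huv
    rw [sum_PL huv]
    have h1 := (hK _ (floor_exp_pos (hu.trans huv))).2
    have h2 := (hK _ (floor_exp_pos hu)).1
    have h3 := le_log_floor v (hu.trans huv)
    have h4 := log_floor_le u hu
    linarith
  · intro u v hu huv
    set w := ⌊Real.exp u⌋₊ with hw
    set z := ⌊Real.exp v⌋₊ with hz
    have hwz : w ≤ z := floor_exp_mono huv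
    have hw2 : 2 ≤ w := by
      rw [hw, Nat.le_floor_iff (Real.exp_pos u).le]
      have h1 : Real.exp 1 ≤ Real.exp u := Real.exp_le_exp.2 hu
      have h2 := Real.exp_one_gt_d9
      push_cast
      linarith
    have hw0 : (0 : ℝ) < w := by exact_mod_cast (by omega : 0 < w)
    have hab := Pool.Agent.H91.Gold.abel_le hwz (c := 2 * K + 1) (by linarith)
      (a := fun k => if k.Prime then Real.log k / k else 0)
      (b := fun k => (1 : ℝ) / k) (f := fun k => 1 / Real.log k)
      (fun k hk _ => by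
        have : (1 : ℝ) ≤ k := by exact_mod_cast (by omega : 1 ≤ k)
        exact div_nonneg one_pos.le (Real.log_nonneg this))
      (by
        have : (1 : ℝ) ≤ ((w + 1 : ℕ) : ℝ) := by exact_mod_cast (by omega : 1 ≤ w + 1)
        exact div_nonneg one_pos.le (Real.log_nonneg this))
      (fun k hk _ => by
        have h1 : (1 : ℝ) < k := by exact_mod_cast (by omega : 1 < k)
        apply one_div_le_one_div_of_le (Real.log_pos h1)
        apply Real.log_le_log (by linarith)
        push_cast; linarith)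
      (fun m hwm hmz => by
        have e1 : ∑ k ∈ Ioc w m, (if k.Prime then Real.log k / k else 0) = Ap m - Ap w := by
          rw [← Finset.sum_filter, Ap, Ap, ← Finset.sum_sdiff (primesLE_mono hwm), add_sub_cancel_right]
          apply Finset.sum_congr _ (fun _ _ => rfl)
          ext p
          rw [mem_filter, mem_Ioc, mem_sdiff, Nat.mem_primesLE, Nat.mem_primesLE]
          constructor
          · rintro ⟨⟨h1, h2⟩, h3⟩
            exact ⟨⟨h2, h3⟩, fun h => by omega⟩
          · rintro ⟨⟨h1, h2⟩, h3⟩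
            refine ⟨⟨?_, h1⟩, h2⟩
            by_contra hcon
            exact h3 ⟨by omega, h2⟩
        rw [e1]
        have h1 := (hK m (by omega)).1
        have h2 := (hK w (by omega)).2
        have h3 := sum_inv_ge (show 1 ≤ w by omega) hwm
        linarith)
    have e2 : ∑ p ∈ PL u v, (1 : ℝ) / p = ∑ k ∈ Ioc w z, (if k.Prime then Real.log k / k else 0) * (1 / Real.log k) := by
      have e3 : PL u v = (Ioc w z).filter Nat.Prime := by
        rw [PL_eq]
        ext p
        rw [mem_filter, mem_Ioc, mem_sdiff, Nat.mem_primesLE, Nat.mem_primesLE]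
        constructor
        · rintro ⟨⟨h1, h2⟩, h3⟩
          refine ⟨⟨?_, h1⟩, h2⟩
          by_contra hcon
          exact h3 ⟨by omega, h2⟩
        · rintro ⟨⟨h1, h2⟩, h3⟩
          exact ⟨⟨h2, h3⟩, fun h => by omega⟩
      rw [e3, Finset.sum_filter]
      apply Finset.sum_congr rfl
      intro k hk
      split_ifs with hkp
      · have : 0 < Real.log k := Real.log_pos (by exact_mod_cast hkp.one_lt)
        field_simp
      · simp
    rw [e2]
    refine hab.trans ?_
    have h5 := sum_loglog hw2 hwz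
    -- bounds on the loglog terms
    have hz2 : 2 ≤ z := hw2.trans hwz
    have hz0 : (0 : ℝ) < z := by exact_mod_cast (by omega : 0 < z)
    have hu0 : 0 < u := by linarith
    have hv0 : 0 < v := by linarith
    have h6 : Real.log (Real.log z) ≤ Real.log v := by
      apply Real.log_le_log (Real.log_pos (by exact_mod_cast (by omega : 1 < z)))
      exact log_floor_le v hv0.le
    have h7 : Real.log u - 2 ≤ Real.log (Real.log w) := by
      have h8 := le_log_floor u hu0.le
      -- log w >= u - log 2 >= 0.3 u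
      have h9 : 0.3 * u ≤ Real.log w := by
        have : Real.log w ≥ u - Real.log 2 := h8
        nlinarith
      have h10 : Real.log (0.3 * u) ≤ Real.log (Real.log w) := Real.log_le_log (by positivity) h9
      rw [Real.log_mul (by norm_num) hu0.ne'] at h10
      have h11 : -2 ≤ Real.log 0.3 := by
        rw [Real.le_log_iff_exp_le (by norm_num)]
        have h12 : Real.exp (-2) ≤ 0.25 := by
          rw [show (-2 : ℝ) = -(1 + 1) by norm_num, Real.exp_neg, Real.exp_add]
          have := Real.exp_one_gt_d9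
          rw [inv_le_comm₀ (by positivity) (by norm_num)]
          nlinarith
        linarith
      linarith
    have h8 : (2 * K + 1) * (1 / Real.log ((w + 1 : ℕ) : ℝ)) ≤ 2 * K + 1 := by
      have h9 : 1 ≤ Real.log ((w + 1 : ℕ) : ℝ) := by
        rw [Real.le_log_iff_exp_le (by positivity)]
        have : Real.exp 1 < 3 := by have := Real.exp_one_lt_d9; linarith
        have h3 : (3 : ℝ) ≤ ((w + 1 : ℕ) : ℝ) := by exact_mod_cast (by omega : 3 ≤ w + 1)
        linarith
      have h10 : 1 / Real.log ((w + 1 : ℕ) : ℝ) ≤ 1 := by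
        rw [div_le_one (by linarith)]; exact h9
      nlinarith
    rw [Real.log_div hv0.ne' hu0.ne']
    linarith
  · intro v hv
    have h1 := Chebyshev.theta_le_log4_mul_x (Real.exp_pos v).le
    have h2 : ∑ p ∈ PL 0 v, Real.log p ≤ Chebyshev.theta (Real.exp v) := by
      rw [Chebyshev.theta_eq_sum_primesLE]
      apply Finset.sum_le_sum_of_subset_of_nonneg
      · rw [PL_eq]; exact Finset.sdiff_subset
      · intro p hp _
        exact Real.log_natCast_nonneg p
    have h3 : Real.log 4 ≤ 2 := by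
      rw [show (4 : ℝ) = 2 * 2 by norm_num, Real.log_mul (by norm_num) (by norm_num)]
      linarith
    have h4 : Real.log 4 * Real.exp v ≤ (4 * K + 10) * Real.exp v :=
      mul_le_mul_of_nonneg_right (by linarith) (Real.exp_pos v).le
    linarith

end Pool.Agent.Lead.ZN
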