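import Pool.Agent.Lead.ZN.SumsA

namespace Pool.Agent.Lead.ZN

open Finset

noncomputable section

private theorem mem_SD {D r j d : ℕ} : d ∈ SD D r j ↔ (1 ≤ d ∧ d ≤ D) ∧ Squarefree d ∧
    ∀ p ∈ d.primeFactors, 2 ^ j * lam D r < Real.log p := by
  unfold SD
  rw [mem_filter, mem_Icc]

/-- the primes dividing `d` have total logarithm at most `log d`. -/
private theorem sum_log_primeFactors (d : ℕ) (hd : 1 ≤ d) :
    ∑ p ∈ d.primeFactors, Real.log p ≤ Real.log d := by
  have h1 : ∑ p ∈ d.primeFactors, Real.log p = Real.log (∏ p ∈ d.primeFactors, (p : ℝ)) := by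
    rw [Real.log_prod]
    intro p hp
    have := (Nat.prime_of_mem_primeFactors hp).pos
    positivity
  rw [h1]
  have h2 : ∏ p ∈ d.primeFactors, (p : ℝ) = ((∏ p ∈ d.primeFactors, p : ℕ) : ℝ) := by
    push_cast
    rfl
  rw [h2]
  have h3 : ∏ p ∈ d.primeFactors, p ≤ d := Nat.le_of_dvd (by omega) (Nat.prod_primeFactors_dvd d)
  have h4 : 0 < ∏ p ∈ d.primeFactors, p :=
    Finset.prod_pos fun p hp => (Nat.prime_of_mem_primeFactors hp).pos
  exact Real.log_le_log (by exact_mod_cast h4) (by exact_mod_cast h3)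

/-- the sum of `log p / p` over the primes dividing `d`. -/
private theorem sum_log_div {D r d : ℕ} (hd : d ∈ SD D r 0) :
    ∑ p ∈ d.primeFactors, Real.log p / p ≤ Real.log D / Real.exp (lam D r) := by
  obtain ⟨⟨h1, h2⟩, h3, h4⟩ := mem_SD.mp hd
  have h5 : ∑ p ∈ d.primeFactors, Real.log p / p ≤
      ∑ p ∈ d.primeFactors, Real.log p / Real.exp (lam D r) := by
    apply Finset.sum_le_sum
    intro p hp
    have hpp := Nat.prime_of_mem_primeFactors hp
    have h6 := h4 p hp
    rw [pow_zero, one_mul] at h6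
    have hp0 : (0 : ℝ) < p := by exact_mod_cast hpp.pos
    have h7 : Real.exp (lam D r) ≤ p := by
      rw [← Real.exp_log hp0]
      exact Real.exp_le_exp.mpr h6.le
    have h8 : 0 ≤ Real.log p := Real.log_nonneg (by exact_mod_cast hpp.one_lt.le)
    exact div_le_div_of_nonneg_left h8 (Real.exp_pos _) h7
  refine h5.trans ?_
  rw [← Finset.sum_div]
  apply div_le_div_of_nonneg_right _ (Real.exp_pos _).le
  refine (sum_log_primeFactors d h1).trans ?_
  exact Real.log_le_log (by exact_mod_cast h1) (by exact_mod_cast h2)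

/-- S4: the number of admissible primes at `d`. -/
theorem sum_nb_lower : ∃ C : ℝ, 1 ≤ C ∧ ∀ D r d : ℕ, 2 ≤ D → 1 ≤ r → 1 ≤ lam D r →
    (Real.log D ≤ Real.exp (lam D r)) → d ∈ SD D r 0 →
    Real.log D - Real.log d - lam D r - C ≤ ∑ p ∈ nb (SD D r 0) d, Real.log p / p := by
  obtain ⟨C, hC, -, hM, -, -⟩ := mertens
  refine ⟨C + 1, by linarith, ?_⟩
  intro D r d hD hr hlam hexp hd
  obtain ⟨⟨h1, h2⟩, h3, h4⟩ := mem_SD.mp hd
  have hd0 : 0 < d := h1
  have hnn : ∀ p : ℕ, 0 ≤ Real.log p / p := fun p =>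
    div_nonneg (Real.log_natCast_nonneg p) (Nat.cast_nonneg p)
  by_cases hc : lam D r ≤ Real.log D - Real.log d
  · have hm := hM (lam D r) (Real.log D - Real.log d) (by linarith) hc
    have hdv := sum_log_div hd
    have hdv2 : Real.log D / Real.exp (lam D r) ≤ 1 := by
      rw [div_le_one (Real.exp_pos _)]
      exact hexp
    have hsub : PL (lam D r) (Real.log D - Real.log d) ⊆
        nb (SD D r 0) d ∪ d.primeFactors := by
      intro p hp
      rw [mem_PL] at hp
      obtain ⟨hpp, hp1, hp2⟩ := hp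
      rw [mem_union, mem_nb hd0]
      by_cases hpd : p ∣ d
      · right
        rw [Nat.mem_primeFactors]
        exact ⟨hpp, hpd, by omega⟩
      · left
        refine ⟨hpp, hpd, ?_⟩
        rw [mem_SD]
        have hp0 : (0 : ℝ) < p := by exact_mod_cast hpp.pos
        have hd0' : (0 : ℝ) < d := by exact_mod_cast hd0
        have hD0' : (0 : ℝ) < D := by
          have : 0 < D := by omega
          exact_mod_cast this
        have hle : d * p ≤ D := by
          have h5 : Real.log ((d : ℝ) * p) ≤ Real.log D := by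
            rw [Real.log_mul hd0'.ne' hp0.ne']
            linarith
          have h6 : (d : ℝ) * p ≤ D := (Real.log_le_log_iff (by positivity) hD0').mp h5
          exact_mod_cast h6
        refine ⟨⟨Nat.mul_pos hd0 hpp.pos, hle⟩, ?_, ?_⟩
        · rw [Nat.squarefree_mul ((Nat.Prime.coprime_iff_not_dvd hpp).mpr hpd).symm]
          exact ⟨h3, hpp.squarefree⟩
        · intro q hq
          rw [Nat.primeFactors_mul hd0.ne' hpp.ne_zero, mem_union] at hq
          rcases hq with hq | hq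
          · exact h4 q hq
          · rw [Nat.Prime.primeFactors hpp, mem_singleton] at hq
            rw [hq, pow_zero, one_mul]
            exact hp1
    have hs : ∑ p ∈ PL (lam D r) (Real.log D - Real.log d), Real.log p / p ≤
        ∑ p ∈ nb (SD D r 0) d, Real.log p / p + ∑ p ∈ d.primeFactors, Real.log p / p := by
      refine (Finset.sum_le_sum_of_subset_of_nonneg hsub fun p _ _ => hnn p).trans ?_
      rw [← Finset.sum_union_inter]
      have : 0 ≤ ∑ p ∈ nb (SD D r 0) d ∩ d.primeFactors, Real.log p / p :=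
        Finset.sum_nonneg fun p _ => hnn p
      linarith
    linarith
  · have : 0 ≤ ∑ p ∈ nb (SD D r 0) d, Real.log p / p := Finset.sum_nonneg fun p _ => hnn p
    push Not at hc
    linarith

/-- S5: -/
theorem sum_primeFactors_le {D r d : ℕ} (hD : 2 ≤ D) (h1 : 1 ≤ lam D r)
    (h2 : 4 * Real.log D ≤ Real.exp (lam D r)) (hd : d ∈ SD D r 0) :
    ∑ p ∈ d.primeFactors, Real.log p / (p - 1) ≤ 1 := by
  have h3 : ∑ p ∈ d.primeFactors, Real.log p / ((p : ℝ) - 1) ≤
      ∑ p ∈ d.primeFactors, 2 * (Real.log p / p) := by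
    apply Finset.sum_le_sum
    intro p hp
    have hpp := Nat.prime_of_mem_primeFactors hp
    have hp2 : (2 : ℝ) ≤ p := by exact_mod_cast hpp.two_le
    have h8 : 0 ≤ Real.log p := Real.log_nonneg (by linarith)
    rw [← mul_div_assoc, div_le_div_iff₀ (by linarith) (by linarith)]
    nlinarith
  refine h3.trans ?_
  rw [← Finset.mul_sum]
  have h4 := sum_log_div hd
  have h5 : Real.log D / Real.exp (lam D r) ≤ 1 / 4 := by
    rw [div_le_div_iff₀ (Real.exp_pos _) (by norm_num)]
    linarith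
  linarith

/-- S6: the rounding error of the edges. -/
theorem sum_round : ∃ C : ℝ, 1 ≤ C ∧ ∀ D r : ℕ, 2 ≤ D → 1 ≤ r → 1 ≤ lam D r →
    ∑ d ∈ SD D r 0, ∑ p ∈ nb (SD D r 0) d, (d.totient : ℝ) * (Real.log p / p) * (p : ℝ) ^ 2 ≤
      C * (D : ℝ) ^ 2 * Real.log D := by
  obtain ⟨C, hC, -, -, -, hM⟩ := mertens
  refine ⟨3 * C, by linarith, ?_⟩
  intro D r hD hr hlam
  have hD2 : (2 : ℝ) ≤ D := by exact_mod_cast hD
  have hD0 : (0 : ℝ) < D := by linarith
  have step : ∀ d ∈ SD D r 0, ∑ p ∈ nb (SD D r 0) d,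
      (d.totient : ℝ) * (Real.log p / p) * (p : ℝ) ^ 2 ≤ C * (D : ℝ) ^ 2 * (d : ℝ)⁻¹ := by
    intro d hd
    obtain ⟨⟨h1, h2⟩, h3, h4⟩ := mem_SD.mp hd
    have hd0 : (0 : ℝ) < d := by exact_mod_cast h1
    set v := Real.log D - Real.log d with hv
    have hv0 : 0 ≤ v := by
      have := Real.log_le_log hd0 (by exact_mod_cast h2 : (d : ℝ) ≤ D)
      linarith
    have hev : Real.exp v = D / d := by
      rw [hv, Real.exp_sub, Real.exp_log hD0, Real.exp_log hd0]
    have hsub : nb (SD D r 0) d ⊆ PL 0 v := by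
      intro p hp
      rw [mem_nb (by omega)] at hp
      obtain ⟨hpp, -, hp2⟩ := hp
      obtain ⟨⟨-, h5⟩, -, -⟩ := mem_SD.mp hp2
      have hp0 : (0 : ℝ) < p := by exact_mod_cast hpp.pos
      rw [mem_PL]
      refine ⟨hpp, Real.log_pos (by exact_mod_cast hpp.one_lt), ?_⟩
      have h6 : Real.log ((d : ℝ) * p) ≤ Real.log D :=
        Real.log_le_log (by positivity) (by exact_mod_cast h5)
      rw [Real.log_mul hd0.ne' hp0.ne'] at h6
      rw [hv]
      linarith
    have h7 : ∑ p ∈ nb (SD D r 0) d, (d.totient : ℝ) * (Real.log p / p) * (p : ℝ) ^ 2 ≤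
        ∑ p ∈ nb (SD D r 0) d, (D : ℝ) * Real.log p := by
      apply Finset.sum_le_sum
      intro p hp
      rw [mem_nb (by omega)] at hp
      obtain ⟨hpp, -, hp2⟩ := hp
      obtain ⟨⟨-, h5⟩, -, -⟩ := mem_SD.mp hp2
      have hp0 : (0 : ℝ) < p := by exact_mod_cast hpp.pos
      have h8 : 0 ≤ Real.log p := Real.log_natCast_nonneg p
      have h9 : (d.totient : ℝ) ≤ d := by exact_mod_cast Nat.totient_le d
      have h10 : (d : ℝ) * p ≤ D := by exact_mod_cast h5
      have e1 : (d.totient : ℝ) * (Real.log p / p) * (p : ℝ) ^ 2 =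
          (d.totient * p) * Real.log p := by
        field_simp
      rw [e1]
      apply mul_le_mul_of_nonneg_right _ h8
      exact (mul_le_mul_of_nonneg_right h9 hp0.le).trans h10
    refine h7.trans ?_
    rw [← Finset.mul_sum]
    have h11 : ∑ p ∈ nb (SD D r 0) d, Real.log p ≤ C * (D / d) := by
      refine (Finset.sum_le_sum_of_subset_of_nonneg hsub fun p _ _ =>
        Real.log_natCast_nonneg p).trans ?_
      rw [← hev]
      exact hM v hv0
    calc (D : ℝ) * ∑ p ∈ nb (SD D r 0) d, Real.log p ≤ D * (C * (D / d)) :=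
          mul_le_mul_of_nonneg_left h11 hD0.le
      _ = C * (D : ℝ) ^ 2 * (d : ℝ)⁻¹ := by
          field_simp
  refine (Finset.sum_le_sum step).trans ?_
  rw [← Finset.mul_sum]
  have h12 : ∑ d ∈ SD D r 0, (d : ℝ)⁻¹ ≤ 1 + Real.log D := by
    have h13 : ∑ d ∈ SD D r 0, (d : ℝ)⁻¹ ≤ ∑ d ∈ Icc 1 D, (d : ℝ)⁻¹ := by
      apply Finset.sum_le_sum_of_subset_of_nonneg
      · unfold SD
        exact Finset.filter_subset _ _
      · intro d _ _
        positivity
    refine h13.trans ?_
    have h14 := harmonic_le_one_add_log D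
    rw [harmonic_eq_sum_Icc] at h14
    push_cast at h14
    exact h14
  have h15 : 1 + Real.log D ≤ 3 * Real.log D := by
    have h16 : Real.log 2 ≤ Real.log D := Real.log_le_log (by norm_num) hD2
    have h17 := Real.log_two_gt_d9
    linarith
  calc C * (D : ℝ) ^ 2 * ∑ d ∈ SD D r 0, (d : ℝ)⁻¹ ≤ C * (D : ℝ) ^ 2 * (3 * Real.log D) :=
        mul_le_mul_of_nonneg_left (h12.trans h15) (by positivity)
    _ = 3 * C * (D : ℝ) ^ 2 * Real.log D := by ring

theorem SD_closed {D r d p : ℕ} (hd : d ∈ SD D r 0) (hp : p ∈ d.primeFactors) :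
    d / p ∈ SD D r 0 := by
  obtain ⟨⟨h1, h2⟩, h3, h4⟩ := mem_SD.mp hd
  have hpd : p ∣ d := Nat.dvd_of_mem_primeFactors hp
  have hpp := Nat.prime_of_mem_primeFactors hp
  have hdiv : d / p ∣ d := Nat.div_dvd_of_dvd hpd
  rw [mem_SD]
  refine ⟨⟨Nat.div_pos (Nat.le_of_dvd (by omega) hpd) hpp.pos, (Nat.div_le_self d p).trans h2⟩,
    h3.squarefree_of_dvd hdiv, fun q hq => h4 q ?_⟩
  exact Nat.primeFactors_mono hdiv (by omega) hq

end

end Pool.Agent.Lead.ZN
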