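import Pool.Agent.Lead.ZN.SumsB
import Pool.Agent.Lead.ZN.SumsC

namespace Pool.Agent.Lead.ZN

open Finset

noncomputable section

/-- the multiplicity `⌊k w_d / d⌋` -/
def mul (D r k d : ℕ) : ℕ := ⌊(k : ℝ) * wt D r d / d⌋₊

private lemma wt_nonneg (D r d : ℕ) : 0 ≤ wt D r d := by
  unfold wt; positivity

private lemma mul_le_div (D r k d : ℕ) : (mul D r k d : ℝ) ≤ (k : ℝ) * wt D r d / d := by
  unfold mul
  exact Nat.floor_le (by have := wt_nonneg D r d; positivity)

private lemma mul_gt (D r k d : ℕ) : (k : ℝ) * wt D r d / d - 1 < (mul D r k d : ℝ) := by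
  unfold mul
  have := Nat.lt_floor_add_one ((k : ℝ) * wt D r d / d)
  linarith

private lemma mul_le_k {D r k d : ℕ} (hd : 0 < d) : (mul D r k d : ℝ) ≤ (k : ℝ) / d := by
  refine (mul_le_div D r k d).trans ?_
  have := wt_le_one D r d
  gcongr
  calc (k : ℝ) * wt D r d ≤ k * 1 := by gcongr
    _ = k := mul_one _

private lemma mem_SD_pos {D r j d : ℕ} (hd : d ∈ SD D r j) : 0 < d ∧ d ≤ D ∧ Squarefree d := by
  unfold SD at hd
  rw [mem_filter, mem_Icc] at hd
  exact ⟨hd.1.1, hd.1.2, hd.2.1⟩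

private lemma mul_totient_le {D r k d : ℕ} (hd : 0 < d) : mul D r k d * d.totient ≤ k := by
  have h1 := mul_le_k (D := D) (r := r) (k := k) hd
  have hd' : (0 : ℝ) < d := by exact_mod_cast hd
  have h2 : (mul D r k d : ℝ) * d.totient ≤ k := by
    calc (mul D r k d : ℝ) * d.totient ≤ (k : ℝ) / d * d := by
          have : (d.totient : ℝ) ≤ d := by exact_mod_cast Nat.totient_le d
          gcongr
      _ = k := by field_simp
  exact_mod_cast h2

private lemma sum_mul_totient_le (D r k : ℕ) :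
    ∑ d ∈ SD D r 0, mul D r k d * d.totient ≤ k * D := by
  calc ∑ d ∈ SD D r 0, mul D r k d * d.totient ≤ ∑ d ∈ SD D r 0, k :=
        sum_le_sum fun d hd => mul_totient_le (mem_SD_pos hd).1
    _ = (SD D r 0).card * k := by rw [sum_const, smul_eq_mul]
    _ ≤ D * k := by
        refine Nat.mul_le_mul_right k ?_
        unfold SD
        refine (card_filter_le _ _).trans ?_
        simp
    _ = k * D := Nat.mul_comm _ _

/-- numerical facts -/
private lemma facts {D r k : ℕ} (hr : 2 ≤ r) (h1 : 1 ≤ lam D r)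
    (h2 : (D : ℝ) * Real.log D ≤ k) (hD : 2 ≤ D) :
    Real.log D = lam D r * 2 ^ r ∧ (2 : ℝ) ^ r ≤ Real.log D ∧ 4 ≤ Real.log D ∧ (D : ℝ) ≤ k ∧
      D ≤ k ∧ (r : ℝ) ≤ Real.log D := by
  have hL : Real.log D = lam D r * 2 ^ r := by
    unfold lam
    field_simp
  have h2r : (2 : ℝ) ^ r ≤ Real.log D := by
    rw [hL]
    have : (0 : ℝ) < 2 ^ r := by positivity
    nlinarith
  have h4 : (4 : ℝ) ≤ 2 ^ r := by
    calc (4 : ℝ) = 2 ^ 2 := by norm_num
      _ ≤ 2 ^ r := pow_le_pow_right₀ (by norm_num) hr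
  have hDk : (D : ℝ) ≤ k := by
    have : (0 : ℝ) ≤ D := by positivity
    nlinarith
  have hrr : (r : ℝ) ≤ 2 ^ r := by
    have : r < 2 ^ r := Nat.lt_two_pow_self
    exact_mod_cast this.le
  exact ⟨hL, h2r, h4.trans h2r, hDk, by exact_mod_cast hDk, hrr.trans h2r⟩

theorem total_degree {n D r k : ℕ} (hD : 2 ≤ D) (hr : 2 ≤ r) (h1 : 1 ≤ lam D r)
    (h2 : (D : ℝ) * Real.log D ≤ k) (h3 : k ^ 2 ≤ n + 1) :
    ∑ d ∈ SD D r 0, mul D r k d * d.totient ≤ n + 1 := by
  obtain ⟨-, -, -, -, hDk, -⟩ := facts hr h1 h2 hD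
  refine (sum_mul_totient_le D r k).trans (le_trans ?_ h3)
  rw [sq]
  exact Nat.mul_le_mul_left k hDk

theorem total_bound : ∃ C : ℝ, 1 ≤ C ∧ ∀ n D r k : ℕ, 2 ≤ D → 2 ≤ r → 1 ≤ lam D r →
    4 * Real.log D ≤ Real.exp (lam D r) → (D : ℝ) * Real.log D ≤ k → k ^ 2 ≤ n + 1 →
    Real.log (((n : ℝ) + 1) / (k * D)) ≤ lam D r → Real.log (n + 1) ≤ 4 * Real.log D →
    (2 : ℝ) ^ (2 * r) ≤ Real.log D →
    (∑ d ∈ SD D r 0, mul D r k d * d.totient : ℕ) * Real.log 8 +
        ∑ d ∈ SD D r 0, (d.totient : ℝ) * ∑ i ∈ range (mul D r k d),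
          Real.log ((n + 1).choose (i + 1)) -
        ∑ d ∈ SD D r 0, ((mul D r k d).choose 2 : ℝ) * Real.log (cD d) -
        ∑ d ∈ SD D r 0, ∑ p ∈ nb (SD D r 0) d,
          (mul D r k d : ℝ) * mul D r k (d * p) * (d.totient * Real.log p) ≤
      C * (k : ℝ) ^ 2 * Real.log D / r := by
  obtain ⟨C2, hC2, hsumsq⟩ := sum_wt_sq
  obtain ⟨C3, hC3, hedges⟩ := sum_edges
  obtain ⟨C4, hC4, hnb⟩ := sum_nb_lower
  obtain ⟨C6, hC6, hround⟩ := sum_round
  refine ⟨5 + (8 + C4) * C2 + C3 + C6, by nlinarith, ?_⟩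
  intro n D r k hD hr h1 hexp hDk hkn hlogn hlog4 h22r
  obtain ⟨hL, h2r, h4, hDk', hDkN, hrL⟩ := facts hr h1 hDk hD
  set Λ := lam D r with hΛ
  set L := Real.log D with hLdef
  have hr0 : (0 : ℝ) < r := by exact_mod_cast (by omega : 0 < r)
  have hk0 : (0 : ℝ) < k := lt_of_lt_of_le (by exact_mod_cast (by omega : 0 < D)) hDk'
  have hD0 : (0 : ℝ) < D := by exact_mod_cast (by omega : 0 < D)
  have hkNat : 1 ≤ k := by exact_mod_cast hk0
  -- energy
  have hE := energy n (SD D r 0) (mul D r k) (fun d hd => (mem_SD_pos hd).2.2)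
    (fun d hd p hp => SD_closed hd hp)
    (fun d hd => sum_primeFactors_le hD h1 hexp hd)
    (fun d hd => (mem_SD_pos hd).2.1.trans (hDkN.trans (le_trans (by nlinarith) hkn)))
    (fun d hd => by
      have h := mul_le_k (D := D) (r := r) (k := k) (mem_SD_pos hd).1
      have h' : (mul D r k d : ℝ) ≤ k := h.trans (by
        have : (1 : ℝ) ≤ d := by exact_mod_cast (mem_SD_pos hd).1
        exact div_le_self hk0.le this)
      have h'' : mul D r k d ≤ k := by exact_mod_cast h'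
      exact h''.trans (le_trans (by nlinarith) hkn))
  -- the sum of degrees
  have hm : ((∑ d ∈ SD D r 0, mul D r k d * d.totient : ℕ) : ℝ) ≤ k * D := by
    exact_mod_cast sum_mul_totient_le D r k
  have hm' : ∑ d ∈ SD D r 0, (d.totient : ℝ) * mul D r k d =
      ((∑ d ∈ SD D r 0, mul D r k d * d.totient : ℕ) : ℝ) := by
    push_cast
    exact sum_congr rfl fun d _ => mul_comm _ _
  have hlog8 : Real.log 8 ≤ L := by
    have : Real.log 8 = 3 * Real.log 2 := by
      rw [show (8 : ℝ) = 2 ^ 3 by norm_num, Real.log_pow]; norm_num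
    have h2 := Real.log_two_lt_d9
    rw [this]
    linarith
  have hlog8' : 0 ≤ Real.log 8 := Real.log_nonneg (by norm_num)
  have hlogn0 : 0 ≤ Real.log ((n : ℝ) + 1) := Real.log_nonneg (by
    have : (0 : ℝ) ≤ n := by positivity
    linarith)
  have hLr : 1 ≤ L / r := by
    rw [le_div_iff₀ hr0, one_mul]; exact hrL
  have hk2 : (k : ℝ) ^ 2 ≤ (k : ℝ) ^ 2 * (L / r) := by
    have : 0 ≤ (k : ℝ) ^ 2 := by positivity
    nlinarith
  have hpartA : ((∑ d ∈ SD D r 0, mul D r k d * d.totient : ℕ) : ℝ) * Real.log 8 +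
      Real.log (n + 1) * ∑ d ∈ SD D r 0, (d.totient : ℝ) * mul D r k d ≤
      5 * ((k : ℝ) ^ 2 * (L / r)) := by
    rw [hm']
    set M := ((∑ d ∈ SD D r 0, mul D r k d * d.totient : ℕ) : ℝ)
    have hM0 : 0 ≤ M := by positivity
    have : M * Real.log 8 + Real.log (n + 1) * M ≤ 5 * (k * D) * L := by
      have e1 : M * Real.log 8 ≤ (k * D) * L := by
        apply mul_le_mul hm hlog8 hlog8' (by positivity)
      have e2 : Real.log (n + 1) * M ≤ (4 * L) * (k * D) := by
        apply mul_le_mul hlog4 hm hM0 (by positivity)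
      nlinarith
    have e3 : (k : ℝ) * D * L ≤ (k : ℝ) ^ 2 := by nlinarith
    nlinarith
  -- the diagonal
  have hlog2r : Real.log (2 * r) ≤ Λ := by
    have e1 : Real.log (2 * r) ≤ 2 * r := by
      have := Real.log_le_sub_one_of_pos (x := 2 * (r : ℝ)) (by positivity)
      linarith
    have e2 : (2 : ℝ) * r ≤ 2 ^ r := by
      have : 2 * r ≤ 2 ^ r := by
        clear * - hr
        induction r, hr using Nat.le_induction with
        | base => norm_num
        | succ m hm ih => rw [pow_succ]; omega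
      exact_mod_cast this
    have e3 : (2 : ℝ) ^ r ≤ Λ := by
      have e4 : (2 : ℝ) ^ r * 2 ^ r ≤ Λ * 2 ^ r := by
        rw [← hL, ← pow_add, ← two_mul]; exact h22r
      exact le_of_mul_le_mul_right e4 (by positivity)
    linarith
  have hdiag : ∀ d ∈ SD D r 0, (d.totient : ℝ) * (mul D r k d : ℝ) ^ 2 *
      (Real.log (n + 1) - Real.log (mul D r k d) - 2 * Real.log d -
        ∑ p ∈ nb (SD D r 0) d, Real.log p / p + 5) ≤
      (8 + C4) * Λ * (k : ℝ) ^ 2 * ((d.totient : ℝ) / (d : ℝ) ^ 2 * wt D r d ^ 2) := by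
    intro d hd
    obtain ⟨hd0, hdD, hdsq⟩ := mem_SD_pos hd
    have hd0' : (0 : ℝ) < d := by exact_mod_cast hd0
    have hw0 := wt_nonneg D r d
    rcases Nat.eq_zero_or_pos (mul D r k d) with he | he
    · rw [he]
      simp only [Nat.cast_zero, ne_eq, OfNat.ofNat_ne_zero, not_false_eq_true, zero_pow,
        mul_zero, zero_mul]
      positivity
    have he' : (1 : ℝ) ≤ mul D r k d := by exact_mod_cast he
    have hle := mul_le_div D r k d
    have hgt := mul_gt D r k d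
    have hwt := wt_pos (D := D) (r := r) (by omega : 0 < r) hd
    have hhalf : (k : ℝ) * wt D r d / d / 2 ≤ mul D r k d := by linarith
    have hlow : (k : ℝ) / (2 * r * d) ≤ mul D r k d := by
      refine le_trans ?_ hhalf
      have : (k : ℝ) / (2 * r * d) = k * (1 / r) / d / 2 := by field_simp
      rw [this]
      gcongr
    have hlogm : Real.log k - Real.log (2 * r) - Real.log d ≤ Real.log (mul D r k d) := by
      have := Real.log_le_log (by positivity) hlow
      rw [Real.log_div (by positivity) (by positivity), Real.log_mul (by positivity) (by positivity)]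
        at this
      linarith
    have hnb' := hnb D r d hD (by omega) h1 (by linarith) hd
    have hlogn' : Real.log (n + 1) ≤ Λ + Real.log k + L := by
      rw [Real.log_div (by positivity) (by positivity), Real.log_mul (by positivity) (by positivity)]
        at hlogn
      linarith
    have hbr : Real.log (n + 1) - Real.log (mul D r k d) - 2 * Real.log d -
        ∑ p ∈ nb (SD D r 0) d, Real.log p / p + 5 ≤ (8 + C4) * Λ := by
      have : C4 ≤ C4 * Λ := by nlinarith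
      nlinarith
    have hsq : (mul D r k d : ℝ) ^ 2 ≤ (k : ℝ) ^ 2 * (wt D r d ^ 2 / (d : ℝ) ^ 2) := by
      have := pow_le_pow_left₀ (by positivity) hle 2
      refine this.trans (le_of_eq ?_)
      field_simp
    calc (d.totient : ℝ) * (mul D r k d : ℝ) ^ 2 *
        (Real.log (n + 1) - Real.log (mul D r k d) - 2 * Real.log d -
          ∑ p ∈ nb (SD D r 0) d, Real.log p / p + 5)
        ≤ (d.totient : ℝ) * (mul D r k d : ℝ) ^ 2 * ((8 + C4) * Λ) :=
          mul_le_mul_of_nonneg_left hbr (by positivity)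
      _ ≤ (d.totient : ℝ) * ((k : ℝ) ^ 2 * (wt D r d ^ 2 / (d : ℝ) ^ 2)) * ((8 + C4) * Λ) := by
          gcongr
      _ = _ := by field_simp
  have hpartB : ∑ d ∈ SD D r 0, (d.totient : ℝ) * (mul D r k d : ℝ) ^ 2 *
      (Real.log (n + 1) - Real.log (mul D r k d) - 2 * Real.log d -
        ∑ p ∈ nb (SD D r 0) d, Real.log p / p + 5) ≤
      (8 + C4) * C2 * ((k : ℝ) ^ 2 * (L / r)) := by
    refine (sum_le_sum hdiag).trans ?_
    rw [← mul_sum]
    have h := hsumsq D r hD (by omega) h1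
    calc (8 + C4) * Λ * (k : ℝ) ^ 2 * ∑ d ∈ SD D r 0, (d.totient : ℝ) / (d : ℝ) ^ 2 * wt D r d ^ 2
        ≤ (8 + C4) * Λ * (k : ℝ) ^ 2 * (C2 * 2 ^ r / r ^ 2) := by
          refine mul_le_mul_of_nonneg_left h (by positivity)
      _ = (8 + C4) * C2 * (k : ℝ) ^ 2 * ((Λ * 2 ^ r) / r) / r := by field_simp
      _ = (8 + C4) * C2 * ((k : ℝ) ^ 2 * (L / r)) / r := by rw [← hL]; ring
      _ ≤ _ := by
          refine div_le_self (by positivity) ?_
          exact_mod_cast (by omega : 1 ≤ r)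
  -- the edges
  have hedge : ∀ d ∈ SD D r 0, ∀ p ∈ nb (SD D r 0) d,
      (d.totient : ℝ) * (Real.log p / p) * ((mul D r k d : ℝ) - p * mul D r k (d * p)) ^ 2 ≤
      2 * (k : ℝ) ^ 2 * ((d.totient : ℝ) / (d : ℝ) ^ 2 * (Real.log p / p) *
        (wt D r d - wt D r (d * p)) ^ 2) +
      2 * ((d.totient : ℝ) * (Real.log p / p) * (p : ℝ) ^ 2) := by
    intro d hd p hp
    obtain ⟨hd0, hdD, hdsq⟩ := mem_SD_pos hd
    have hd0' : (0 : ℝ) < d := by exact_mod_cast hd0
    rw [mem_nb hd0] at hp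
    have hp0 : (1 : ℝ) ≤ p := by exact_mod_cast hp.1.one_lt.le
    have hp00 : (0 : ℝ) < p := by linarith
    have hlogp : 0 ≤ Real.log p := Real.log_nonneg hp0
    have a1 := mul_le_div D r k d
    have a2 := mul_gt D r k d
    have b1 := mul_le_div D r k (d * p)
    have b2 := mul_gt D r k (d * p)
    have c1 : (p : ℝ) * mul D r k (d * p) ≤ k * wt D r (d * p) / d := by
      calc (p : ℝ) * mul D r k (d * p) ≤ p * ((k : ℝ) * wt D r (d * p) / ((d * p : ℕ) : ℝ)) := by
            gcongr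
        _ = k * wt D r (d * p) / d := by push_cast; field_simp
    have c2 : k * wt D r (d * p) / d - p ≤ (p : ℝ) * mul D r k (d * p) := by
      calc k * wt D r (d * p) / d - p = p * ((k : ℝ) * wt D r (d * p) / ((d * p : ℕ) : ℝ) - 1) := by
            push_cast; field_simp
        _ ≤ _ := by gcongr
    set x := (mul D r k d : ℝ) - p * mul D r k (d * p) with hx
    set y := (k : ℝ) * wt D r d / d - k * wt D r (d * p) / d with hy
    have hxy1 : x - y ≤ p := by rw [hx, hy]; linarith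
    have hxy2 : -p ≤ x - y := by rw [hx, hy]; linarith
    have hsq : x ^ 2 ≤ 2 * y ^ 2 + 2 * (p : ℝ) ^ 2 := by
      have h5 : (x - y) ^ 2 ≤ (p : ℝ) ^ 2 := sq_le_sq' hxy2 hxy1
      nlinarith [sq_nonneg (x - 2 * y)]
    have hy2 : y ^ 2 = (k : ℝ) ^ 2 / (d : ℝ) ^ 2 * (wt D r d - wt D r (d * p)) ^ 2 := by
      rw [hy]; field_simp
    calc (d.totient : ℝ) * (Real.log p / p) * x ^ 2
        ≤ (d.totient : ℝ) * (Real.log p / p) * (2 * y ^ 2 + 2 * (p : ℝ) ^ 2) := by
          refine mul_le_mul_of_nonneg_left hsq (by positivity)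
      _ = _ := by rw [hy2]; field_simp
  have hpartC : ∑ d ∈ SD D r 0, ∑ p ∈ nb (SD D r 0) d,
      (d.totient : ℝ) * (Real.log p / p) * ((mul D r k d : ℝ) - p * mul D r k (d * p)) ^ 2 ≤
      (2 * C3 + 2 * C6) * ((k : ℝ) ^ 2 * (L / r)) := by
    refine (sum_le_sum fun d hd => sum_le_sum (hedge d hd)).trans ?_
    simp only [sum_add_distrib, ← mul_sum]
    have e1 := hedges D r hD (by omega) h1
    have e2 := hround D r hD (by omega) h1
    have e3 : (D : ℝ) ^ 2 * L ≤ (k : ℝ) ^ 2 := by nlinarith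
    have hk20 : 0 ≤ (k : ℝ) ^ 2 := by positivity
    calc 2 * (k : ℝ) ^ 2 * ∑ d ∈ SD D r 0, ∑ p ∈ nb (SD D r 0) d,
          (d.totient : ℝ) / (d : ℝ) ^ 2 * (Real.log p / p) * (wt D r d - wt D r (d * p)) ^ 2 +
        2 * ∑ d ∈ SD D r 0, ∑ p ∈ nb (SD D r 0) d, (d.totient : ℝ) * (Real.log p / p) * (p : ℝ) ^ 2
        ≤ 2 * (k : ℝ) ^ 2 * (C3 * L / r) + 2 * (C6 * (D : ℝ) ^ 2 * L) := by gcongr
      _ ≤ 2 * (k : ℝ) ^ 2 * (C3 * L / r) + 2 * (C6 * ((k : ℝ) ^ 2 * (L / r))) := by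
          have : C6 * (D : ℝ) ^ 2 * L ≤ C6 * ((k : ℝ) ^ 2 * (L / r)) := by
            rw [mul_assoc]
            refine mul_le_mul_of_nonneg_left (e3.trans hk2) (by linarith)
          linarith
      _ = _ := by ring
  have hfinal : C3 * 0 ≤ 0 := by simp
  have hpos : 0 ≤ (k : ℝ) ^ 2 * (L / r) := by positivity
  have hgoal : (5 + (8 + C4) * C2 + C3 + C6) * (k : ℝ) ^ 2 * L / r =
      (5 + (8 + C4) * C2 + C3 + C6) * ((k : ℝ) ^ 2 * (L / r)) := by ring
  rw [hgoal]
  have hBC : 0 ≤ (8 + C4) * C2 * ((k : ℝ) ^ 2 * (L / r)) := by positivity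
  linarith

end

end Pool.Agent.Lead.ZN
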