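import Pool.Agent.Lead.ZN.NormsA

namespace Pool.Agent.Lead.ZN

open Polynomial Finset

private lemma cf_hasse_eq_zero {w : ℂ} {k : ℕ} {P : ℂ[X]} (h : (X - C w) ^ (k + 1) ∣ P) :
    (hasseDeriv k P).eval w = 0 := by
  obtain ⟨Q, rfl⟩ := h
  rw [← taylor_coeff, taylor_mul, taylor_pow]
  have h1 : taylor w (X - C w) = X := by simp
  rw [h1, coeff_X_pow_mul']
  simp

private lemma cf_hasse_mul {w : ℂ} {k : ℕ} {P : ℂ[X]} (h : (X - C w) ^ k ∣ P) (q : ℂ[X]) :
    (hasseDeriv k (P * q)).eval w = (hasseDeriv k P).eval w * q.eval w := by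
  obtain ⟨Q, rfl⟩ := h
  rw [← taylor_coeff, ← taylor_coeff, taylor_mul, taylor_mul, taylor_pow]
  have h1 : taylor w (X - C w) = X := by simp
  rw [h1, mul_assoc, coeff_X_pow_mul', coeff_X_pow_mul']
  simp [mul_coeff_zero, taylor_coeff_zero]

private lemma cf_monic (L : List ℕ) : (FL L).Monic := by
  induction L with
  | nil => simp [FL]
  | cons d L ih =>
    have : FL (d :: L) = cyclotomic d ℂ * FL L := by simp [FL]
    rw [this]
    exact (cyclotomic.monic d ℂ).mul ih

private lemma cf_cons (d : ℕ) (L : List ℕ) : FL (d :: L) = cyclotomic d ℂ * FL L := by simp [FL]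

private lemma cf_natDegree (L : List ℕ) : (FL L).natDegree = degL L := by
  induction L with
  | nil => simp [FL, degL]
  | cons d L ih =>
    rw [cf_cons, (cyclotomic.monic d ℂ).natDegree_mul (cf_monic L), natDegree_cyclotomic, ih]
    simp [degL]

private lemma cf_pow_dvd (d : ℕ) (L : List ℕ) : cyclotomic d ℂ ^ (L.count d) ∣ FL L := by
  induction L with
  | nil => simp
  | cons d' L ih =>
    rw [cf_cons, List.count_cons]
    by_cases h : d' = d
    · subst h
      simp only [beq_self_eq_true, if_true, pow_succ]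
      rw [mul_comm (cyclotomic d' ℂ ^ _)]
      exact mul_dvd_mul_left _ ih
    · have : (d' == d) = false := by simpa using h
      rw [this]
      simp only [Bool.false_eq_true, if_false, add_zero]
      exact Dvd.dvd.mul_left ih _

private lemma cf_linear_dvd {d : ℕ} (hd : 0 < d) {w : ℂ} (hw : w ∈ primitiveRoots d ℂ) :
    (X - C w) ∣ cyclotomic d ℂ := by
  rw [dvd_iff_isRoot]
  have h1 : IsPrimitiveRoot w d := (mem_primitiveRoots hd).1 hw
  have : NeZero (d : ℂ) := ⟨by exact_mod_cast hd.ne'⟩
  exact (isRoot_cyclotomic_iff).2 h1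

/-- The change of basis. -/
private lemma cf_basis (n m : ℕ) (F : ℂ[X]) (hF : F.Monic) (hm : F.natDegree = m)
    (Λ : Fin n → ℂ[X] →ₗ[ℂ] ℂ) :
    (Matrix.of fun j a : Fin n => Λ j (X ^ (a : ℕ))).det =
      (Matrix.of fun j a : Fin n =>
        Λ j (if (a : ℕ) < m then X ^ (a : ℕ) else F * X ^ ((a : ℕ) - m))).det := by
  set p : Fin n → ℂ[X] := fun a => if (a : ℕ) < m then X ^ (a : ℕ) else F * X ^ ((a : ℕ) - m) with hp
  have hdeg : ∀ a, (p a).natDegree = a := by
    intro a
    simp only [hp]
    split_ifs with h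
    · simp
    · rw [hF.natDegree_mul (monic_X_pow _), hm, natDegree_X_pow]
      omega
  have hmon : ∀ a, (p a).Monic := by
    intro a
    simp only [hp]
    split_ifs with h
    · exact monic_X_pow _
    · exact hF.mul (monic_X_pow _)
  have h1 : (Matrix.of fun j a : Fin n => Λ j (p a)) =
      (Matrix.of fun j a : Fin n => Λ j (X ^ (a : ℕ))) *
        (Matrix.of fun i j : Fin n => (p j).coeff i) := by
    ext j a
    rw [Matrix.mul_apply]
    simp only [Matrix.of_apply]
    conv_lhs => rw [(p a).as_sum_range' n (by rw [hdeg]; exact a.2)]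
    rw [map_sum, ← Fin.sum_univ_eq_sum_range (fun c => Λ j (monomial c ((p a).coeff c))) n]
    refine Finset.sum_congr rfl fun c _ => ?_
    rw [← mul_one ((p a).coeff (c : ℕ)), ← smul_eq_mul ((p a).coeff (c : ℕ)) 1, ← smul_monomial,
      monomial_one_right_eq_X_pow, map_smul, smul_eq_mul, smul_eq_mul, mul_one, mul_comm]
  have h2 := congrArg Matrix.det h1
  rw [Matrix.det_mul, Matrix.det_matrixOfPolynomials p hdeg hmon, mul_one] at h2
  exact h2.symm

private lemma cf_vandermonde {n : ℕ} (r : Fin n → ℂ) :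
    ‖(Matrix.vandermonde r).det‖ ^ 2 = ∏ i, ∏ j ∈ univ.erase i, ‖r i - r j‖ := by
  rw [Matrix.det_vandermonde]
  have h1 : ∀ i : Fin n, (univ.erase i : Finset (Fin n)) = Ioi i ∪ Iio i := by
    intro i
    ext j
    simp only [mem_erase, mem_univ, and_true, mem_union, mem_Ioi, mem_Iio]
    constructor
    · intro h
      exact (lt_or_gt_of_ne h).symm
    · rintro (h | h)
      · exact h.ne'
      · exact h.ne
  have h2 : ∀ i : Fin n, ∏ j ∈ univ.erase i, ‖r i - r j‖ =
      (∏ j ∈ Ioi i, ‖r j - r i‖) * ∏ j ∈ Iio i, ‖r i - r j‖ := by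
    intro i
    rw [h1 i, Finset.prod_union]
    · congr 1
      exact Finset.prod_congr rfl fun j _ => norm_sub_rev _ _
    · rw [Finset.disjoint_left]
      intro j hj hj'
      rw [mem_Ioi] at hj
      rw [mem_Iio] at hj'
      exact absurd hj hj'.asymm
  rw [Finset.prod_congr rfl fun i _ => h2 i, Finset.prod_mul_distrib, norm_prod, sq]
  congr 1
  · exact Finset.prod_congr rfl fun i _ => norm_prod _ _
  · rw [Finset.prod_comm' (t' := univ) (s' := fun j => Ioi j)]
    · exact Finset.prod_congr rfl fun i _ => norm_prod _ _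
    · intro x y
      simp

private lemma cf_cD {d : ℕ} (hd : 0 < d) (r : Fin d.totient → ℂ) (hr : Function.Injective r)
    (him : univ.image r = primitiveRoots d ℂ) : ‖(Matrix.vandermonde r).det‖ ^ 2 = cD d := by
  rw [cf_vandermonde, cD, ← him, Finset.prod_image fun a _ b _ h => hr h]
  refine Finset.prod_congr rfl fun i _ => ?_
  have h1 : cyclotomic d ℂ = ∏ j : Fin d.totient, (X - C (r j)) := by
    rw [cyclotomic_eq_prod_X_sub_primitiveRoots (Complex.isPrimitiveRoot_exp d hd.ne'), ← him,
      Finset.prod_image fun a _ b _ h => hr h]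
  rw [h1, derivative_prod_finset]
  simp only [derivative_sub, derivative_X, derivative_C, sub_zero, mul_one]
  rw [eval_finsetSum, Finset.sum_eq_single i]
  · rw [eval_prod, norm_prod]
    refine Finset.prod_congr rfl fun j _ => ?_
    simp
  · intro j _ hj
    rw [eval_prod]
    refine Finset.prod_eq_zero (i := i) (Finset.mem_erase.2 ⟨hj.symm, Finset.mem_univ _⟩) ?_
    simp
  · intro h
    exact absurd (Finset.mem_univ i) h

/-- One stage. -/
private lemma cf_step (d : ℕ) (L : List ℕ) (hd : 0 < d) (i : Fin (degL L) → ℕ)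
    (ω : Fin (degL L) → ℂ) (h3 : ∀ j (q : ℂ[X]), (hasseDeriv (i j) (FL L * q)).eval (ω j) = 0)
    (r : Fin d.totient → ℂ) (hrinj : Function.Injective r)
    (hrim : univ.image r = primitiveRoots d ℂ)
    (e : Fin (degL L) ⊕ Fin d.totient ≃ Fin (degL (d :: L)))
    (he1 : ∀ a, (e (Sum.inl a) : ℕ) = a) (he2 : ∀ b, (e (Sum.inr b) : ℕ) = degL L + b) :
    ‖(Matrix.of fun (j a : Fin (degL (d :: L))) =>
        (hasseDeriv (Sum.elim i (fun _ => L.count d) (e.symm j)) (X ^ (a : ℕ) : ℂ[X])).eval
          (Sum.elim ω r (e.symm j))).det‖ =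
      ‖(Matrix.of fun (j a : Fin (degL L)) =>
          (hasseDeriv (i j) (X ^ (a : ℕ) : ℂ[X])).eval (ω j)).det‖ *
        ((∏ w ∈ primitiveRoots d ℂ, ‖(hasseDeriv (L.count d) (FL L)).eval w‖) *
          ‖(Matrix.vandermonde r).det‖) := by
  generalize hk : L.count d = k
  have hdvd : ∀ b, (X - C (r b)) ^ k ∣ FL L := by
    intro b
    rw [← hk]
    have h1 : r b ∈ primitiveRoots d ℂ := by
      rw [← hrim]; exact Finset.mem_image_of_mem r (Finset.mem_univ b)
    exact (pow_dvd_pow_of_dvd (cf_linear_dvd hd h1) _).trans (cf_pow_dvd d L)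
  have h1 := cf_basis (degL (d :: L)) (degL L) (FL L) (cf_monic L) (cf_natDegree L)
    (fun j => (Polynomial.leval (Sum.elim ω r (e.symm j))).comp
      (hasseDeriv (Sum.elim i (fun _ => k) (e.symm j))))
  simp only [LinearMap.comp_apply, Polynomial.leval_apply] at h1
  rw [h1, ← Matrix.det_submatrix_equiv_self e]
  have h2 : (Matrix.of fun j a : Fin (degL (d :: L)) =>
      eval (Sum.elim ω r (e.symm j)) (hasseDeriv (Sum.elim i (fun _ => k) (e.symm j))
        (if (a : ℕ) < degL L then X ^ (a : ℕ) else FL L * X ^ ((a : ℕ) - degL L)))).submatrix e e =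
      Matrix.fromBlocks
        (Matrix.of fun (j a : Fin (degL L)) => (hasseDeriv (i j) (X ^ (a : ℕ) : ℂ[X])).eval (ω j)) 0
        (Matrix.of fun (b : Fin d.totient) (a : Fin (degL L)) =>
          (hasseDeriv k (X ^ (a : ℕ) : ℂ[X])).eval (r b))
        (Matrix.of fun (b c : Fin d.totient) => (hasseDeriv k (FL L)).eval (r b) * r b ^ (c : ℕ)) := by
    ext s s'
    rcases s with j | b <;> rcases s' with a | c
    · simp [he1]
    · simp only [Matrix.submatrix_apply, Matrix.of_apply, Equiv.symm_apply_apply, Sum.elim_inl,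
        he2, Matrix.fromBlocks_apply₁₂, Matrix.zero_apply]
      rw [if_neg (by omega)]
      exact h3 j _
    · simp [he1]
    · simp only [Matrix.submatrix_apply, Matrix.of_apply, Equiv.symm_apply_apply, Sum.elim_inr,
        he2, Matrix.fromBlocks_apply₂₂]
      rw [if_neg (by omega), Nat.add_sub_cancel_left, cf_hasse_mul (hdvd b)]
      simp
  rw [h2, Matrix.det_fromBlocks_zero₁₂, norm_mul]
  congr 1
  have h4 : (Matrix.of fun (b c : Fin d.totient) => (hasseDeriv k (FL L)).eval (r b) * r b ^ (c : ℕ)) =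
      Matrix.of fun (b c : Fin d.totient) =>
        (fun b => (hasseDeriv k (FL L)).eval (r b)) b * Matrix.vandermonde r b c := by
    ext b c
    simp [Matrix.vandermonde_apply]
  rw [h4, Matrix.det_mul_column, norm_mul, norm_prod, ← hrim,
    Finset.prod_image fun a _ b _ h => hrinj h]

/-- The confluent Vandermonde matrix of `FL L`: rows `P ↦ (hasseDeriv i P)(ω)`. -/
theorem confluent (L : List ℕ) (hL : ∀ d ∈ L, 0 < d) :
    ∃ (i : Fin (degL L) → ℕ) (ω : Fin (degL L) → ℂ),
      (∀ j, ‖ω j‖ = 1) ∧ (∀ j, i j < degL L) ∧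
      (∀ j (q : ℂ[X]), (hasseDeriv (i j) (FL L * q)).eval (ω j) = 0) ∧
      (∀ B : ℕ → ℝ, ∏ j, B (i j) = rowProd B L) ∧
      stageNorm L ≤
        ‖(Matrix.of fun (j a : Fin (degL L)) =>
            (hasseDeriv (i j) (X ^ (a : ℕ) : ℂ[X])).eval (ω j)).det‖ := by
  induction L with
  | nil =>
    have h0 : degL [] = 0 := by simp [degL]
    have hE : IsEmpty (Fin (degL [])) := by rw [h0]; infer_instance
    refine ⟨fun _ => 0, fun _ => 1, fun j => hE.elim j, fun j => hE.elim j, fun j => hE.elim j,
      fun B => ?_, ?_⟩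
    · rw [Finset.univ_eq_empty, Finset.prod_empty]; rfl
    · rw [Matrix.det_isEmpty, norm_one]
      exact le_rfl
  | cons d L ih =>
    obtain ⟨i, ω, h1, h2, h3, h4, h5⟩ := ih fun d' hd' => hL d' (List.mem_cons_of_mem _ hd')
    have hd : 0 < d := hL d List.mem_cons_self
    -- an enumeration of the primitive roots
    have hcard : (primitiveRoots d ℂ).card = d.totient :=
      (Complex.isPrimitiveRoot_exp d hd.ne').card_primitiveRoots
    set e₀ := (primitiveRoots d ℂ).equivFinOfCardEq hcard with he₀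
    set r : Fin d.totient → ℂ := fun b => (e₀.symm b : ℂ) with hr
    have hrinj : Function.Injective r := fun a b h => e₀.symm.injective (Subtype.ext h)
    have hrim : univ.image r = primitiveRoots d ℂ := by
      ext w
      simp only [mem_image, mem_univ, true_and, hr]
      constructor
      · rintro ⟨b, rfl⟩
        exact (e₀.symm b).2
      · intro hw
        exact ⟨e₀ ⟨w, hw⟩, by simp⟩
    have hdeg : degL L + d.totient = degL (d :: L) := by
      simp [degL, add_comm]
    set e : Fin (degL L) ⊕ Fin d.totient ≃ Fin (degL (d :: L)) :=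
      finSumFinEquiv.trans (finCongr hdeg) with he
    have he1 : ∀ a, (e (Sum.inl a) : ℕ) = a := by intro a; simp [he]
    have he2 : ∀ b, (e (Sum.inr b) : ℕ) = degL L + b := by intro b; simp [he]
    have hkey := cf_step d L hd i ω h3 r hrinj hrim e he1 he2
    have hcount : L.count d ≤ degL L := by
      have h6 := Polynomial.natDegree_le_of_dvd (cf_pow_dvd d L) (cf_monic L).ne_zero
      rw [cf_natDegree, natDegree_pow, natDegree_cyclotomic] at h6
      have h7 : 0 < d.totient := Nat.totient_pos.2 hd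
      calc L.count d = L.count d * 1 := (mul_one _).symm
        _ ≤ L.count d * d.totient := Nat.mul_le_mul_left _ h7
        _ ≤ _ := h6
    have hprim : ∀ b, r b ∈ primitiveRoots d ℂ := by
      intro b
      rw [← hrim]; exact Finset.mem_image_of_mem r (Finset.mem_univ b)
    refine ⟨fun j => Sum.elim i (fun _ => L.count d) (e.symm j),
      fun j => Sum.elim ω r (e.symm j), ?_, ?_, ?_, ?_, ?_⟩
    · intro j
      show ‖Sum.elim ω r (e.symm j)‖ = 1
      rcases e.symm j with a | b
      · exact h1 a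
      · exact ((mem_primitiveRoots hd).1 (hprim b)).norm'_eq_one hd.ne'
    · intro j
      have h7 : 0 < d.totient := Nat.totient_pos.2 hd
      show Sum.elim i (fun _ => L.count d) (e.symm j) < degL (d :: L)
      rcases e.symm j with a | b
      · show i a < _
        have := h2 a
        omega
      · show L.count d < _
        omega
    · intro j q
      rw [cf_cons]
      show eval (Sum.elim ω r (e.symm j)) (hasseDeriv (Sum.elim i (fun _ => L.count d) (e.symm j))
        (cyclotomic d ℂ * FL L * q)) = 0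
      rcases e.symm j with a | b
      · show eval (ω a) (hasseDeriv (i a) (cyclotomic d ℂ * FL L * q)) = 0
        rw [mul_comm (cyclotomic d ℂ), mul_assoc]
        exact h3 a _
      · show eval (r b) (hasseDeriv (L.count d) (cyclotomic d ℂ * FL L * q)) = 0
        refine cf_hasse_eq_zero ?_
        rw [pow_succ']
        exact (mul_dvd_mul (cf_linear_dvd hd (hprim b))
          ((pow_dvd_pow_of_dvd (cf_linear_dvd hd (hprim b)) _).trans (cf_pow_dvd d L))).mul_right q
    · intro B
      rw [← Equiv.prod_comp e, Fintype.prod_sum_type]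
      simp only [Equiv.symm_apply_apply, Sum.elim_inl, Sum.elim_inr, h4 B, Finset.prod_const,
        Finset.card_univ, Fintype.card_fin]
      rfl
    · rw [hkey]
      show stageNorm L * _ ≤ _
      have hV : 1 ≤ ‖(Matrix.vandermonde r).det‖ := by
        have h6 := cf_cD hd r hrinj hrim
        have h7 := one_le_cD hd
        rw [← h6] at h7
        by_contra hcon
        push Not at hcon
        have h8 := norm_nonneg (Matrix.vandermonde r).det
        nlinarith
      have hP : 0 ≤ ∏ w ∈ primitiveRoots d ℂ, ‖(hasseDeriv (L.count d) (FL L)).eval w‖ :=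
        Finset.prod_nonneg fun _ _ => norm_nonneg _
      refine mul_le_mul h5 ?_ hP (norm_nonneg _)
      exact le_mul_of_one_le_right hP hV

end Pool.Agent.Lead.ZN
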