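import Mathlib

/-!
# Definitions for the lower bound Z(n) ≥ c √(n log log n / log n)  (MP_ff76c9_an)
-/

namespace Pool.Agent.Lead.ZN

open Polynomial Finset

noncomputable section

/-- `cN d d' = ∏ |Φ_{d'}(ω)|` over the primitive `d`-th roots of unity `ω`
(the absolute value of the resultant of `Φ_d` and `Φ_{d'}`). -/
def cN (d d' : ℕ) : ℝ := ∏ ω ∈ primitiveRoots d ℂ, ‖(cyclotomic d' ℂ).eval ω‖

/-- `cD d = ∏ |Φ_d'(ω)|` over the primitive `d`-th roots of unity (the absolute value of the
discriminant of `Φ_d`). -/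
def cD (d : ℕ) : ℝ := ∏ ω ∈ primitiveRoots d ℂ, ‖(derivative (cyclotomic d ℂ)).eval ω‖

/-- The product of the cyclotomic polynomials `Φ_d`, `d ∈ L` (with multiplicity). -/
def FL (L : List ℕ) : ℂ[X] := (L.map fun d => cyclotomic d ℂ).prod

/-- Its degree. -/
def degL (L : List ℕ) : ℕ := (L.map Nat.totient).sum

/-- Product of the leading Taylor coefficients, stage by stage (the head of the list is the
last stage). -/
def stageNorm : List ℕ → ℝ
  | [] => 1
  | d :: L => stageNorm L *
      ∏ ω ∈ primitiveRoots d ℂ, ‖(hasseDeriv (L.count d) (FL L)).eval ω‖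

/-- Product of `B i` over all rows of the confluent Vandermonde matrix. -/
def rowProd (B : ℕ → ℝ) : List ℕ → ℝ
  | [] => 1
  | d :: L => rowProd B L * B (L.count d) ^ d.totient

end

end Pool.Agent.Lead.ZN
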