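import Pool.Agent.Lead.ZN.NormsA

namespace Pool.Agent.Lead.ZN

open Finset

/-- The primes `p` with `p ∤ d`, `d p ∈ S`. -/
noncomputable def nb (S : Finset ℕ) (d : ℕ) : Finset ℕ :=
  (range (S.sup id + 1)).filter fun p => p.Prime ∧ ¬ p ∣ d ∧ d * p ∈ S

theorem mem_nb {S : Finset ℕ} {d p : ℕ} (hd : 0 < d) :
    p ∈ nb S d ↔ p.Prime ∧ ¬ p ∣ d ∧ d * p ∈ S := by
  unfold nb
  rw [mem_filter, mem_range]
  refine ⟨fun h => h.2, fun h => ⟨?_, h⟩⟩
  have h1 : d * p ≤ S.sup id := le_sup (f := id) h.2.2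
  have h2 : p ≤ d * p := Nat.le_mul_of_pos_left p hd
  omega

private lemma log_factorial_lower (j : ℕ) :
    (j : ℝ) * Real.log j - j ≤ Real.log (j.factorial) := by
  induction j with
  | zero => simp
  | succ j ih =>
    rcases Nat.eq_zero_or_pos j with hj | hj
    · subst hj; simp
    rw [Nat.factorial_succ, Nat.cast_mul, Real.log_mul (by positivity) (by positivity)]
    have hj' : (0 : ℝ) < j := by exact_mod_cast hj
    have h1 : Real.log ((j : ℝ) + 1) - Real.log j ≤ 1 / j := by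
      rw [← Real.log_div (by positivity) (by positivity)]
      have h2 : ((j : ℝ) + 1) / j = 1 + 1 / j := by field_simp
      rw [h2]
      have := Real.log_le_sub_one_of_pos (x := 1 + 1 / (j : ℝ)) (by positivity)
      linarith
    have h3 : (j : ℝ) * (Real.log ((j : ℝ) + 1) - Real.log j) ≤ 1 := by
      calc (j : ℝ) * (Real.log ((j : ℝ) + 1) - Real.log j) ≤ j * (1 / j) :=
            mul_le_mul_of_nonneg_left h1 hj'.le
        _ = 1 := by field_simp
    push_cast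
    nlinarith

private lemma sum_log_factorial_lower (e : ℕ) :
    (e : ℝ) ^ 2 / 2 * Real.log e - 5 / 4 * (e : ℝ) ^ 2 ≤
      ∑ i ∈ range e, Real.log ((i + 1).factorial) := by
  induction e with
  | zero => simp
  | succ e ih =>
    rw [sum_range_succ]
    have h1 := log_factorial_lower (e + 1)
    rcases Nat.eq_zero_or_pos e with he | he
    · subst he
      simp
      norm_num
    have he' : (1 : ℝ) ≤ e := by exact_mod_cast he
    have h2 : Real.log ((e : ℝ) + 1) - Real.log e ≤ 1 / e := by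
      rw [← Real.log_div (by positivity) (by positivity)]
      have h2 : ((e : ℝ) + 1) / e = 1 + 1 / e := by field_simp
      rw [h2]
      have := Real.log_le_sub_one_of_pos (x := 1 + 1 / (e : ℝ)) (by positivity)
      linarith
    have h3 : (e : ℝ) ^ 2 * (Real.log ((e : ℝ) + 1) - Real.log e) ≤ e := by
      calc (e : ℝ) ^ 2 * (Real.log ((e : ℝ) + 1) - Real.log e) ≤ e ^ 2 * (1 / e) :=
            mul_le_mul_of_nonneg_left h2 (by positivity)
        _ = e := by field_simp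
    have h4 : 0 ≤ Real.log ((e : ℝ) + 1) := Real.log_nonneg (by linarith)
    push_cast at h1 ⊢
    nlinarith

/-- Bound for the binomial rows. -/
private lemma rows_bound {N e : ℕ} (heN : e ≤ N) :
    ∑ i ∈ range e, Real.log (N.choose (i + 1)) ≤
      (e : ℝ) * (e + 1) / 2 * Real.log N - (e : ℝ) ^ 2 / 2 * Real.log e + 5 / 4 * (e : ℝ) ^ 2 := by
  have h1 : ∀ i ∈ range e, Real.log (N.choose (i + 1)) ≤
      ((i : ℝ) + 1) * Real.log N - Real.log ((i + 1).factorial) := by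
    intro i hi
    rw [mem_range] at hi
    have hN : 0 < N := by omega
    have hc : 0 < N.choose (i + 1) := Nat.choose_pos (by omega)
    have hle : (N.choose (i + 1) : ℝ) ≤ (N : ℝ) ^ (i + 1) / (i + 1).factorial :=
      Nat.choose_le_pow_div (i + 1) N
    have h2 := Real.log_le_log (by exact_mod_cast hc) hle
    rw [Real.log_div (by positivity) (by positivity), Real.log_pow] at h2
    push_cast at h2
    exact h2
  refine (sum_le_sum h1).trans ?_
  rw [sum_sub_distrib, ← sum_mul]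
  have h3 : ∑ i ∈ range e, ((i : ℝ) + 1) = (e : ℝ) * (e + 1) / 2 := by
    clear heN h1
    induction e with
    | zero => simp
    | succ e ih => rw [sum_range_succ, ih]; push_cast; ring
  rw [h3]
  have := sum_log_factorial_lower e
  linarith

/-- One diagonal term. -/
private lemma diag_bound {n d e : ℕ} (hd : Squarefree d)
    (hd3 : ∑ p ∈ d.primeFactors, Real.log p / (p - 1) ≤ 1) (hdn : d ≤ n + 1) (hen : e ≤ n + 1) :
    (d.totient : ℝ) * ∑ i ∈ range e, Real.log ((n + 1).choose (i + 1)) -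
        (e.choose 2 : ℝ) * Real.log (cD d) ≤
      (d.totient : ℝ) * ((e : ℝ) ^ 2 / 2 *
        (Real.log (n + 1) - Real.log e - Real.log d + 5) + e * Real.log (n + 1)) := by
  have hd0 : 0 < d := Nat.pos_of_ne_zero hd.ne_zero
  have hA := rows_bound (N := n + 1) (e := e) hen
  have hB := log_cD hd
  have hφ : (0 : ℝ) ≤ d.totient := by positivity
  have hch : (e.choose 2 : ℝ) = (e : ℝ) * (e - 1) / 2 := Nat.cast_choose_two ℝ e
  have hch0 : (0 : ℝ) ≤ (e.choose 2 : ℝ) := by positivity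
  have hlogd : Real.log d ≤ Real.log (n + 1) := by
    apply Real.log_le_log (by exact_mod_cast hd0)
    exact_mod_cast hdn
  have hL : 0 ≤ Real.log ((n : ℝ) + 1) := Real.log_nonneg (by
    have : (0 : ℝ) ≤ n := by positivity
    linarith)
  have hlogd0 : 0 ≤ Real.log d := Real.log_nonneg (by exact_mod_cast hd0)
  -- B
  have hB2 : (e.choose 2 : ℝ) * ((d.totient : ℝ) * (Real.log d - 1)) ≤
      (e.choose 2 : ℝ) * Real.log (cD d) := by
    refine mul_le_mul_of_nonneg_left (le_trans ?_ hB) hch0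
    refine mul_le_mul_of_nonneg_left ?_ hφ
    linarith
  have hA2 : (d.totient : ℝ) * ∑ i ∈ range e, Real.log ((n + 1).choose (i + 1)) ≤
      (d.totient : ℝ) * ((e : ℝ) * (e + 1) / 2 * Real.log (n + 1) -
        (e : ℝ) ^ 2 / 2 * Real.log e + 5 / 4 * (e : ℝ) ^ 2) := by
    refine mul_le_mul_of_nonneg_left ?_ hφ
    have := hA
    push_cast at this ⊢
    exact this
  have hfin : ((e : ℝ) * (e + 1) / 2 * Real.log (n + 1) -
        (e : ℝ) ^ 2 / 2 * Real.log e + 5 / 4 * (e : ℝ) ^ 2) -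
        (e.choose 2 : ℝ) * (Real.log d - 1) ≤
      (e : ℝ) ^ 2 / 2 * (Real.log (n + 1) - Real.log e - Real.log d + 5) +
        e * Real.log (n + 1) := by
    rw [hch]
    have he0 : (0 : ℝ) ≤ e := by positivity
    have h5 : (e : ℝ) * Real.log d ≤ e * Real.log (n + 1) := mul_le_mul_of_nonneg_left hlogd he0
    nlinarith [sq_nonneg (e : ℝ)]
  calc (d.totient : ℝ) * ∑ i ∈ range e, Real.log ((n + 1).choose (i + 1)) -
        (e.choose 2 : ℝ) * Real.log (cD d)
      ≤ (d.totient : ℝ) * (((e : ℝ) * (e + 1) / 2 * Real.log (n + 1) -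
        (e : ℝ) ^ 2 / 2 * Real.log e + 5 / 4 * (e : ℝ) ^ 2) -
        (e.choose 2 : ℝ) * (Real.log d - 1)) := by
        have : (e.choose 2 : ℝ) * ((d.totient : ℝ) * (Real.log d - 1)) =
          (d.totient : ℝ) * ((e.choose 2 : ℝ) * (Real.log d - 1)) := by ring
        rw [this] at hB2
        rw [mul_sub]
        linarith
    _ ≤ _ := mul_le_mul_of_nonneg_left hfin hφ

/-- Reindexing of the edges. -/
private lemma edge_reindex (S : Finset ℕ) (hS1 : ∀ d ∈ S, Squarefree d)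
    (hS2 : ∀ d ∈ S, ∀ p ∈ d.primeFactors, d / p ∈ S) (G : ℕ → ℕ → ℝ) :
    ∑ d ∈ S, ∑ p ∈ nb S d, G d p = ∑ d ∈ S, ∑ p ∈ d.primeFactors, G (d / p) p := by
  rw [sum_sigma', sum_sigma']
  refine sum_nbij' (fun x => ⟨x.1 * x.2, x.2⟩) (fun x => ⟨x.1 / x.2, x.2⟩) ?_ ?_ ?_ ?_ ?_
  · rintro ⟨d, p⟩ h
    rw [mem_sigma] at h ⊢
    obtain ⟨h1, h2⟩ := h
    have hd0 : 0 < d := Nat.pos_of_ne_zero (hS1 d h1).ne_zero
    rw [mem_nb hd0] at h2
    refine ⟨h2.2.2, ?_⟩
    rw [Nat.mem_primeFactors]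
    exact ⟨h2.1, Dvd.intro_left d rfl, (hS1 _ h2.2.2).ne_zero⟩
  · rintro ⟨d, p⟩ h
    rw [mem_sigma] at h ⊢
    obtain ⟨h1, h2⟩ := h
    simp only at h1 h2 ⊢
    have h3 := hS2 d h1 p h2
    refine ⟨h3, ?_⟩
    have hd0 : 0 < d / p := Nat.pos_of_ne_zero (hS1 _ h3).ne_zero
    rw [mem_nb hd0]
    rw [Nat.mem_primeFactors] at h2
    refine ⟨h2.1, ?_, ?_⟩
    · intro hdvd
      have hsq := hS1 d h1
      have h4 : p * p ∣ d := by
        obtain ⟨k, hk⟩ := hdvd
        refine ⟨k, ?_⟩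
        have := Nat.div_mul_cancel h2.2.1
        rw [← this, hk]
        ring
      exact h2.1.one_lt.ne' (Nat.isUnit_iff.1 (hsq p h4))
    · rw [Nat.div_mul_cancel h2.2.1]
      exact h1
  · rintro ⟨d, p⟩ h
    rw [mem_sigma] at h
    obtain ⟨h1, h2⟩ := h
    have hd0 : 0 < d := Nat.pos_of_ne_zero (hS1 d h1).ne_zero
    rw [mem_nb hd0] at h2
    simp only
    rw [Nat.mul_div_cancel d h2.1.pos]
  · rintro ⟨d, p⟩ h
    rw [mem_sigma] at h
    obtain ⟨h1, h2⟩ := h
    simp only at h2 ⊢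
    rw [Nat.mem_primeFactors] at h2
    rw [Nat.div_mul_cancel h2.2.1]
  · rintro ⟨d, p⟩ h
    rw [mem_sigma] at h
    obtain ⟨h1, h2⟩ := h
    have hd0 : 0 < d := Nat.pos_of_ne_zero (hS1 d h1).ne_zero
    rw [mem_nb hd0] at h2
    simp only
    rw [Nat.mul_div_cancel d h2.1.pos]

private lemma sum_log_primeFactors {d : ℕ} (hd : Squarefree d) :
    ∑ p ∈ d.primeFactors, Real.log p = Real.log d := by
  conv_rhs => rw [← Nat.prod_primeFactors_of_squarefree hd]
  rw [Nat.cast_prod, Real.log_prod]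
  intro p hp
  have := (Nat.prime_of_mem_primeFactors hp).pos
  positivity

/-- The second square term dominates. -/
private lemma second_term (S : Finset ℕ) (e : ℕ → ℕ) (hS1 : ∀ d ∈ S, Squarefree d)
    (hS2 : ∀ d ∈ S, ∀ p ∈ d.primeFactors, d / p ∈ S) :
    ∑ d ∈ S, (d.totient : ℝ) * (e d : ℝ) ^ 2 * Real.log d ≤
      ∑ d ∈ S, ∑ p ∈ nb S d, (d.totient : ℝ) * Real.log p * (p * (e (d * p) : ℝ) ^ 2) := by
  rw [edge_reindex S hS1 hS2 (fun d p => (d.totient : ℝ) * Real.log p * (p * (e (d * p) : ℝ) ^ 2))]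
  refine sum_le_sum fun d hd => ?_
  rw [← sum_log_primeFactors (hS1 d hd), mul_sum]
  refine sum_le_sum fun p hp => ?_
  have hp' := Nat.mem_primeFactors.1 hp
  rw [Nat.div_mul_cancel hp'.2.1]
  have hlog : 0 ≤ Real.log p := Real.log_nonneg (by exact_mod_cast hp'.1.one_lt.le)
  have hcop : Nat.Coprime (d / p) p := by
    rw [Nat.coprime_comm, hp'.1.coprime_iff_not_dvd]
    intro hdvd
    have h4 : p * p ∣ d := by
      obtain ⟨k, hk⟩ := hdvd
      refine ⟨k, ?_⟩
      have := Nat.div_mul_cancel hp'.2.1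
      rw [← this, hk]
      ring
    exact hp'.1.one_lt.ne' (Nat.isUnit_iff.1 (hS1 d hd p h4))
  have htot : d.totient = (d / p).totient * (p - 1) := by
    conv_lhs => rw [← Nat.div_mul_cancel hp'.2.1]
    rw [Nat.totient_mul hcop, Nat.totient_prime hp'.1]
  have htot2 : (d.totient : ℝ) ≤ (d / p).totient * p := by
    rw [htot]
    push_cast
    refine mul_le_mul_of_nonneg_left ?_ (by positivity)
    exact_mod_cast Nat.sub_le p 1
  calc (d.totient : ℝ) * (e d : ℝ) ^ 2 * Real.log p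
      ≤ ((d / p).totient * p) * (e d : ℝ) ^ 2 * Real.log p := by
        refine mul_le_mul_of_nonneg_right ?_ hlog
        exact mul_le_mul_of_nonneg_right htot2 (by positivity)
    _ = _ := by ring

/-- The energy inequality. -/
theorem energy (n : ℕ) (S : Finset ℕ) (e : ℕ → ℕ)
    (hS1 : ∀ d ∈ S, Squarefree d)
    (hS2 : ∀ d ∈ S, ∀ p ∈ d.primeFactors, d / p ∈ S)
    (hS3 : ∀ d ∈ S, ∑ p ∈ d.primeFactors, Real.log p / (p - 1) ≤ 1)
    (hS4 : ∀ d ∈ S, d ≤ n + 1) (hS5 : ∀ d ∈ S, e d ≤ n + 1) :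
    ∑ d ∈ S, (d.totient : ℝ) * ∑ i ∈ range (e d), Real.log ((n + 1).choose (i + 1)) -
        ∑ d ∈ S, ((e d).choose 2 : ℝ) * Real.log (cD d) -
        ∑ d ∈ S, ∑ p ∈ nb S d, (e d : ℝ) * e (d * p) * (d.totient * Real.log p) ≤
      (1 / 2) * ∑ d ∈ S, (d.totient : ℝ) * (e d : ℝ) ^ 2 *
          (Real.log (n + 1) - Real.log (e d) - 2 * Real.log d - ∑ p ∈ nb S d, Real.log p / p + 5) +
        Real.log (n + 1) * ∑ d ∈ S, (d.totient : ℝ) * e d +
        (1 / 2) * ∑ d ∈ S, ∑ p ∈ nb S d,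
          (d.totient : ℝ) * (Real.log p / p) * ((e d : ℝ) - p * e (d * p)) ^ 2 := by
  have h1 : ∑ d ∈ S, (d.totient : ℝ) * ∑ i ∈ range (e d), Real.log ((n + 1).choose (i + 1)) -
        ∑ d ∈ S, ((e d).choose 2 : ℝ) * Real.log (cD d) ≤
      ∑ d ∈ S, (d.totient : ℝ) * ((e d : ℝ) ^ 2 / 2 *
        (Real.log (n + 1) - Real.log (e d) - Real.log d + 5) + e d * Real.log (n + 1)) := by
    rw [← sum_sub_distrib]
    exact sum_le_sum fun d hd => diag_bound (hS1 d hd) (hS3 d hd) (hS4 d hd) (hS5 d hd)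
  have h2 : ∑ d ∈ S, ∑ p ∈ nb S d, (e d : ℝ) * e (d * p) * (d.totient * Real.log p) =
      (1 / 2) * ∑ d ∈ S, (d.totient : ℝ) * (e d : ℝ) ^ 2 * ∑ p ∈ nb S d, Real.log p / p +
      (1 / 2) * ∑ d ∈ S, ∑ p ∈ nb S d, (d.totient : ℝ) * Real.log p * (p * (e (d * p) : ℝ) ^ 2) -
      (1 / 2) * ∑ d ∈ S, ∑ p ∈ nb S d,
          (d.totient : ℝ) * (Real.log p / p) * ((e d : ℝ) - p * e (d * p)) ^ 2 := by
    rw [mul_sum, mul_sum, mul_sum, ← sum_add_distrib, ← sum_sub_distrib]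
    refine sum_congr rfl fun d hd => ?_
    rw [mul_sum, mul_sum, mul_sum, mul_sum, ← sum_add_distrib, ← sum_sub_distrib]
    refine sum_congr rfl fun p hp => ?_
    have hd0 : 0 < d := Nat.pos_of_ne_zero (hS1 d hd).ne_zero
    have hp' : (0 : ℝ) < p := by exact_mod_cast ((mem_nb hd0).1 hp).1.pos
    field_simp
    ring
  have h3 := second_term S e hS1 hS2
  have h4 : ∑ d ∈ S, (d.totient : ℝ) * ((e d : ℝ) ^ 2 / 2 *
        (Real.log (n + 1) - Real.log (e d) - Real.log d + 5) + e d * Real.log (n + 1)) =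
      (1 / 2) * ∑ d ∈ S, (d.totient : ℝ) * (e d : ℝ) ^ 2 *
          (Real.log (n + 1) - Real.log (e d) - 2 * Real.log d - ∑ p ∈ nb S d, Real.log p / p + 5) +
        Real.log (n + 1) * ∑ d ∈ S, (d.totient : ℝ) * e d +
        (1 / 2) * ∑ d ∈ S, (d.totient : ℝ) * (e d : ℝ) ^ 2 * Real.log d +
        (1 / 2) * ∑ d ∈ S, (d.totient : ℝ) * (e d : ℝ) ^ 2 * ∑ p ∈ nb S d, Real.log p / p := by
    rw [mul_sum, mul_sum, mul_sum, mul_sum, ← sum_add_distrib, ← sum_add_distrib,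
      ← sum_add_distrib]
    refine sum_congr rfl fun d _ => ?_
    ring
  rw [h2]
  rw [h4] at h1
  linarith

end Pool.Agent.Lead.ZN
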