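import Pool.Agent.Lead.ZN.NormsA

namespace Pool.Agent.Lead.ZN

open Polynomial Finset

private lemma FL_append (i d : ℕ) (L : List ℕ) :
    FL (List.replicate i d ++ L) = cyclotomic d ℂ ^ i * FL L := by
  unfold FL
  rw [List.map_append, List.prod_append, List.map_replicate, List.prod_replicate]

private lemma hasse_pow {f G : ℂ[X]} {ω : ℂ} (hf : f.eval ω = 0) (i : ℕ) :
    (hasseDeriv i (f ^ i * G)).eval ω = (derivative f).eval ω ^ i * G.eval ω := by
  obtain ⟨Q, hQ⟩ : (X - C ω) ∣ f := dvd_iff_isRoot.2 hf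
  have h1 : (derivative f).eval ω = Q.eval ω := by
    rw [hQ, derivative_mul]
    simp
  have h2 : f ^ i * G = (X - C ω) ^ i * (Q ^ i * G) := by rw [hQ, mul_pow]; ring
  rw [h1, h2, ← taylor_coeff, taylor_mul, taylor_pow]
  have h3 : taylor ω (X - C ω) = X := by
    rw [map_sub, taylor_X, taylor_C]; ring
  rw [h3]
  have h4 : (X ^ i * taylor ω (Q ^ i * G) : ℂ[X]).coeff i = (taylor ω (Q ^ i * G)).coeff 0 := by
    have := coeff_X_pow_mul (taylor ω (Q ^ i * G)) i 0
    rwa [zero_add] at this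
  rw [h4, taylor_coeff_zero, eval_mul, eval_pow]

private lemma prod_FL {d : ℕ} (L : List ℕ) :
    ∏ ω ∈ primitiveRoots d ℂ, ‖(FL L).eval ω‖ = (L.map fun d' => cN d d').prod := by
  induction L with
  | nil => simp [FL]
  | cons a L ih =>
    have h1 : ∀ ω : ℂ, ‖(FL (a :: L)).eval ω‖ = ‖(cyclotomic a ℂ).eval ω‖ * ‖(FL L).eval ω‖ := by
      intro ω
      simp [FL]
    rw [Finset.prod_congr rfl (fun ω _ => h1 ω), Finset.prod_mul_distrib, ih]
    simp [cN]

/-- one stage: `d ∉ L` -/
theorem stage_new {L : List ℕ} {d : ℕ} (hd : 0 < d) (h : d ∉ L) (i : ℕ) :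
    ∏ ω ∈ primitiveRoots d ℂ,
        ‖(hasseDeriv ((List.replicate i d ++ L).count d) (FL (List.replicate i d ++ L))).eval ω‖ =
      cD d ^ i * (L.map fun d' => cN d d').prod := by
  have hc : (List.replicate i d ++ L).count d = i := by
    rw [List.count_append, List.count_replicate_self, List.count_eq_zero_of_not_mem h, add_zero]
  rw [hc, FL_append]
  have h1 : ∀ ω ∈ primitiveRoots d ℂ, ‖(hasseDeriv i (cyclotomic d ℂ ^ i * FL L)).eval ω‖ =
      ‖(derivative (cyclotomic d ℂ)).eval ω‖ ^ i * ‖(FL L).eval ω‖ := by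
    intro ω hω
    have h2 : (cyclotomic d ℂ).eval ω = 0 :=
      (isRoot_cyclotomic_iff_charZero hd).2 ((mem_primitiveRoots hd).1 hω)
    rw [hasse_pow h2, norm_mul, norm_pow]
  rw [Finset.prod_congr rfl h1, Finset.prod_mul_distrib, Finset.prod_pow, prod_FL]
  rfl

theorem stageNorm_replicate {L : List ℕ} {d : ℕ} (hd : 0 < d) (h : d ∉ L) (e : ℕ) :
    stageNorm (List.replicate e d ++ L) =
      stageNorm L * cD d ^ (e.choose 2) * (L.map fun d' => cN d d').prod ^ e := by
  induction e with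
  | zero => simp
  | succ e ih =>
    rw [List.replicate_succ, List.cons_append]
    change stageNorm (List.replicate e d ++ L) *
      ∏ ω ∈ primitiveRoots d ℂ, ‖(hasseDeriv ((List.replicate e d ++ L).count d) (FL (List.replicate e d ++ L))).eval ω‖ = _
    rw [ih, stage_new hd h e, Nat.choose_succ_succ' e 1, Nat.choose_one_right, pow_add, pow_succ]
    ring

end Pool.Agent.Lead.ZN
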