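import Pool.Agent.Lead.ZN.ResidueA
import Pool.Agent.Lead.ZN.NormsB

namespace Pool.Agent.Lead.ZN

open Polynomial Finset

private noncomputable def resB_nb (S : Finset ℕ) (d : ℕ) : Finset ℕ :=
  (range (S.sup id + 1)).filter fun p => p.Prime ∧ ¬ p ∣ d ∧ d * p ∈ S

private lemma resB_mem {S : Finset ℕ} {d p : ℕ} (hd : 0 < d) :
    p ∈ resB_nb S d ↔ p.Prime ∧ ¬ p ∣ d ∧ d * p ∈ S := by
  unfold resB_nb
  rw [mem_filter, mem_range]
  constructor
  · exact fun h => h.2
  · intro h
    refine ⟨?_, h⟩
    have h1 : d * p ≤ S.sup id := Finset.le_sup (f := id) h.2.2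
    have h2 : p ≤ d * p := Nat.le_mul_of_pos_left p hd
    omega

private lemma resB_list (e : ℕ → ℕ) (S : Finset ℕ) : (∀ d ∈ S, 0 < d) →
    ∃ L : List ℕ, (∀ d ∈ L, d ∈ S) ∧ degL L = ∑ d ∈ S, e d * d.totient ∧
      (∀ B : ℕ → ℝ, rowProd B L = ∏ d ∈ S, (∏ i ∈ range (e d), B i) ^ d.totient) ∧
      (L.map fun d => cyclotomic d ℤ).prod = ∏ d ∈ S, cyclotomic d ℤ ^ e d ∧
      (∀ g : ℕ → ℝ, (L.map g).prod = ∏ d ∈ S, g d ^ e d) ∧
      0 < stageNorm L ∧
      ∑ d ∈ S, ((e d).choose 2 : ℝ) * Real.log (cD d) +
        ∑ d ∈ S, ∑ p ∈ resB_nb S d, (e d : ℝ) * e (d * p) * (d.totient * Real.log p) ≤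
        Real.log (stageNorm L) := by
  classical
  induction S using Finset.induction_on_min with
  | empty =>
    intro _
    exact ⟨[], by simp, by simp [degL], by simp [rowProd], by simp, by simp, by simp [stageNorm],
      by simp [stageNorm]⟩
  | insert a s has ih =>
    intro hpos
    have ha : 0 < a := hpos a (mem_insert_self _ _)
    have hs : ∀ d ∈ s, 0 < d := fun d hd => hpos d (mem_insert_of_mem hd)
    obtain ⟨L, h1, h2, h3, h4, h5, h6, h7⟩ := ih hs
    have has' : a ∉ s := fun h => lt_irrefl _ (has a h)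
    have haL : a ∉ L := fun h => has' (h1 a h)
    have hrow : ∀ (B : ℕ → ℝ) (k : ℕ), rowProd B (List.replicate k a ++ L) =
        (∏ i ∈ range k, B i) ^ a.totient * rowProd B L := by
      intro B k
      induction k with
      | zero => simp
      | succ k ih =>
        rw [List.replicate_succ, List.cons_append, rowProd, ih, List.count_append,
          List.count_replicate_self, List.count_eq_zero_of_not_mem haL, add_zero,
          Finset.prod_range_succ, mul_pow]
        ring
    refine ⟨List.replicate (e a) a ++ L, ?_, ?_, ?_, ?_, ?_, ?_, ?_⟩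
    · intro d hd
      rw [List.mem_append] at hd
      rcases hd with hd | hd
      · rw [List.eq_of_mem_replicate hd]
        exact mem_insert_self _ _
      · exact mem_insert_of_mem (h1 d hd)
    · rw [Finset.sum_insert has', ← h2]
      simp [degL]
    · intro B
      rw [hrow, Finset.prod_insert has', h3]
    · rw [Finset.prod_insert has', ← h4]
      simp
    · intro g
      rw [Finset.prod_insert has', ← h5]
      simp
    · rw [stageNorm_replicate ha haL, h5]
      have hc1 := one_le_cD ha
      have hc2 : 0 < ∏ d ∈ s, cN a d ^ e d := by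
        apply Finset.prod_pos
        intro d hd
        have := one_le_cN ha (hs d hd) (has d hd).ne
        positivity
      positivity
    · rw [stageNorm_replicate ha haL, h5]
      have hc1 := one_le_cD ha
      have hcN : ∀ d ∈ s, 1 ≤ cN a d := fun d hd => one_le_cN ha (hs d hd) (has d hd).ne
      have hc2 : 0 < ∏ d ∈ s, cN a d ^ e d := by
        apply Finset.prod_pos
        intro d hd
        have := hcN d hd
        positivity
      have hcD0 : 0 < cD a := by linarith
      rw [Real.log_mul (by positivity) (by positivity), Real.log_mul (by positivity) (by positivity),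
        Real.log_pow, Real.log_pow, Real.log_prod (fun d hd => by
          have := hcN d hd
          positivity)]
      rw [Finset.sum_insert has', Finset.sum_insert has']
      have e1 : ∑ d ∈ s, ∑ p ∈ resB_nb (insert a s) d,
          (e d : ℝ) * e (d * p) * (d.totient * Real.log p) =
          ∑ d ∈ s, ∑ p ∈ resB_nb s d, (e d : ℝ) * e (d * p) * (d.totient * Real.log p) := by
        apply Finset.sum_congr rfl
        intro d hd
        apply Finset.sum_congr _ (fun _ _ => rfl)
        ext p
        rw [resB_mem (hs d hd), resB_mem (hs d hd), mem_insert]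
        constructor
        · rintro ⟨hp, hpd, h | h⟩
          · exfalso
            have h8 := has d hd
            have h9 : d ≤ d * p := Nat.le_mul_of_pos_right d hp.pos
            omega
          · exact ⟨hp, hpd, h⟩
        · rintro ⟨hp, hpd, h⟩
          exact ⟨hp, hpd, Or.inr h⟩
      rw [e1]
      have e2 : ∑ p ∈ resB_nb (insert a s) a, (e a : ℝ) * e (a * p) * (a.totient * Real.log p) ≤
          (e a : ℝ) * ∑ d ∈ s, Real.log (cN a d ^ e d) := by
        have hmem : ∀ p ∈ resB_nb (insert a s) a, p.Prime ∧ ¬ p ∣ a ∧ a * p ∈ s := by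
          intro p hp
          rw [resB_mem ha, mem_insert] at hp
          obtain ⟨hp1, hp2, hp3⟩ := hp
          refine ⟨hp1, hp2, ?_⟩
          rcases hp3 with h | h
          · exfalso
            have : a * p = a * 1 := by rw [mul_one]; exact h
            have := Nat.eq_of_mul_eq_mul_left ha this
            exact hp1.one_lt.ne' this
          · exact h
        have e3 : ∑ p ∈ resB_nb (insert a s) a, (e a : ℝ) * e (a * p) * (a.totient * Real.log p) =
            ∑ p ∈ resB_nb (insert a s) a, (e a : ℝ) * Real.log (cN a (a * p) ^ e (a * p)) := by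
          apply Finset.sum_congr rfl
          intro p hp
          obtain ⟨hp1, hp2, hp3⟩ := hmem p hp
          rw [cN_mul_prime ha hp1 hp2, Real.log_pow, Real.log_pow]
          ring
        rw [e3, ← Finset.mul_sum]
        apply mul_le_mul_of_nonneg_left _ (Nat.cast_nonneg _)
        have hinj : Set.InjOn (fun p => a * p) (resB_nb (insert a s) a : Set ℕ) := by
          intro x _ y _ hxy
          exact Nat.eq_of_mul_eq_mul_left ha hxy
        rw [← Finset.sum_image (f := fun d => Real.log (cN a d ^ e d)) hinj]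
        apply Finset.sum_le_sum_of_subset_of_nonneg
        · intro x hx
          rw [mem_image] at hx
          obtain ⟨p, hp, rfl⟩ := hx
          exact (hmem p hp).2.2
        · intro d hd _
          exact Real.log_nonneg (one_le_pow₀ (hcN d hd))
      linarith

/-- The version with a finite set `S` and multiplicities `e`. -/
theorem exists_poly (n : ℕ) (S : Finset ℕ) (e : ℕ → ℕ) (hS : ∀ d ∈ S, 0 < d)
    (hdeg : ∑ d ∈ S, e d * d.totient ≤ n + 1)
    (h : (∑ d ∈ S, e d * d.totient : ℕ) * Real.log 8 +
        ∑ d ∈ S, d.totient * ∑ i ∈ range (e d), Real.log ((n + 1).choose (i + 1)) -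
        ∑ d ∈ S, ((e d).choose 2 : ℝ) * Real.log (cD d) -
        ∑ d ∈ S, ∑ p ∈ (range (S.sup id + 1)).filter (fun p => p.Prime ∧ ¬ p ∣ d ∧ d * p ∈ S),
          (e d : ℝ) * e (d * p) * (d.totient * Real.log p) < (n + 1) * Real.log 2) :
    ∃ p : ℤ[X], p ≠ 0 ∧ p.natDegree ≤ n ∧ (∀ i, p.coeff i = -1 ∨ p.coeff i = 0 ∨ p.coeff i = 1) ∧
      (∏ d ∈ S, cyclotomic d ℤ ^ e d) ∣ p := by
  classical
  obtain ⟨L, h1, h2, h3, h4, h5, h6, h7⟩ := resB_list e S hS
  have hpos : ∀ d ∈ S, ∀ i ∈ range (e d), (0 : ℝ) < ((n + 1).choose (i + 1) : ℝ) := by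
    intro d hd i hi
    have hi' := mem_range.mp hi
    have ht : 0 < d.totient := Nat.totient_pos.mpr (hS d hd)
    have h8 : e d ≤ e d * d.totient := Nat.le_mul_of_pos_right _ ht
    have h9 : e d * d.totient ≤ ∑ d ∈ S, e d * d.totient :=
      Finset.single_le_sum (f := fun d => e d * d.totient) (fun _ _ => Nat.zero_le _) hd
    have h10 : 0 < (n + 1).choose (i + 1) := Nat.choose_pos (by omega)
    exact_mod_cast h10
  have hrpos : 0 < rowProd (fun i => ((n + 1).choose (i + 1) : ℝ)) L := by
    rw [h3]
    apply Finset.prod_pos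
    intro d hd
    apply pow_pos
    exact Finset.prod_pos (hpos d hd)
  have hlog : Real.log (rowProd (fun i => ((n + 1).choose (i + 1) : ℝ)) L) =
      ∑ d ∈ S, d.totient * ∑ i ∈ range (e d), Real.log ((n + 1).choose (i + 1)) := by
    rw [h3, Real.log_prod (fun d hd => (pow_pos (Finset.prod_pos (hpos d hd)) _).ne')]
    apply Finset.sum_congr rfl
    intro d hd
    rw [Real.log_pow, Real.log_prod (fun i hi => (hpos d hd i hi).ne')]
  obtain ⟨p, hp1, hp2, hp3, hp4⟩ := pigeonhole n L (fun d hd => hS d (h1 d hd))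
    (h2 ▸ hdeg) (by
      rw [← Real.log_lt_log_iff (by positivity) (by positivity),
        Real.log_mul (by positivity) hrpos.ne', Real.log_mul (by positivity) h6.ne',
        Real.log_pow, Real.log_pow, hlog, h2]
      unfold resB_nb at h7
      push_cast at h ⊢
      linarith)
  refine ⟨p, hp1, hp2, hp3, ?_⟩
  rw [← h4]
  exact hp4

end Pool.Agent.Lead.ZN
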