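import Pool.Agent.Lead.ZN.Bound
import Pool.Agent.Lead.ZN.ResidueB

namespace Pool.Agent.Lead.ZN

open Polynomial

private theorem final_event (A : ℝ) : ∃ n₀ : ℕ, ∀ n : ℕ, n₀ ≤ n →
    1 ≤ n ∧ 16 ≤ Real.log (Real.log n) ∧
      4 * Real.log (Real.log n) + A ≤ Real.sqrt (Real.log n) / 2 := by
  have h1 : ∀ᶠ y : ℝ in Filter.atTop, 4 * Real.log y + A ≤ Real.sqrt y / 2 := by
    have a1 := (isLittleO_log_rpow_atTop (by norm_num : (0 : ℝ) < 1 / 2)).bound
      (by norm_num : (0 : ℝ) < 1 / 16)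
    have a2 : ∀ᶠ y : ℝ in Filter.atTop, 4 * A ≤ Real.sqrt y :=
      Real.tendsto_sqrt_atTop.eventually (Filter.eventually_ge_atTop _)
    have a3 : ∀ᶠ y : ℝ in Filter.atTop, (0 : ℝ) ≤ y := Filter.eventually_ge_atTop 0
    filter_upwards [a1, a2, a3] with y b1 b2 b3
    rw [Real.norm_eq_abs, Real.norm_eq_abs, ← Real.sqrt_eq_rpow,
      abs_of_nonneg (Real.sqrt_nonneg y)] at b1
    have := le_abs_self (Real.log y)
    linarith
  have h2 : ∀ᶠ y : ℝ in Filter.atTop, 16 ≤ Real.log y :=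
    Real.tendsto_log_atTop.eventually (Filter.eventually_ge_atTop _)
  have h3 := (Real.tendsto_log_atTop.comp tendsto_natCast_atTop_atTop).eventually (h1.and h2)
  obtain ⟨n₀, hn₀⟩ := Filter.eventually_atTop.1 (h3.and (Filter.eventually_ge_atTop 1))
  exact ⟨n₀, fun n hn => ⟨(hn₀ n hn).2, (hn₀ n hn).1.2, (hn₀ n hn).1.1⟩⟩

set_option maxHeartbeats 4000000 in
private theorem final_params {C : ℝ} (hC : 1 ≤ C) : ∃ n₀ : ℕ, ∀ n : ℕ, n₀ ≤ n → ∃ D r k : ℕ,
    2 ≤ D ∧ 2 ≤ r ∧ 1 ≤ lam D r ∧ 4 * Real.log D ≤ Real.exp (lam D r) ∧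
    (D : ℝ) * Real.log D ≤ k ∧ k ^ 2 ≤ n + 1 ∧
    Real.log (((n : ℝ) + 1) / (k * D)) ≤ lam D r ∧ Real.log (n + 1) ≤ 4 * Real.log D ∧
    (2 : ℝ) ^ (2 * r) ≤ Real.log D ∧
    C * (k : ℝ) ^ 2 * Real.log D / r < (n + 1) * Real.log 2 ∧
    1 / (8 * C) * Real.sqrt (n * Real.log (Real.log n) / Real.log n) ≤ k := by
  obtain ⟨a, ha⟩ : ∃ a, a = Real.log (4 * C) := ⟨_, rfl⟩
  have ha0 : 0 ≤ a := by
    rw [ha]
    apply Real.log_nonneg
    linarith
  obtain ⟨n₀, hn₀⟩ := final_event (2 * a + 10)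
  refine ⟨n₀, fun n hn => ?_⟩
  obtain ⟨hn1, hLL, hE⟩ := hn₀ n hn
  have hn0 : (0 : ℝ) < n := by exact_mod_cast hn1
  obtain ⟨L, hL⟩ : ∃ L, L = Real.log n := ⟨_, rfl⟩
  rw [← hL] at hLL hE
  obtain ⟨M, hM⟩ : ∃ M, M = Real.log L := ⟨_, rfl⟩
  rw [← hM] at hLL hE
  have hl2 : 0.6931471803 < Real.log 2 := Real.log_two_gt_d9
  have hl2' : Real.log 2 < 0.6931471808 := Real.log_two_lt_d9
  -- consequences of the size of `L`
  have hL0 : 0 < L := by
    by_contra h
    push Not at h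
    have hs : Real.sqrt L = 0 := Real.sqrt_eq_zero_of_nonpos h
    rw [hs] at hE
    linarith
  have hsq : Real.sqrt L * Real.sqrt L = L := Real.mul_self_sqrt hL0.le
  have hB : 40 * (4 * M + (2 * a + 10)) ≤ L := by
    have h1 : 2 * (4 * M + (2 * a + 10)) ≤ Real.sqrt L := by linarith
    have h2 : 0 ≤ 4 * M + (2 * a + 10) := by linarith
    have h3 : 40 ≤ Real.sqrt L := by linarith
    calc 40 * (4 * M + (2 * a + 10)) ≤ Real.sqrt L * (4 * M + (2 * a + 10)) :=
          mul_le_mul_of_nonneg_right h3 h2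
      _ ≤ Real.sqrt L * Real.sqrt L :=
          mul_le_mul_of_nonneg_left (by linarith) (Real.sqrt_nonneg L)
      _ = L := hsq
  have hML : M ≤ L := by linarith
  have hlogM : 0 ≤ Real.log M := Real.log_nonneg (by linarith)
  have hexpL : Real.exp L = n := by rw [hL, Real.exp_log hn0]
  have hexpM : Real.exp M = L := by rw [hM, Real.exp_log hL0]
  have hC0 : 0 < C := by linarith
  have hM0 : 0 < M := by linarith
  -- `x` and `k`
  obtain ⟨x, hx⟩ : ∃ x, x = Real.sqrt (n * M / L) := ⟨_, rfl⟩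
  have hx2 : x ^ 2 = n * M / L := by rw [hx, Real.sq_sqrt (by positivity)]
  have hx0 : 0 < x := by rw [hx]; exact Real.sqrt_pos.2 (by positivity)
  obtain ⟨y, hy⟩ : ∃ y, y = x / (4 * C) := ⟨_, rfl⟩
  have hy0 : 0 < y := by rw [hy]; positivity
  have hlogy : (L - M) / 2 - a ≤ Real.log y := by
    rw [hy, Real.log_div hx0.ne' (by positivity), ← ha, hx, Real.log_sqrt (by positivity),
      Real.log_div (by positivity) hL0.ne', Real.log_mul hn0.ne' hM0.ne', ← hL, ← hM]
    linarith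
  have hy2 : 2 ≤ y := by
    rw [← Real.log_le_log_iff (by norm_num) hy0]
    linarith
  obtain ⟨k, hk⟩ : ∃ k, k = ⌊y⌋₊ := ⟨_, rfl⟩
  have hky : (k : ℝ) ≤ y := by rw [hk]; exact Nat.floor_le hy0.le
  have hyk : y / 2 ≤ k := by
    have := Nat.lt_floor_add_one y
    rw [← hk] at this
    linarith
  have hk0 : (0 : ℝ) < k := by linarith
  have hk1 : (1 : ℝ) ≤ k := by linarith
  have hlogk : (L - M) / 2 - a - Real.log 2 ≤ Real.log k := by
    have h1 : Real.log (y / 2) ≤ Real.log k := Real.log_le_log (by positivity) hyk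
    rw [Real.log_div hy0.ne' (by norm_num)] at h1
    linarith
  have hk2 : (k : ℝ) ^ 2 ≤ n * M / L / (4 * C) ^ 2 := by
    calc (k : ℝ) ^ 2 ≤ y ^ 2 := pow_le_pow_left₀ hk0.le hky 2
      _ = _ := by rw [hy, div_pow, hx2]
  have hk2' : (k : ℝ) ^ 2 ≤ n := by
    refine hk2.trans ?_
    rw [div_div, div_le_iff₀ (by positivity)]
    have h1 : (1 : ℝ) ≤ (4 * C) ^ 2 := one_le_pow₀ (by linarith)
    have h2 : M ≤ L * (4 * C) ^ 2 := hML.trans (le_mul_of_one_le_right hL0.le h1)
    exact mul_le_mul_of_nonneg_left h2 hn0.le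
  have hkn : (k : ℝ) ≤ n := by
    refine le_trans ?_ hk2'
    rw [sq]
    exact le_mul_of_one_le_left hk0.le hk1
  have hlogkL : Real.log k ≤ L := by
    rw [hL]
    exact Real.log_le_log hk0 hkn
  have hlogk1 : 1 ≤ Real.log k := by linarith
  have hlogk0 : 0 < Real.log k := by linarith
  have hloglogk : Real.log (Real.log k) ≤ M := by
    rw [hM]
    exact Real.log_le_log hlogk0 hlogkL
  -- `D`
  obtain ⟨z, hz⟩ : ∃ z, z = (k : ℝ) / Real.log k := ⟨_, rfl⟩
  have hz0 : 0 < z := by rw [hz]; positivity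
  have hlogz : Real.log z = Real.log k - Real.log (Real.log k) := by
    rw [hz, Real.log_div hk0.ne' hlogk0.ne']
  have hz2 : 2 ≤ z := by
    rw [← Real.log_le_log_iff (by norm_num) hz0, hlogz]
    linarith
  obtain ⟨D, hD⟩ : ∃ D, D = ⌊z⌋₊ := ⟨_, rfl⟩
  have hD2 : 2 ≤ D := by
    rw [hD]
    exact Nat.le_floor (by exact_mod_cast hz2)
  have hDz : (D : ℝ) ≤ z := by rw [hD]; exact Nat.floor_le hz0.le
  have hzD : z / 2 ≤ D := by
    have := Nat.lt_floor_add_one z
    rw [← hD] at this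
    linarith
  have hD0 : (0 : ℝ) < D := by linarith
  have hlogD : Real.log k - M - Real.log 2 ≤ Real.log D := by
    have h1 : Real.log (z / 2) ≤ Real.log D := Real.log_le_log (by positivity) hzD
    rw [Real.log_div hz0.ne' (by norm_num), hlogz] at h1
    linarith
  have hDk : (D : ℝ) ≤ k := by
    refine hDz.trans ?_
    rw [hz]
    exact div_le_self hk0.le hlogk1
  have hlogDk : Real.log D ≤ Real.log k := Real.log_le_log hD0 hDk
  have hlogDL : Real.log D ≤ L := hlogDk.trans hlogkL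
  have hlogD4 : L / 4 + Real.log 2 / 4 ≤ Real.log D := by linarith
  have hlogD0 : 0 < Real.log D := by linarith
  -- `r`
  obtain ⟨w, hw⟩ : ∃ w, w = Real.log (Real.log D) / (2 * Real.log 2) := ⟨_, rfl⟩
  have hloglogD : M - 2 * Real.log 2 ≤ Real.log (Real.log D) := by
    have h1 : Real.log (L / 4) ≤ Real.log (Real.log D) :=
      Real.log_le_log (by positivity) (by linarith)
    rw [Real.log_div hL0.ne' (by norm_num), ← hM] at h1
    have h2 : Real.log 4 = 2 * Real.log 2 := by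
      rw [show (4 : ℝ) = 2 ^ 2 by norm_num, Real.log_pow]
      norm_num
    linarith
  have hwlow : M / (2 * Real.log 2) - 1 ≤ w := by
    rw [hw, div_sub_one (by positivity)]
    exact div_le_div_of_nonneg_right hloglogD (by positivity)
  have hMl : 0.72 * M ≤ M / (2 * Real.log 2) := by
    rw [le_div_iff₀ (by positivity)]
    have h1 : 0.72 * (2 * Real.log 2) ≤ 1 := by linarith only [hl2']
    calc 0.72 * M * (2 * Real.log 2) = M * (0.72 * (2 * Real.log 2)) := by ring
      _ ≤ M * 1 := mul_le_mul_of_nonneg_left h1 hM0.le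
      _ = M := mul_one M
  have hw0 : 0 ≤ w := by linarith
  obtain ⟨r, hr⟩ : ∃ r, r = ⌊w⌋₊ := ⟨_, rfl⟩
  have hrw : (r : ℝ) ≤ w := by rw [hr]; exact Nat.floor_le hw0
  have hwr : w - 1 ≤ r := by
    have := Nat.lt_floor_add_one w
    rw [← hr] at this
    linarith
  have hrM : M / 4 ≤ r := by linarith
  have hr2 : 2 ≤ r := by
    have : (2 : ℝ) ≤ r := by linarith
    exact_mod_cast this
  have hr0 : (0 : ℝ) < r := by linarith
  have h2r : (2 : ℝ) ^ (2 * r) ≤ Real.log D := by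
    have h1 : (2 : ℝ) ^ (2 * r) = Real.exp (2 * r * Real.log 2) := by
      rw [← Real.exp_log (show (0 : ℝ) < 2 ^ (2 * r) by positivity), Real.log_pow]
      push_cast
      rfl
    rw [h1]
    calc Real.exp (2 * r * Real.log 2) ≤ Real.exp (Real.log (Real.log D)) := by
          apply Real.exp_le_exp.2
          have h2 : (r : ℝ) * (2 * Real.log 2) ≤ w * (2 * Real.log 2) :=
            mul_le_mul_of_nonneg_right hrw (by positivity)
          have h3 : w * (2 * Real.log 2) = Real.log (Real.log D) := by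
            rw [hw]
            field_simp
          linarith
      _ = Real.log D := Real.exp_log hlogD0
  have hlam : Real.sqrt L / 2 ≤ lam D r := by
    unfold lam
    have h3 : (0 : ℝ) < 2 ^ r := by positivity
    refine (sq_le_sq₀ (by positivity) (by positivity)).1 ?_
    rw [div_pow, div_pow, Real.sq_sqrt hL0.le, ← pow_mul, mul_comm r 2,
      div_le_div_iff₀ (by norm_num) (by positivity)]
    have h4 : L ≤ 4 * Real.log D := by linarith
    calc L * 2 ^ (2 * r) ≤ (4 * Real.log D) * Real.log D :=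
          mul_le_mul h4 h2r (by positivity) (by positivity)
      _ = _ := by ring
  have hn2 : Real.log ((n : ℝ) + 1) ≤ L + Real.log 2 := by
    rw [hL, ← Real.log_mul hn0.ne' (by norm_num)]
    apply Real.log_le_log (by positivity)
    have : (1 : ℝ) ≤ n := by exact_mod_cast hn1
    linarith
  refine ⟨D, r, k, hD2, hr2, by linarith, ?_, ?_, ?_, ?_, by linarith, h2r, ?_, ?_⟩
  · have h4 : Real.log 4 = 2 * Real.log 2 := by
      rw [show (4 : ℝ) = 2 ^ 2 by norm_num, Real.log_pow]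
      norm_num
    calc 4 * Real.log D ≤ 4 * L := by linarith
      _ = Real.exp (Real.log 4 + M) := by
          rw [Real.exp_add, Real.exp_log (by norm_num), hexpM]
      _ ≤ Real.exp (lam D r) := by
          apply Real.exp_le_exp.2
          linarith
  · calc (D : ℝ) * Real.log D ≤ z * Real.log k := mul_le_mul hDz hlogDk hlogD0.le hz0.le
      _ = k := by
          rw [hz]
          field_simp
  · have : (k : ℝ) ^ 2 ≤ n + 1 := by linarith
    exact_mod_cast this
  · rw [Real.log_div (by positivity) (by positivity), Real.log_mul hk0.ne' hD0.ne']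
    linarith
  · have hn' : 0 < (n : ℝ) := hn0
    calc C * (k : ℝ) ^ 2 * Real.log D / r
        ≤ C * (n * M / L / (4 * C) ^ 2) * L / (M / 4) := by
          apply div_le_div₀ (by positivity) _ (by positivity) hrM
          apply mul_le_mul _ hlogDL hlogD0.le (by positivity)
          exact mul_le_mul_of_nonneg_left hk2 hC0.le
      _ = n / (4 * C) := by
          field_simp
      _ ≤ n / 4 := by
          apply div_le_div_of_nonneg_left hn'.le (by norm_num)
          linarith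
      _ < (n + 1) * Real.log 2 := by
          have h1 : (n : ℝ) * (1 / 4) ≤ n * Real.log 2 :=
            mul_le_mul_of_nonneg_left (by linarith only [hl2]) hn'.le
          linarith
  · rw [← hL, ← hM, ← hx]
    have : 1 / (8 * C) * x = y / 2 := by
      rw [hy, div_div, one_div_mul_eq_div]
      congr 1
      ring
    rw [this]
    exact hyk

set_option maxHeartbeats 4000000 in
theorem main : ∃ c : ℝ, 0 < c ∧ ∃ n₀ : ℕ, ∀ n : ℕ, n₀ ≤ n →
    ∃ p : ℤ[X], p ≠ 0 ∧ p.natDegree ≤ n ∧ (∀ i, p.coeff i = -1 ∨ p.coeff i = 0 ∨ p.coeff i = 1) ∧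
      c * Real.sqrt (n * Real.log (Real.log n) / Real.log n) ≤ (p.rootMultiplicity 1 : ℝ) := by
  obtain ⟨C, hC, hb⟩ := total_bound
  obtain ⟨n₀, hn₀⟩ := final_params hC
  refine ⟨1 / (8 * C), by positivity, n₀, fun n hn => ?_⟩
  obtain ⟨D, r, k, h1, h2, h3, h4, h5, h6, h7, h8, h9, h10, h11⟩ := hn₀ n hn
  have hbd := hb n D r k h1 h2 h3 h4 h5 h6 h7 h8 h9
  have hdeg := total_degree (n := n) h1 h2 h3 h5 h6
  have hS : ∀ d ∈ SD D r 0, 0 < d := fun d hd =>
    (Finset.mem_Icc.1 (Finset.mem_filter.1 hd).1).1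
  obtain ⟨p, hp0, hpn, hpc, hpd⟩ := exists_poly n (SD D r 0) (mul D r k) hS hdeg
    (lt_of_le_of_lt hbd h10)
  refine ⟨p, hp0, hpn, hpc, h11.trans ?_⟩
  have hmem : 1 ∈ SD D r 0 := by
    unfold SD
    refine Finset.mem_filter.2 ⟨Finset.mem_Icc.2 ⟨le_rfl, by omega⟩, squarefree_one, ?_⟩
    intro q hq
    simp at hq
  have hmul : mul D r k 1 = k := by
    unfold mul
    rw [wt_one D r (by omega), mul_one, Nat.cast_one, div_one, Nat.floor_natCast]
  have hdvd : (X - Polynomial.C (1 : ℤ)) ^ k ∣ p := by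
    refine dvd_trans ?_ hpd
    have := Finset.dvd_prod_of_mem (fun d => cyclotomic d ℤ ^ mul D r k d) hmem
    simp only [hmul, cyclotomic_one] at this
    rwa [map_one]
  exact_mod_cast (le_rootMultiplicity_iff hp0).2 hdvd

end Pool.Agent.Lead.ZN
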