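import Pool.Agent.Lead.ZN.Defs

namespace Pool.Agent.Lead.ZN

open Polynomial Finset

private lemma int_prod {d : ℕ} (hd : 0 < d) (g : ℤ[X]) :
    ∃ z : ℤ, ∏ ω ∈ primitiveRoots d ℂ, (g.map (Int.castRingHom ℂ)).eval ω = (z : ℂ) := by
  have : NeZero d := ⟨hd.ne'⟩
  have hζ := Complex.isPrimitiveRoot_exp d hd.ne'
  refine ⟨resultant (cyclotomic d ℤ) g (cyclotomic d ℤ).natDegree g.natDegree, ?_⟩
  have h1 := resultant_map_map (cyclotomic d ℤ) g (cyclotomic d ℤ).natDegree g.natDegree
    (Int.castRingHom ℂ)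
  rw [map_cyclotomic_int] at h1
  have h2 : (cyclotomic d ℤ).natDegree = (cyclotomic d ℂ).natDegree := by
    rw [natDegree_cyclotomic, natDegree_cyclotomic]
  rw [h2] at h1 ⊢
  have h3 := resultant_eq_prod_eval (cyclotomic d ℂ) (g.map (Int.castRingHom ℂ)) g.natDegree
    natDegree_map_le (IsAlgClosed.splits _)
  rw [(cyclotomic.monic d ℂ).leadingCoeff, one_pow, one_mul,
    cyclotomic.roots_eq_primitiveRoots_val] at h3
  rw [h1] at h3
  simp only [eq_intCast] at h3
  rw [h3]
  rfl

private lemma one_le_of_int {s : Finset ℂ} {f : ℂ → ℂ} {z : ℤ} (h : ∏ ω ∈ s, f ω = (z : ℂ))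
    (hf : ∀ ω ∈ s, f ω ≠ 0) : 1 ≤ ∏ ω ∈ s, ‖f ω‖ := by
  have h1 : ∏ ω ∈ s, ‖f ω‖ = ‖(z : ℂ)‖ := by rw [← h, norm_prod]
  have h2 : (z : ℂ) ≠ 0 := by rw [← h]; exact Finset.prod_ne_zero_iff.2 hf
  have h3 : z ≠ 0 := by rintro rfl; simp at h2
  rw [h1, Complex.norm_intCast]
  have := Int.one_le_abs h3
  exact_mod_cast this

theorem one_le_cN {d d' : ℕ} (hd : 0 < d) (hd' : 0 < d') (h : d ≠ d') : 1 ≤ cN d d' := by
  obtain ⟨z, hz⟩ := int_prod hd (cyclotomic d' ℤ)
  rw [map_cyclotomic_int] at hz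
  refine one_le_of_int hz ?_
  intro ω hω h0
  have h1 : IsPrimitiveRoot ω d := (mem_primitiveRoots hd).1 hω
  have h2 : IsPrimitiveRoot ω d' := (isRoot_cyclotomic_iff_charZero hd').1 h0
  exact h (h1.unique h2)

private lemma deriv_ne_zero {d : ℕ} (hd : 0 < d) {ω : ℂ} (hω : ω ∈ primitiveRoots d ℂ) :
    (derivative (cyclotomic d ℂ)).eval ω ≠ 0 := by
  have : NeZero (d : ℂ) := ⟨by exact_mod_cast hd.ne'⟩
  have h1 : IsPrimitiveRoot ω d := (mem_primitiveRoots hd).1 hω
  have h2 : (cyclotomic d ℂ).Separable := separable_cyclotomic d ℂ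
  have h3 : (cyclotomic d ℂ).eval₂ (RingHom.id ℂ) ω = 0 := by
    have : IsRoot (cyclotomic d ℂ) ω := (isRoot_cyclotomic_iff_charZero hd).2 h1
    simpa using this
  have h4 := h2.eval₂_derivative_ne_zero (RingHom.id ℂ) h3
  simpa using h4

theorem one_le_cD {d : ℕ} (hd : 0 < d) : 1 ≤ cD d := by
  obtain ⟨z, hz⟩ := int_prod hd (derivative (cyclotomic d ℤ))
  rw [← derivative_map, map_cyclotomic_int] at hz
  exact one_le_of_int hz (fun ω hω => deriv_ne_zero hd hω)

private lemma pow_inj {d p : ℕ} (hp : p.Coprime d) {a b : ℂ} (ha : a ^ d = 1) (hb : b ^ d = 1)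
    (hb0 : b ≠ 0) (h : a ^ p = b ^ p) : a = b := by
  have h1 : (a / b) ^ d = 1 := by rw [div_pow, ha, hb, div_one]
  have h2 : (a / b) ^ p = 1 := by rw [div_pow, h, div_self (pow_ne_zero _ hb0)]
  have h3 : (a / b) ^ (Nat.gcd p d) = 1 := pow_gcd_eq_one.2 ⟨h2, h1⟩
  rw [hp, pow_one] at h3
  exact (div_eq_one_iff_eq hb0).1 h3

private lemma prod_pow {d p : ℕ} (hd : 0 < d) (hp : p.Coprime d) (f : ℂ → ℝ) :
    ∏ ω ∈ primitiveRoots d ℂ, f (ω ^ p) = ∏ ω ∈ primitiveRoots d ℂ, f ω := by
  classical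
  have hinj : Set.InjOn (fun ω : ℂ => ω ^ p) (primitiveRoots d ℂ : Finset ℂ) := by
    intro a ha b hb h
    have ha' := (mem_primitiveRoots hd).1 (Finset.mem_coe.1 ha)
    have hb' := (mem_primitiveRoots hd).1 (Finset.mem_coe.1 hb)
    exact pow_inj hp ha'.pow_eq_one hb'.pow_eq_one (hb'.ne_zero hd.ne') h
  have himg : (primitiveRoots d ℂ).image (fun ω : ℂ => ω ^ p) = primitiveRoots d ℂ := by
    apply Finset.eq_of_subset_of_card_le
    · intro w hw
      obtain ⟨a, ha, rfl⟩ := Finset.mem_image.1 hw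
      have ha' := (mem_primitiveRoots hd).1 ha
      exact (mem_primitiveRoots hd).2 (ha'.pow_of_coprime p hp)
    · rw [Finset.card_image_of_injOn hinj]
  conv_rhs => rw [← himg]
  rw [Finset.prod_image hinj]

/-- the differentiated identity `Φ_{dp} Φ_d = Φ_d(X^p)` -/
private lemma deriv_id {d p : ℕ} (hp : p.Prime) (h : ¬ p ∣ d) (ω : ℂ) :
    (derivative (cyclotomic d ℂ)).eval (ω ^ p) * (p * ω ^ (p - 1)) =
      (derivative (cyclotomic (d * p) ℂ)).eval ω * (cyclotomic d ℂ).eval ω +
        (cyclotomic (d * p) ℂ).eval ω * (derivative (cyclotomic d ℂ)).eval ω := by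
  have h1 := congrArg derivative (cyclotomic_expand_eq_cyclotomic_mul hp h ℂ)
  rw [derivative_expand, derivative_mul] at h1
  have h2 := congrArg (eval ω) h1
  simp only [eval_mul, eval_add, expand_eval, eval_pow, eval_X, eval_natCast] at h2
  exact h2

private lemma cD_pos {d : ℕ} (hd : 0 < d) : 0 < cD d := lt_of_lt_of_le one_pos (one_le_cD hd)

private lemma norm_prim {d : ℕ} (hd : 0 < d) {ω : ℂ} (hω : ω ∈ primitiveRoots d ℂ) : ‖ω‖ = 1 :=
  ((mem_primitiveRoots hd).1 hω).norm'_eq_one hd.ne'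

theorem cN_mul_prime {d p : ℕ} (hd : 0 < d) (hp : p.Prime) (h : ¬ p ∣ d) :
    cN d (d * p) = (p : ℝ) ^ d.totient := by
  have hcop : p.Coprime d := (Nat.Prime.coprime_iff_not_dvd hp).2 h
  have key : cN d (d * p) * cD d = (p : ℝ) ^ d.totient * cD d := by
    unfold cN cD
    rw [← Finset.prod_mul_distrib]
    conv_rhs => rw [← prod_pow hd hcop (fun ω => ‖(derivative (cyclotomic d ℂ)).eval ω‖)]
    have hc : (primitiveRoots d ℂ).card = d.totient := Complex.card_primitiveRoots d
    rw [← hc, ← Finset.prod_const, ← Finset.prod_mul_distrib]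
    apply Finset.prod_congr rfl
    intro ω hω
    have h1 := deriv_id hp h ω
    have h2 : (cyclotomic d ℂ).eval ω = 0 :=
      (isRoot_cyclotomic_iff_charZero hd).2 ((mem_primitiveRoots hd).1 hω)
    rw [h2, mul_zero, zero_add] at h1
    rw [← norm_mul, ← h1, norm_mul, norm_mul, norm_pow, norm_prim hd hω, one_pow, mul_one,
      Complex.norm_natCast]
    ring
  exact mul_right_cancel₀ (cD_pos hd).ne' key

private lemma cyc_norm {d : ℕ} (hd : 0 < d) (z : ℂ) :
    ‖(cyclotomic d ℂ).eval z‖ = ∏ ω ∈ primitiveRoots d ℂ, ‖z - ω‖ := by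
  have hζ := Complex.isPrimitiveRoot_exp d hd.ne'
  rw [cyclotomic_eq_prod_X_sub_primitiveRoots hζ, eval_prod, norm_prod]
  simp

private lemma cN_comm {d d' : ℕ} (hd : 0 < d) (hd' : 0 < d') : cN d d' = cN d' d := by
  unfold cN
  rw [Finset.prod_congr rfl (fun ω _ => cyc_norm hd' ω),
    Finset.prod_congr rfl (fun ω _ => cyc_norm hd ω), Finset.prod_comm]
  exact Finset.prod_congr rfl (fun a _ => Finset.prod_congr rfl (fun b _ => norm_sub_rev _ _))

private lemma prod_fiber {d p : ℕ} (hd : 0 < d) (hp : p.Prime) (h : ¬ p ∣ d) (f : ℂ → ℝ) :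
    ∏ ω ∈ primitiveRoots (d * p) ℂ, f (ω ^ p) = (∏ ω ∈ primitiveRoots d ℂ, f ω) ^ (p - 1) := by
  classical
  have hcop : p.Coprime d := (Nat.Prime.coprime_iff_not_dvd hp).2 h
  have hdp : 0 < d * p := Nat.mul_pos hd hp.pos
  have hinj : Set.InjOn (fun q : ℂ × ℂ => q.1 * q.2)
      ((primitiveRoots d ℂ ×ˢ primitiveRoots p ℂ : Finset (ℂ × ℂ)) : Set (ℂ × ℂ)) := by
    rintro ⟨a, b⟩ hab ⟨a', b'⟩ hab' he
    rw [Finset.mem_coe, Finset.mem_product] at hab hab'
    have ha := (mem_primitiveRoots hd).1 hab.1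
    have hb := (mem_primitiveRoots hp.pos).1 hab.2
    have ha' := (mem_primitiveRoots hd).1 hab'.1
    have hb' := (mem_primitiveRoots hp.pos).1 hab'.2
    simp only at ha hb ha' hb' he
    have h1 : a ^ p = a' ^ p := by
      have := congrArg (fun z : ℂ => z ^ p) he
      simp only [mul_pow, hb.pow_eq_one, hb'.pow_eq_one, mul_one] at this
      exact this
    have h2 : a = a' := pow_inj hcop ha.pow_eq_one ha'.pow_eq_one (ha'.ne_zero hd.ne') h1
    subst h2
    have h3 : b = b' := mul_left_cancel₀ (ha.ne_zero hd.ne') he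
    rw [h3]
  have himg : (primitiveRoots d ℂ ×ˢ primitiveRoots p ℂ).image (fun q : ℂ × ℂ => q.1 * q.2) =
      primitiveRoots (d * p) ℂ := by
    apply Finset.eq_of_subset_of_card_le
    · intro w hw
      obtain ⟨⟨a, b⟩, hab, rfl⟩ := Finset.mem_image.1 hw
      rw [Finset.mem_product] at hab
      have ha := (mem_primitiveRoots hd).1 hab.1
      have hb := (mem_primitiveRoots hp.pos).1 hab.2
      rw [mem_primitiveRoots hdp]
      have ho : orderOf (a * b) = d * p := by
        have hc : (orderOf a).Coprime (orderOf b) := by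
          rw [← ha.eq_orderOf, ← hb.eq_orderOf]; exact hcop.symm
        rw [(Commute.all a b).orderOf_mul_eq_mul_orderOf_of_coprime hc, ← ha.eq_orderOf,
          ← hb.eq_orderOf]
      rw [← ho]
      exact IsPrimitiveRoot.orderOf _
    · rw [Finset.card_image_of_injOn hinj, Finset.card_product, Complex.card_primitiveRoots,
        Complex.card_primitiveRoots, Complex.card_primitiveRoots,
        Nat.totient_mul (hcop.symm)]
  rw [← himg, Finset.prod_image hinj, Finset.prod_product]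
  have h1 : ∀ a ∈ primitiveRoots d ℂ, ∏ b ∈ primitiveRoots p ℂ, f ((a * b) ^ p) = f (a ^ p) ^ (p - 1) := by
    intro a _
    rw [Finset.prod_congr rfl (fun b hb => by
      rw [mul_pow, ((mem_primitiveRoots hp.pos).1 hb).pow_eq_one, mul_one]), Finset.prod_const,
      Complex.card_primitiveRoots, Nat.totient_prime hp]
  simp only
  rw [Finset.prod_congr rfl h1, Finset.prod_pow, prod_pow hd hcop f]

theorem cD_mul_prime {d p : ℕ} (hd : 0 < d) (hp : p.Prime) (h : ¬ p ∣ d) :
    cD (d * p) = (p : ℝ) ^ (d.totient * (p - 2)) * cD d ^ (p - 1) := by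
  have hcop : p.Coprime d := (Nat.Prime.coprime_iff_not_dvd hp).2 h
  have hdp : 0 < d * p := Nat.mul_pos hd hp.pos
  have hp0 : (0 : ℝ) < p := by exact_mod_cast hp.pos
  have key : cD (d * p) * cN (d * p) d = (p : ℝ) ^ (d * p).totient * cD d ^ (p - 1) := by
    have h1 := prod_fiber hd hp h (fun ω => ‖(derivative (cyclotomic d ℂ)).eval ω‖)
    rw [cD, cD, cN, ← h1, ← Finset.prod_mul_distrib]
    have hc : (primitiveRoots (d * p) ℂ).card = (d * p).totient := Complex.card_primitiveRoots _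
    rw [← hc, ← Finset.prod_const, ← Finset.prod_mul_distrib]
    apply Finset.prod_congr rfl
    intro ω hω
    have h1 := deriv_id hp h ω
    have h2 : (cyclotomic (d * p) ℂ).eval ω = 0 :=
      (isRoot_cyclotomic_iff_charZero hdp).2 ((mem_primitiveRoots hdp).1 hω)
    rw [h2, zero_mul, add_zero] at h1
    rw [← norm_mul, ← h1, norm_mul, norm_mul, norm_pow, norm_prim hdp hω, one_pow, mul_one,
      Complex.norm_natCast]
    ring
  rw [cN_comm hdp hd, cN_mul_prime hd hp h, Nat.totient_mul hcop.symm, Nat.totient_prime hp] at key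
  have h2 : d.totient * (p - 1) = d.totient * (p - 2) + d.totient := by
    have := hp.two_le
    obtain ⟨k, rfl⟩ : ∃ k, p = k + 2 := ⟨p - 2, by omega⟩
    simp only [Nat.add_sub_cancel, show k + 2 - 1 = k + 1 by omega]
    ring
  rw [h2, pow_add] at key
  have h3 : (p : ℝ) ^ d.totient ≠ 0 := (pow_pos hp0 _).ne'
  apply mul_right_cancel₀ h3
  rw [key]; ring

private lemma cD_one : cD 1 = 1 := by
  unfold cD
  simp

private lemma log_cD_eq (d : ℕ) : Squarefree d →
    (d.totient : ℝ) * (Real.log d - ∑ p ∈ d.primeFactors, Real.log p / (p - 1)) =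
      Real.log (cD d) := by
  induction d using Nat.strong_induction_on with
  | _ d ih =>
    intro hsq
    have hd0 : 0 < d := Nat.pos_of_ne_zero hsq.ne_zero
    by_cases h1 : d = 1
    · subst h1
      simp [cD_one]
    · obtain ⟨p, hp, hpd⟩ := Nat.exists_prime_and_dvd h1
      obtain ⟨e, he⟩ := hpd
      have he' : d = e * p := by rw [he]; ring
      have hpe : ¬ p ∣ e := by
        intro hpe
        have : p * p ∣ d := by rw [he]; exact Nat.mul_dvd_mul_left p hpe
        have := hsq p this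
        exact hp.one_lt.ne' (Nat.isUnit_iff.1 this)
      have hcop : p.Coprime e := (Nat.Prime.coprime_iff_not_dvd hp).2 hpe
      have he0 : 0 < e := by
        rcases Nat.eq_zero_or_pos e with h | h
        · rw [h] at he'; omega
        · exact h
      have hesq : Squarefree e := hsq.squarefree_of_dvd (by rw [he']; exact Nat.dvd_mul_right e p)
      have hlt : e < d := by
        rw [he']
        have := hp.two_le
        nlinarith
      have ih' := ih e hlt hesq
      have hp0 : (0 : ℝ) < p := by exact_mod_cast hp.pos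
      have hp1 : (1 : ℝ) < p := by exact_mod_cast hp.one_lt
      have he0' : (0 : ℝ) < e := by exact_mod_cast he0
      rw [he', cD_mul_prime he0 hp hpe, Nat.totient_mul hcop.symm, Nat.totient_prime hp]
      rw [Real.log_mul (pow_pos hp0 _).ne' (pow_pos (cD_pos he0) _).ne', Real.log_pow, Real.log_pow,
        ← ih']
      have hpf : (e * p).primeFactors = insert p e.primeFactors := by
        rw [Nat.primeFactors_mul he0.ne' hp.ne_zero, hp.primeFactors, Finset.union_comm]
        rfl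
      rw [hpf, Finset.sum_insert (by
        intro hmem
        exact hpe (Nat.dvd_of_mem_primeFactors hmem))]
      push_cast [Nat.cast_sub hp.one_lt.le, Nat.cast_sub hp.two_le]
      rw [Real.log_mul he0'.ne' hp0.ne']
      have : (p : ℝ) - 1 ≠ 0 := by linarith
      field_simp
      ring

theorem log_cD {d : ℕ} (hd : Squarefree d) :
    (d.totient : ℝ) * (Real.log d - ∑ p ∈ d.primeFactors, Real.log p / (p - 1)) ≤
      Real.log (cD d) :=
  (log_cD_eq d hd).le

end Pool.Agent.Lead.ZN
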