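import Pool.Agent.Lead.ZN.VolCount
import Pool.Agent.Lead.ZN.Confluent

namespace Pool.Agent.Lead.ZN

open Polynomial Finset

/-- the 0/1 polynomial of a set of exponents -/
private noncomputable def resA_P (n : ℕ) (x : Finset (Fin (n + 1))) : ℤ[X] :=
  ∑ a ∈ x, X ^ (a : ℕ)

private lemma resA_coeff (n : ℕ) (x : Finset (Fin (n + 1))) (k : ℕ) :
    (resA_P n x).coeff k = if ∃ a ∈ x, (a : ℕ) = k then 1 else 0 := by
  classical
  unfold resA_P
  rw [finsetSum_coeff]
  simp only [coeff_X_pow]
  split_ifs with h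
  · obtain ⟨a, ha, rfl⟩ := h
    rw [Finset.sum_eq_single a]
    · simp
    · intro b _ hb
      rw [if_neg]
      intro h'
      exact hb (Fin.ext h'.symm)
    · intro h'
      exact absurd ha h'
  · push Not at h
    apply Finset.sum_eq_zero
    intro a ha
    rw [if_neg]
    intro h'
    exact h a ha h'.symm

private lemma resA_natDegree (n : ℕ) (x : Finset (Fin (n + 1))) : (resA_P n x).natDegree ≤ n := by
  rw [natDegree_le_iff_coeff_eq_zero]
  intro k hk
  rw [resA_coeff, if_neg]
  rintro ⟨a, _, rfl⟩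
  have := a.2
  omega

private lemma resA_sum_choose (n i : ℕ) : ∑ a ∈ range (n + 1), a.choose i = (n + 1).choose (i + 1) := by
  induction n with
  | zero =>
    rcases i with _ | i
    · simp
    · rw [Nat.choose_eq_zero_of_lt (by omega : 0 + 1 < i + 1 + 1)]
      simp
  | succ n ih =>
    rw [Finset.sum_range_succ, ih, Nat.choose_succ_succ (n + 1) i]
    ring

private lemma resA_monic (L : List ℕ) : (L.map fun d => cyclotomic d ℤ).prod.Monic := by
  induction L with
  | nil => simp
  | cons d L ih =>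
    rw [List.map_cons, List.prod_cons]
    exact (cyclotomic.monic d ℤ).mul ih

private lemma resA_natDeg (L : List ℕ) : (L.map fun d => cyclotomic d ℤ).prod.natDegree = degL L := by
  induction L with
  | nil => simp [degL]
  | cons d L ih =>
    rw [List.map_cons, List.prod_cons, (cyclotomic.monic d ℤ).natDegree_mul (resA_monic L), ih,
      natDegree_cyclotomic, degL, degL, List.map_cons, List.sum_cons]

private lemma resA_map (L : List ℕ) :
    (L.map fun d => cyclotomic d ℤ).prod.map (Int.castRingHom ℂ) = FL L := by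
  induction L with
  | nil => simp [FL]
  | cons d L ih =>
    rw [List.map_cons, List.prod_cons, Polynomial.map_mul, ih, map_cyclotomic_int, FL, FL,
      List.map_cons, List.prod_cons]

/-- evaluation of a Hasse derivative of a monomial on the unit circle -/
private lemma resA_norm (i a : ℕ) {ω : ℂ} (hω : ‖ω‖ = 1) :
    ‖(hasseDeriv i (X ^ a : ℂ[X])).eval ω‖ = (a.choose i : ℝ) := by
  rw [← monomial_one_right_eq_X_pow, hasseDeriv_monomial, eval_monomial, norm_mul, norm_pow, hω]
  simp

/-- Pigeonhole for the residues of 0/1 polynomials modulo a product of cyclotomic polynomials. -/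
theorem pigeonhole (n : ℕ) (L : List ℕ) (hL : ∀ d ∈ L, 0 < d) (hdeg : degL L ≤ n + 1)
    (h : (8 : ℝ) ^ (degL L) * rowProd (fun i => ((n + 1).choose (i + 1) : ℝ)) L <
      2 ^ (n + 1) * stageNorm L) :
    ∃ p : ℤ[X], p ≠ 0 ∧ p.natDegree ≤ n ∧ (∀ i, p.coeff i = -1 ∨ p.coeff i = 0 ∨ p.coeff i = 1) ∧
      (L.map fun d => cyclotomic d ℤ).prod ∣ p := by
  classical
  obtain ⟨i, ω, hω, hi, hzero, hrow, hst⟩ := confluent L hL
  set f : ℤ[X] := (L.map fun d => cyclotomic d ℤ).prod with hf
  have hfm : f.Monic := resA_monic L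
  have hfd : f.natDegree = degL L := resA_natDeg L
  set V : Matrix (Fin (degL L)) (Fin (degL L)) ℂ := Matrix.of fun (j a : Fin (degL L)) =>
    (hasseDeriv (i j) (X ^ (a : ℕ) : ℂ[X])).eval (ω j) with hV
  set B : Fin (degL L) → ℝ := fun j => ((n + 1).choose (i j + 1) : ℝ) with hB
  have hBpos : ∀ j, 0 < B j := by
    intro j
    have := hi j
    have h1 : 0 < (n + 1).choose (i j + 1) := Nat.choose_pos (by omega)
    show (0 : ℝ) < ((n + 1).choose (i j + 1) : ℝ)
    exact_mod_cast h1
  let res : Finset (Fin (n + 1)) → (Fin (degL L) → ℤ) := fun x a => (resA_P n x %ₘ f).coeff a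
  set S : Finset (Fin (degL L) → ℤ) := Finset.univ.image res with hS
  -- degree of the remainder
  have hdegrem : ∀ P : ℤ[X], ∀ k, degL L ≤ k → (P %ₘ f).coeff k = 0 := by
    intro P k hk
    apply coeff_eq_zero_of_degree_lt
    calc (P %ₘ f).degree < f.degree := degree_modByMonic_lt P hfm
      _ = (degL L : WithBot ℕ) := by rw [degree_eq_natDegree hfm.ne_zero, hfd]
      _ ≤ k := by exact_mod_cast hk
  have hfun : ∀ (P : ℤ[X]) (j : Fin (degL L)), ∑ a : Fin (degL L), V j a * (((P %ₘ f).coeff a : ℤ) : ℂ) =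
      (hasseDeriv (i j) (P.map (Int.castRingHom ℂ))).eval (ω j) := by
    intro P j
    have e1 : P.map (Int.castRingHom ℂ) =
        (P %ₘ f).map (Int.castRingHom ℂ) + FL L * (P /ₘ f).map (Int.castRingHom ℂ) := by
      conv_lhs => rw [← modByMonic_add_div P f]
      rw [Polynomial.map_add, Polynomial.map_mul, hf, resA_map]
    rw [e1, map_add, eval_add, hzero, add_zero]
    have e2 : (P %ₘ f).map (Int.castRingHom ℂ) =
        ∑ a ∈ range (degL L), C (((P %ₘ f).coeff a : ℤ) : ℂ) * X ^ a := by
      ext k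
      rw [coeff_map, finsetSum_coeff]
      simp only [coeff_C_mul, coeff_X_pow, mul_ite, mul_one, mul_zero]
      rw [Finset.sum_ite_eq]
      split_ifs with hk
      · simp
      · rw [hdegrem P k (by simpa using hk)]
        simp
    rw [e2, map_sum, eval_finsetSum, Finset.sum_range]
    apply Finset.sum_congr rfl
    intro a _
    rw [hV, Matrix.of_apply, ← smul_eq_C_mul, LinearMap.map_smul, eval_smul, smul_eq_mul, mul_comm]
  have hcount := lattice_count V B hBpos S ?_ ?_
  · -- the count
    rw [Fintype.card_fin] at hcount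
    have h1 : ∏ j, B j = rowProd (fun i => ((n + 1).choose (i + 1) : ℝ)) L :=
      hrow (fun i => ((n + 1).choose (i + 1) : ℝ))
    rw [h1] at hcount
    have h2 : (S.card : ℝ) * ‖V.det‖ < 2 ^ (n + 1) * ‖V.det‖ :=
      lt_of_le_of_lt hcount (lt_of_lt_of_le h (mul_le_mul_of_nonneg_left hst (by positivity)))
    have h3 : (S.card : ℝ) < 2 ^ (n + 1) := lt_of_mul_lt_mul_right h2 (norm_nonneg _)
    have h4 : S.card < (Finset.univ : Finset (Finset (Fin (n + 1)))).card := by
      rw [Finset.card_univ, Fintype.card_finset, Fintype.card_fin]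
      exact_mod_cast h3
    obtain ⟨x, -, y, -, hxy, hres⟩ := Finset.exists_ne_map_eq_of_card_lt_of_maps_to h4
      (f := res) (fun x _ => Finset.mem_image_of_mem _ (Finset.mem_univ x))
    refine ⟨resA_P n x - resA_P n y, ?_, ?_, ?_, ?_⟩
    · intro h0
      apply hxy
      ext a
      have := congrArg (fun q => coeff q (a : ℕ)) h0
      simp only [coeff_sub, resA_coeff, coeff_zero] at this
      have ex : (∃ b ∈ x, (b : ℕ) = a) ↔ a ∈ x :=
        ⟨fun ⟨b, hb, e⟩ => by rwa [← Fin.ext e], fun ha => ⟨a, ha, rfl⟩⟩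
      have ey : (∃ b ∈ y, (b : ℕ) = a) ↔ a ∈ y :=
        ⟨fun ⟨b, hb, e⟩ => by rwa [← Fin.ext e], fun ha => ⟨a, ha, rfl⟩⟩
      rw [if_congr ex rfl rfl, if_congr ey rfl rfl] at this
      by_cases hax : a ∈ x <;> by_cases hay : a ∈ y <;> simp [hax, hay] at this ⊢
    · refine (natDegree_sub_le _ _).trans (max_le (resA_natDegree n x) (resA_natDegree n y))
    · intro k
      rw [coeff_sub, resA_coeff, resA_coeff]
      split_ifs <;> simp
    · rw [← modByMonic_eq_zero_iff_dvd hfm, sub_modByMonic, sub_eq_zero]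
      ext k
      by_cases hk : k < degL L
      · exact congrFun hres ⟨k, hk⟩
      · rw [hdegrem _ k (not_lt.mp hk), hdegrem _ k (not_lt.mp hk)]
  · intro r hr j
    obtain ⟨x, -, rfl⟩ := Finset.mem_image.mp hr
    rw [hfun]
    rw [resA_P, Polynomial.map_sum, map_sum, eval_finsetSum]
    refine (norm_sum_le _ _).trans ?_
    simp only [Polynomial.map_pow, map_X, resA_norm _ _ (hω j)]
    have h5 : ∑ a ∈ x, (((a : ℕ).choose (i j) : ℕ) : ℝ) ≤
        ∑ a : Fin (n + 1), (((a : ℕ).choose (i j) : ℕ) : ℝ) :=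
      Finset.sum_le_sum_of_subset_of_nonneg (Finset.subset_univ _) (fun _ _ _ => by positivity)
    refine h5.trans (le_of_eq ?_)
    rw [hB]
    simp only
    rw [← resA_sum_choose, Finset.sum_range]
    push_cast
    rfl
  · intro j
    simp only [hV, Matrix.of_apply, resA_norm _ _ (hω j)]
    rw [hB]
    simp only
    rw [← resA_sum_choose]
    push_cast
    rw [← Finset.sum_range (fun a => ((a.choose (i j) : ℕ) : ℝ))]
    exact Finset.sum_le_sum_of_subset_of_nonneg
      (Finset.range_subset_range.mpr hdeg) (fun _ _ _ => by positivity)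

end Pool.Agent.Lead.ZN
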