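import Pool.Agent.Lead.ZN.Mertens
import Pool.Agent.Lead.ZN.Energy

/-!
Rough squarefree numbers.  Parameters: `D` (a natural number), `r ≥ 1`, `lam = log D / 2^r`.
`SD D r` = squarefree `1 ≤ d ≤ D` all of whose prime factors `p` satisfy `log p > lam`.
The level of a prime `p` with `lam < log p ≤ log D` is the `j < r` with
`2^j lam < log p ≤ 2^(j+1) lam`; the weight is `(j+1)/r`, and `wt 1 = 1`,
`wt d = weight of the least prime factor of d`.
-/

namespace Pool.Agent.Lead.ZN

open Finset

noncomputable section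

def lam (D r : ℕ) : ℝ := Real.log D / 2 ^ r

/-- squarefree numbers `d ≤ D` all of whose prime factors satisfy `log p > 2^j lam`. -/
def SD (D r j : ℕ) : Finset ℕ :=
  (Icc 1 D).filter fun d => Squarefree d ∧ ∀ p ∈ d.primeFactors, 2 ^ j * lam D r < Real.log p

/-- the number of `j < r` such that every prime factor of `d` satisfies `2^j lam < log p`. -/
def lv (D r d : ℕ) : ℕ :=
  ((range r).filter fun j => ∀ p ∈ d.primeFactors, 2 ^ j * lam D r < Real.log p).card

/-- the weight -/
def wt (D r d : ℕ) : ℝ := (lv D r d : ℝ) / r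

theorem wt_one (D r : ℕ) (hr : 0 < r) : wt D r 1 = 1 := by
  unfold wt lv
  have : ((range r).filter fun j => ∀ p ∈ (1 : ℕ).primeFactors, 2 ^ j * lam D r < Real.log p)
      = range r := by
    apply filter_true_of_mem
    intro j _ p hp
    simp at hp
  rw [this, card_range]
  have : (r : ℝ) ≠ 0 := by positivity
  exact div_self this

theorem wt_le_one (D r d : ℕ) : wt D r d ≤ 1 := by
  unfold wt lv
  apply div_le_one_of_le₀ _ (Nat.cast_nonneg _)
  have h := card_filter_le (range r) fun j => ∀ p ∈ d.primeFactors, 2 ^ j * lam D r < Real.log p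
  rw [card_range] at h
  exact_mod_cast h

theorem wt_pos {D r d : ℕ} (hr : 0 < r) (hd : d ∈ SD D r 0) : 1 / (r : ℝ) ≤ wt D r d := by
  unfold wt
  apply div_le_div_of_nonneg_right _ (Nat.cast_nonneg _)
  have h2 := (mem_filter.1 hd).2.2
  have : 0 < lv D r d := by
    unfold lv
    apply card_pos.2
    exact ⟨0, mem_filter.2 ⟨mem_range.2 hr, h2⟩⟩
  exact_mod_cast this

/-- A squarefree number with prime factors in `P` is determined by its set of prime factors. -/
private theorem sum_sqfree_le (S P : Finset ℕ) (hS : ∀ d ∈ S, Squarefree d ∧ d.primeFactors ⊆ P)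
    (_hP : ∀ p ∈ P, 0 < p) :
    ∑ d ∈ S, (1 : ℝ) / d ≤ Real.exp (∑ p ∈ P, (1 : ℝ) / p) := by
  have h1 : ∑ d ∈ S, (1 : ℝ) / d = ∑ d ∈ S, ∏ p ∈ d.primeFactors, (1 : ℝ) / p := by
    apply sum_congr rfl
    intro d hd
    have := Nat.prod_primeFactors_of_squarefree (hS d hd).1
    rw [prod_div_distrib, prod_const_one]
    congr 1
    conv_lhs => rw [← this]
    push_cast
    rfl
  have hinj : Set.InjOn Nat.primeFactors (S : Set ℕ) := by
    intro d hd d' hd' h
    have e1 := Nat.prod_primeFactors_of_squarefree (hS d hd).1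
    have e2 := Nat.prod_primeFactors_of_squarefree (hS d' hd').1
    rw [← e1, ← e2, h]
  have h2 : ∑ d ∈ S, ∏ p ∈ d.primeFactors, (1 : ℝ) / p
      = ∑ T ∈ S.image Nat.primeFactors, ∏ p ∈ T, (1 : ℝ) / p :=
    (sum_image (f := fun T : Finset ℕ => ∏ p ∈ T, (1 : ℝ) / (p : ℝ)) hinj).symm
  rw [h1, h2]
  have h3 : ∑ T ∈ S.image Nat.primeFactors, ∏ p ∈ T, (1 : ℝ) / p
      ≤ ∑ T ∈ P.powerset, ∏ p ∈ T, (1 : ℝ) / p := by
    apply sum_le_sum_of_subset_of_nonneg
    · intro T hT
      obtain ⟨d, hd, rfl⟩ := mem_image.1 hT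
      exact mem_powerset.2 (hS d hd).2
    · intro T _ _
      exact prod_nonneg fun p _ => by positivity
  refine h3.trans ?_
  rw [← prod_one_add]
  rw [Real.exp_sum]
  apply prod_le_prod
  · intro p _; positivity
  · intro p _
    have := Real.add_one_le_exp ((1 : ℝ) / p)
    linarith

private theorem two_pow_lam (D r : ℕ) : 2 ^ r * lam D r = Real.log D := by
  unfold lam
  field_simp

/-- S1: rough numbers. -/
theorem sum_rough : ∃ C : ℝ, 1 ≤ C ∧ ∀ D r j : ℕ, 2 ≤ D → j ≤ r → 1 ≤ lam D r →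
    ∑ d ∈ SD D r j, (d.totient : ℝ) / (d : ℝ) ^ 2 ≤ C * 2 ^ (r - j) := by
  obtain ⟨C, hC, -, -, h3, -⟩ := mertens
  refine ⟨Real.exp C, ?_, ?_⟩
  · have := Real.add_one_le_exp C
    linarith
  intro D r j hD hj hl
  have hl0 : 0 < lam D r := by linarith
  have hD0 : (0 : ℝ) < D := by
    have : 0 < D := by omega
    exact_mod_cast this
  have hu : 1 ≤ 2 ^ j * lam D r := by
    have : (1 : ℝ) ≤ 2 ^ j := one_le_pow₀ (by norm_num)
    nlinarith
  have huv : 2 ^ j * lam D r ≤ Real.log D := by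
    rw [← two_pow_lam D r]
    apply mul_le_mul_of_nonneg_right _ hl0.le
    exact pow_le_pow_right₀ (by norm_num) hj
  set P := PL (2 ^ j * lam D r) (Real.log D) with hP
  have h4 : ∑ d ∈ SD D r j, (d.totient : ℝ) / (d : ℝ) ^ 2 ≤ ∑ d ∈ SD D r j, (1 : ℝ) / d := by
    apply sum_le_sum
    intro d hd
    have hd1 := (mem_Icc.1 (mem_filter.1 hd).1).1
    have hd0 : (0 : ℝ) < d := by
      have : 0 < d := by omega
      exact_mod_cast this
    rw [div_le_div_iff₀ (by positivity) hd0, one_mul, sq]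
    apply mul_le_mul_of_nonneg_right _ hd0.le
    exact_mod_cast Nat.totient_le d
  have h5 := sum_sqfree_le (SD D r j) P (by
    intro d hd
    obtain ⟨hd1, hd2, hd3⟩ := mem_filter.1 hd
    refine ⟨hd2, fun p hp => ?_⟩
    rw [hP, mem_PL]
    have hpp := Nat.prime_of_mem_primeFactors hp
    refine ⟨hpp, hd3 p hp, ?_⟩
    apply Real.log_le_log
    · exact_mod_cast hpp.pos
    · have h6 := Nat.le_of_mem_primeFactors hp
      have h7 := (mem_Icc.1 hd1).2
      exact_mod_cast h6.trans h7) (by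
    intro p hp
    rw [hP, mem_PL] at hp
    exact hp.1.pos)
  refine h4.trans (h5.trans ?_)
  have h6 := h3 (2 ^ j * lam D r) (Real.log D) hu huv
  refine (Real.exp_le_exp.2 h6).trans (le_of_eq ?_)
  have h7 : Real.log D / (2 ^ j * lam D r) = 2 ^ (r - j) := by
    rw [← two_pow_lam D r, mul_div_mul_right _ _ hl0.ne', pow_sub₀ (2 : ℝ) (by norm_num) hj]
    rfl
  rw [h7, Real.exp_add, Real.exp_log (by positivity), mul_comm]

private theorem sq_card (P : ℕ → Prop) [DecidablePred P] (hP : ∀ i j, i ≤ j → P j → P i) (r : ℕ) :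
    (((range r).filter P).card : ℝ) ^ 2 = ∑ j ∈ range r, if P j then (2 * (j : ℝ) + 1) else 0 := by
  induction r with
  | zero => simp
  | succ r ih =>
    rw [sum_range_succ, range_add_one, filter_insert]
    by_cases h : P r
    · rw [if_pos h, if_pos h, ← ih, card_insert_of_notMem (by simp)]
      have h1 : (range r).filter P = range r := by
        apply filter_true_of_mem
        intro j hj
        exact hP j r (mem_range.1 hj).le h
      rw [h1, card_range]
      push_cast
      ring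
    · rw [if_neg h, if_neg h, add_zero, ih]

private theorem sum_half (r : ℕ) : ∑ j ∈ range r, (2 * (j : ℝ) + 1) * (1 / 2) ^ j
    = 6 - (4 * r + 6) * (1 / 2) ^ r := by
  induction r with
  | zero => simp
  | succ r ih =>
    rw [sum_range_succ, ih, pow_succ]
    push_cast
    ring

/-- S2: the total squared weight. -/
theorem sum_wt_sq : ∃ C : ℝ, 1 ≤ C ∧ ∀ D r : ℕ, 2 ≤ D → 1 ≤ r → 1 ≤ lam D r →
    ∑ d ∈ SD D r 0, (d.totient : ℝ) / (d : ℝ) ^ 2 * wt D r d ^ 2 ≤ C * 2 ^ r / r ^ 2 := by
  obtain ⟨C, hC, h⟩ := sum_rough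
  refine ⟨6 * C, by linarith, ?_⟩
  intro D r hD hr hl
  have hl0 : 0 < lam D r := by linarith
  have hr0 : (0 : ℝ) < r := by exact_mod_cast hr
  have e1 : ∀ d : ℕ, (d.totient : ℝ) / (d : ℝ) ^ 2 * wt D r d ^ 2
      = (∑ j ∈ range r, if (∀ p ∈ d.primeFactors, 2 ^ j * lam D r < Real.log p)
        then (2 * (j : ℝ) + 1) * ((d.totient : ℝ) / (d : ℝ) ^ 2) else 0) / (r : ℝ) ^ 2 := by
    intro d
    unfold wt lv
    rw [div_pow, sq_card]
    · rw [mul_div_assoc', mul_sum]
      congr 1
      apply sum_congr rfl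
      intro j _
      split_ifs
      · ring
      · ring
    · intro i j hij hj p hp
      refine lt_of_le_of_lt ?_ (hj p hp)
      apply mul_le_mul_of_nonneg_right _ hl0.le
      exact pow_le_pow_right₀ (by norm_num) hij
  rw [sum_congr rfl fun d _ => e1 d, ← sum_div]
  apply div_le_div_of_nonneg_right _ (by positivity)
  rw [sum_comm]
  calc ∑ j ∈ range r, ∑ d ∈ SD D r 0, (if (∀ p ∈ d.primeFactors, 2 ^ j * lam D r < Real.log p)
        then (2 * (j : ℝ) + 1) * ((d.totient : ℝ) / (d : ℝ) ^ 2) else 0)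
      ≤ ∑ j ∈ range r, (2 * (j : ℝ) + 1) * (C * 2 ^ r * (1 / 2) ^ j) := by
        apply sum_le_sum
        intro j hj
        have hj' := (mem_range.1 hj).le
        rw [← sum_filter, ← mul_sum]
        apply mul_le_mul_of_nonneg_left _ (by positivity)
        have h1 := h D r j hD hj' hl
        have h2 : C * 2 ^ (r - j) = C * 2 ^ r * (1 / 2) ^ j := by
          rw [pow_sub₀ (2 : ℝ) (by norm_num) hj', one_div, inv_pow]
          ring
        rw [← h2]
        refine le_trans ?_ h1
        apply sum_le_sum_of_subset_of_nonneg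
        · intro d hd
          obtain ⟨h3, h4⟩ := mem_filter.1 hd
          obtain ⟨h5, h6, -⟩ := mem_filter.1 h3
          exact mem_filter.2 ⟨h5, h6, h4⟩
        · intro d _ _
          positivity
    _ = C * 2 ^ r * ∑ j ∈ range r, (2 * (j : ℝ) + 1) * (1 / 2) ^ j := by
        rw [mul_sum]
        apply sum_congr rfl
        intro j _
        ring
    _ ≤ C * 2 ^ r * 6 := by
        apply mul_le_mul_of_nonneg_left _ (by positivity)
        rw [sum_half]
        have : 0 ≤ (4 * (r : ℝ) + 6) * (1 / 2) ^ r := by positivity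
        linarith
    _ = 6 * C * 2 ^ r := by ring

end

end Pool.Agent.Lead.ZN
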