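import Pool.Agent.Lead.ZN.SumsA

namespace Pool.Agent.Lead.ZN

open Finset

noncomputable section

private theorem sumsB_geom (c : ℝ) (hc : 1 < c) (m : ℕ) :
    ∑ j ∈ range (m + 1), c ^ j ≤ c / (c - 1) * c ^ m := by
  have h1 : 0 < c - 1 := by linarith
  rw [geom_sum_eq hc.ne', pow_succ, div_mul_eq_mul_div]
  apply div_le_div_of_nonneg_right _ h1.le
  nlinarith

private theorem sumsB_prod (T : Finset ℕ) :
    (∑ j ∈ T, (3 / 2 : ℝ) ^ j) * (∑ j ∈ T, (4 / 3 : ℝ) ^ j) ≤ 12 * ∑ j ∈ T, (2 : ℝ) ^ j := by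
  rcases T.eq_empty_or_nonempty with hT | hT
  · subst hT
    simp
  · set m := T.max' hT with hm
    have hsub : T ⊆ range (m + 1) := fun j hj =>
      mem_range.2 (Nat.lt_succ_of_le (T.le_max' j hj))
    have h1 : ∑ j ∈ T, (3 / 2 : ℝ) ^ j ≤ 3 * (3 / 2 : ℝ) ^ m := by
      refine le_trans (sum_le_sum_of_subset_of_nonneg hsub fun _ _ _ => by positivity) ?_
      refine le_trans (sumsB_geom (3 / 2) (by norm_num) m) (le_of_eq ?_)
      norm_num
    have h2 : ∑ j ∈ T, (4 / 3 : ℝ) ^ j ≤ 4 * (4 / 3 : ℝ) ^ m := by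
      refine le_trans (sum_le_sum_of_subset_of_nonneg hsub fun _ _ _ => by positivity) ?_
      refine le_trans (sumsB_geom (4 / 3) (by norm_num) m) (le_of_eq ?_)
      norm_num
    have h3 : (2 : ℝ) ^ m ≤ ∑ j ∈ T, (2 : ℝ) ^ j :=
      single_le_sum (f := fun j => (2 : ℝ) ^ j) (fun _ _ => by positivity) (T.max'_mem hT)
    calc (∑ j ∈ T, (3 / 2 : ℝ) ^ j) * (∑ j ∈ T, (4 / 3 : ℝ) ^ j)
        ≤ (3 * (3 / 2 : ℝ) ^ m) * (4 * (4 / 3 : ℝ) ^ m) :=
          mul_le_mul h1 h2 (by positivity) (by positivity)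
      _ = 12 * ((3 / 2 : ℝ) * (4 / 3)) ^ m := by rw [mul_pow]; ring
      _ = 12 * (2 : ℝ) ^ m := by norm_num
      _ ≤ 12 * ∑ j ∈ T, (2 : ℝ) ^ j := by linarith

/-- The levels of `d`. -/
private def sumsB_T (D r d : ℕ) : Finset ℕ :=
  (range r).filter fun j => ∀ p ∈ d.primeFactors, 2 ^ j * lam D r < Real.log p

private theorem sumsB_wt_sub {D r d p : ℕ} (hd : 0 < d) (hp : p.Prime) :
    wt D r d - wt D r (d * p) =
      (∑ j ∈ sumsB_T D r d, (if Real.log p ≤ 2 ^ j * lam D r then (1 : ℝ) else 0)) / r := by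
  have h1 : sumsB_T D r (d * p) = (sumsB_T D r d).filter fun j =>
      ¬ (Real.log p ≤ 2 ^ j * lam D r) := by
    ext j
    simp only [sumsB_T, mem_filter, mem_range, Nat.primeFactors_mul hd.ne' hp.ne_zero,
      hp.primeFactors, mem_union, mem_singleton, not_le]
    constructor
    · rintro ⟨h2, h3⟩
      exact ⟨⟨h2, fun q hq => h3 q (Or.inl hq)⟩, h3 p (Or.inr rfl)⟩
    · rintro ⟨⟨h2, h3⟩, h4⟩
      refine ⟨h2, fun q hq => ?_⟩
      rcases hq with hq | hq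
      · exact h3 q hq
      · rw [hq]
        exact h4
  have h2 : ((sumsB_T D r d).filter fun j => Real.log p ≤ 2 ^ j * lam D r).card +
      (sumsB_T D r (d * p)).card = (sumsB_T D r d).card := by
    rw [h1]
    exact card_filter_add_card_filter_not _
  have h3 : (((sumsB_T D r d).filter fun j => Real.log p ≤ 2 ^ j * lam D r).card : ℝ) +
      ((sumsB_T D r (d * p)).card : ℝ) = ((sumsB_T D r d).card : ℝ) := by
    exact_mod_cast h2
  have h4 : wt D r d = ((sumsB_T D r d).card : ℝ) / r := rfl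
  have h5 : wt D r (d * p) = ((sumsB_T D r (d * p)).card : ℝ) / r := rfl
  rw [h4, h5, ← sub_div, ← h3, add_sub_cancel_right, sum_boole]

/-- S3: the edges. -/
theorem sum_edges : ∃ C : ℝ, 1 ≤ C ∧ ∀ D r : ℕ, 2 ≤ D → 1 ≤ r → 1 ≤ lam D r →
    ∑ d ∈ SD D r 0, ∑ p ∈ nb (SD D r 0) d,
      (d.totient : ℝ) / (d : ℝ) ^ 2 * (Real.log p / p) * (wt D r d - wt D r (d * p)) ^ 2 ≤
      C * Real.log D / r := by
  obtain ⟨C, hC1, hM, -⟩ := mertens
  obtain ⟨C', hC'1, hR⟩ := sum_rough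
  refine ⟨12 * (1 + C) * C', by nlinarith, fun D r hD hr hlam => ?_⟩
  have hr0 : (0 : ℝ) < (r : ℝ) := by exact_mod_cast hr
  have hlam0 : 0 < lam D r := by linarith
  -- the sum over the primes for one `d`
  have hinner : ∀ d ∈ SD D r 0, ∑ p ∈ nb (SD D r 0) d,
      (d.totient : ℝ) / (d : ℝ) ^ 2 * (Real.log p / p) * (wt D r d - wt D r (d * p)) ^ 2 ≤
      (12 * (1 + C) * lam D r / (r : ℝ) ^ 2) *
        ((d.totient : ℝ) / (d : ℝ) ^ 2 * ∑ j ∈ sumsB_T D r d, (2 : ℝ) ^ j) := by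
    intro d hd
    have hd0 : 0 < d := (mem_Icc.1 (mem_filter.1 hd).1).1
    have hw : (0 : ℝ) ≤ (d.totient : ℝ) / (d : ℝ) ^ 2 := by positivity
    set T := sumsB_T D r d with hT
    have hprime : ∀ p ∈ nb (SD D r 0) d, p.Prime := fun p hp => ((mem_nb hd0).1 hp).1
    -- for one level
    have hlev : ∀ j ∈ T, ∑ p ∈ nb (SD D r 0) d, (Real.log p / p) *
        (if Real.log p ≤ 2 ^ j * lam D r then (1 : ℝ) else 0) ≤ (1 + C) * (2 ^ j * lam D r) := by
      intro j _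
      have h2j : (1 : ℝ) ≤ 2 ^ j * lam D r := by
        have : (1 : ℝ) ≤ 2 ^ j := one_le_pow₀ (by norm_num)
        nlinarith
      have h1 : ∑ p ∈ nb (SD D r 0) d, (Real.log p / p) *
          (if Real.log p ≤ 2 ^ j * lam D r then (1 : ℝ) else 0) =
          ∑ p ∈ (nb (SD D r 0) d).filter (fun p : ℕ => Real.log p ≤ 2 ^ j * lam D r),
            (Real.log p / p) := by
        rw [sum_filter]
        refine sum_congr rfl fun p _ => ?_
        split_ifs
        · rw [mul_one]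
        · rw [mul_zero]
      rw [h1]
      have h2 : (nb (SD D r 0) d).filter (fun p : ℕ => Real.log p ≤ 2 ^ j * lam D r) ⊆
          PL 0 (2 ^ j * lam D r) := by
        intro p hp
        have hp' := mem_filter.1 hp
        have hpr := hprime p hp'.1
        exact mem_PL.2 ⟨hpr, Real.log_pos (by exact_mod_cast hpr.one_lt), hp'.2⟩
      refine le_trans (sum_le_sum_of_subset_of_nonneg h2 fun p hp _ => ?_) ?_
      · have hp' := mem_PL.1 hp
        exact div_nonneg hp'.2.1.le (Nat.cast_nonneg _)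
      · refine le_trans (hM 0 (2 ^ j * lam D r) le_rfl (by linarith)) ?_
        nlinarith
    have hstep : ∀ p ∈ nb (SD D r 0) d,
        (d.totient : ℝ) / (d : ℝ) ^ 2 * (Real.log p / p) * (wt D r d - wt D r (d * p)) ^ 2 ≤
        (d.totient : ℝ) / (d : ℝ) ^ 2 / (r : ℝ) ^ 2 * ((∑ j ∈ T, (3 / 2 : ℝ) ^ j) *
          ∑ j ∈ T, (2 / 3 : ℝ) ^ j * ((Real.log p / p) *
            (if Real.log p ≤ 2 ^ j * lam D r then (1 : ℝ) else 0))) := by
      intro p hp
      have hpr := hprime p hp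
      have hlog : 0 ≤ Real.log p / p :=
        div_nonneg (Real.log_nonneg (by exact_mod_cast hpr.one_lt.le)) (Nat.cast_nonneg _)
      have hcs : (∑ j ∈ T, (if Real.log p ≤ 2 ^ j * lam D r then (1 : ℝ) else 0)) ^ 2 ≤
          (∑ j ∈ T, (3 / 2 : ℝ) ^ j) * ∑ j ∈ T, (2 / 3 : ℝ) ^ j *
            (if Real.log p ≤ 2 ^ j * lam D r then (1 : ℝ) else 0) := by
        apply sum_sq_le_sum_mul_sum_of_sq_le_mul
        · intro j _
          positivity
        · intro j _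
          split_ifs <;> positivity
        · intro j _
          split_ifs
          · rw [mul_one, ← mul_pow]
            norm_num
          · norm_num
      rw [sumsB_wt_sub hd0 hpr, ← hT, div_pow]
      calc (d.totient : ℝ) / (d : ℝ) ^ 2 * (Real.log p / p) *
            ((∑ j ∈ T, (if Real.log p ≤ 2 ^ j * lam D r then (1 : ℝ) else 0)) ^ 2 / (r : ℝ) ^ 2)
          = ((d.totient : ℝ) / (d : ℝ) ^ 2 / (r : ℝ) ^ 2 * (Real.log p / p)) *
            (∑ j ∈ T, (if Real.log p ≤ 2 ^ j * lam D r then (1 : ℝ) else 0)) ^ 2 := by ring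
        _ ≤ ((d.totient : ℝ) / (d : ℝ) ^ 2 / (r : ℝ) ^ 2 * (Real.log p / p)) *
            ((∑ j ∈ T, (3 / 2 : ℝ) ^ j) * ∑ j ∈ T, (2 / 3 : ℝ) ^ j *
            (if Real.log p ≤ 2 ^ j * lam D r then (1 : ℝ) else 0)) :=
          mul_le_mul_of_nonneg_left hcs (by positivity)
        _ = (d.totient : ℝ) / (d : ℝ) ^ 2 / (r : ℝ) ^ 2 * ((∑ j ∈ T, (3 / 2 : ℝ) ^ j) *
          ((Real.log p / p) * ∑ j ∈ T, (2 / 3 : ℝ) ^ j *
            (if Real.log p ≤ 2 ^ j * lam D r then (1 : ℝ) else 0))) := by ring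
        _ = _ := by
          rw [mul_sum]
          congr 2
          refine sum_congr rfl fun j _ => ?_
          ring
    refine le_trans (sum_le_sum hstep) ?_
    rw [← mul_sum, ← mul_sum, sum_comm]
    have h5 : ∑ j ∈ T, ∑ p ∈ nb (SD D r 0) d, (2 / 3 : ℝ) ^ j * ((Real.log p / p) *
            (if Real.log p ≤ 2 ^ j * lam D r then (1 : ℝ) else 0)) ≤
        ((1 + C) * lam D r) * ∑ j ∈ T, (4 / 3 : ℝ) ^ j := by
      rw [mul_sum]
      refine sum_le_sum fun j hj => ?_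
      rw [← mul_sum]
      calc (2 / 3 : ℝ) ^ j * ∑ p ∈ nb (SD D r 0) d, (Real.log p / p) *
            (if Real.log p ≤ 2 ^ j * lam D r then (1 : ℝ) else 0)
          ≤ (2 / 3 : ℝ) ^ j * ((1 + C) * (2 ^ j * lam D r)) :=
            mul_le_mul_of_nonneg_left (hlev j hj) (by positivity)
        _ = ((1 + C) * lam D r) * ((2 / 3 : ℝ) * 2) ^ j := by rw [mul_pow]; ring
        _ = ((1 + C) * lam D r) * (4 / 3 : ℝ) ^ j := by norm_num
    have h6 := sumsB_prod T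
    have h7 : 0 ≤ ∑ j ∈ T, (3 / 2 : ℝ) ^ j := sum_nonneg fun _ _ => by positivity
    have h8 : 0 ≤ (1 + C) * lam D r := by positivity
    have h9 : 0 ≤ (d.totient : ℝ) / (d : ℝ) ^ 2 / (r : ℝ) ^ 2 := by positivity
    calc _ ≤ (d.totient : ℝ) / (d : ℝ) ^ 2 / (r : ℝ) ^ 2 * ((∑ j ∈ T, (3 / 2 : ℝ) ^ j) *
          (((1 + C) * lam D r) * ∑ j ∈ T, (4 / 3 : ℝ) ^ j)) :=
          mul_le_mul_of_nonneg_left (mul_le_mul_of_nonneg_left h5 h7) h9
      _ = ((d.totient : ℝ) / (d : ℝ) ^ 2 / (r : ℝ) ^ 2 * ((1 + C) * lam D r)) *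
          ((∑ j ∈ T, (3 / 2 : ℝ) ^ j) * (∑ j ∈ T, (4 / 3 : ℝ) ^ j)) := by ring
      _ ≤ ((d.totient : ℝ) / (d : ℝ) ^ 2 / (r : ℝ) ^ 2 * ((1 + C) * lam D r)) *
          (12 * ∑ j ∈ T, (2 : ℝ) ^ j) :=
          mul_le_mul_of_nonneg_left h6 (mul_nonneg h9 h8)
      _ = _ := by ring
  refine le_trans (sum_le_sum hinner) ?_
  rw [← mul_sum]
  have houter : ∑ d ∈ SD D r 0, (d.totient : ℝ) / (d : ℝ) ^ 2 * ∑ j ∈ sumsB_T D r d, (2 : ℝ) ^ j ≤
      (r : ℝ) * (C' * 2 ^ r) := by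
    have h1 : ∑ d ∈ SD D r 0, (d.totient : ℝ) / (d : ℝ) ^ 2 * ∑ j ∈ sumsB_T D r d, (2 : ℝ) ^ j =
        ∑ j ∈ range r, ∑ d ∈ (SD D r 0).filter (fun d : ℕ => ∀ p ∈ d.primeFactors,
          2 ^ j * lam D r < Real.log p), (2 : ℝ) ^ j * ((d.totient : ℝ) / (d : ℝ) ^ 2) := by
      simp only [sumsB_T, sum_filter, mul_sum]
      rw [sum_comm]
      refine sum_congr rfl fun j _ => sum_congr rfl fun d _ => ?_
      split_ifs
      · ring
      · rw [mul_zero]
    rw [h1]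
    have h2 : ∀ j ∈ range r, ∑ d ∈ (SD D r 0).filter (fun d : ℕ => ∀ p ∈ d.primeFactors,
          2 ^ j * lam D r < Real.log p), (2 : ℝ) ^ j * ((d.totient : ℝ) / (d : ℝ) ^ 2) ≤
          C' * 2 ^ r := by
      intro j hj
      have hj' := mem_range.1 hj
      rw [← mul_sum]
      have h3 : (SD D r 0).filter (fun d : ℕ => ∀ p ∈ d.primeFactors,
          2 ^ j * lam D r < Real.log p) ⊆ SD D r j := by
        intro d hd
        have hd' := mem_filter.1 hd
        have hd'' := mem_filter.1 hd'.1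
        exact mem_filter.2 ⟨hd''.1, hd''.2.1, hd'.2⟩
      calc (2 : ℝ) ^ j * ∑ d ∈ (SD D r 0).filter (fun d : ℕ => ∀ p ∈ d.primeFactors,
          2 ^ j * lam D r < Real.log p), (d.totient : ℝ) / (d : ℝ) ^ 2
          ≤ (2 : ℝ) ^ j * ∑ d ∈ SD D r j, (d.totient : ℝ) / (d : ℝ) ^ 2 :=
            mul_le_mul_of_nonneg_left
              (sum_le_sum_of_subset_of_nonneg h3 fun _ _ _ => by positivity) (by positivity)
        _ ≤ (2 : ℝ) ^ j * (C' * 2 ^ (r - j)) :=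
            mul_le_mul_of_nonneg_left (hR D r j hD hj'.le hlam) (by positivity)
        _ = C' * (2 ^ j * 2 ^ (r - j)) := by ring
        _ = C' * 2 ^ r := by rw [← pow_add, Nat.add_sub_cancel' hj'.le]
    refine le_trans (sum_le_card_nsmul _ _ _ h2) ?_
    rw [card_range, nsmul_eq_mul]
  have h10 : 0 ≤ 12 * (1 + C) * lam D r / (r : ℝ) ^ 2 := by positivity
  refine le_trans (mul_le_mul_of_nonneg_left houter h10) (le_of_eq ?_)
  unfold lam
  field_simp

end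

end Pool.Agent.Lead.ZN
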