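import Pool.Agent.Lead.ZN.Defs

namespace Pool.Agent.Lead.ZN

open MeasureTheory

/-- The unit square with lower left corner `(a, b)` has area one. -/
private lemma volume_square (a b : ℝ) :
    volume (Set.Ico a (a + 1) ×ℂ Set.Ico b (b + 1)) = 1 := by
  have h := Complex.volume_preserving_equiv_real_prod.measure_preimage
    (s := Set.Ico a (a + 1) ×ˢ Set.Ico b (b + 1))
    ((measurableSet_Ico.prod measurableSet_Ico).nullMeasurableSet)
  have h2 : Complex.measurableEquivRealProd ⁻¹' (Set.Ico a (a + 1) ×ˢ Set.Ico b (b + 1)) =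
      Set.Ico a (a + 1) ×ℂ Set.Ico b (b + 1) := by
    ext z
    simp [Complex.mem_reProdIm]
  rw [h2] at h
  rw [h, Measure.volume_eq_prod, Measure.prod_prod, Real.volume_Ico, Real.volume_Ico]
  simp

private lemma measurable_square (a b : ℝ) :
    MeasurableSet (Set.Ico a (a + 1) ×ℂ Set.Ico b (b + 1)) := by
  have h2 : Complex.measurableEquivRealProd ⁻¹' (Set.Ico a (a + 1) ×ˢ Set.Ico b (b + 1)) =
      Set.Ico a (a + 1) ×ℂ Set.Ico b (b + 1) := by
    ext z
    simp [Complex.mem_reProdIm]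
  rw [← h2]
  exact Complex.measurableEquivRealProd.measurable (measurableSet_Ico.prod measurableSet_Ico)

/-- The unit cube at the lattice point `r + i r'`. -/
private def cube {ι : Type*} (q : (ι → ℤ) × (ι → ℤ)) : Set (ι → ℂ) :=
  Set.pi Set.univ fun a => Set.Ico (q.1 a : ℝ) (q.1 a + 1) ×ℂ Set.Ico (q.2 a : ℝ) (q.2 a + 1)

private lemma mem_cube {ι : Type*} {q : (ι → ℤ) × (ι → ℤ)} {x : ι → ℂ} :
    x ∈ cube q ↔ ∀ a, ((q.1 a : ℝ) ≤ (x a).re ∧ (x a).re < q.1 a + 1) ∧
      ((q.2 a : ℝ) ≤ (x a).im ∧ (x a).im < q.2 a + 1) := by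
  simp [cube, Complex.mem_reProdIm]

private lemma volume_cube {ι : Type*} [Fintype ι] (q : (ι → ℤ) × (ι → ℤ)) :
    volume (cube q) = 1 := by
  unfold cube
  rw [volume_pi, Measure.pi_pi]
  simp [volume_square]

private lemma measurable_cube {ι : Type*} [Fintype ι] (q : (ι → ℤ) × (ι → ℤ)) :
    MeasurableSet (cube q) :=
  MeasurableSet.univ_pi fun _ => measurable_square _ _

private lemma cube_disjoint {ι : Type*} {q q' : (ι → ℤ) × (ι → ℤ)} (h : q ≠ q') :
    Disjoint (cube q) (cube q') := by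
  rw [Set.disjoint_left]
  intro x hx hx'
  rw [mem_cube] at hx hx'
  apply h
  have h1 : ∀ a, q.1 a = q'.1 a := fun a => by
    rw [← Int.floor_eq_iff.2 (hx a).1, ← Int.floor_eq_iff.2 (hx' a).1]
  have h2 : ∀ a, q.2 a = q'.2 a := fun a => by
    rw [← Int.floor_eq_iff.2 (hx a).2, ← Int.floor_eq_iff.2 (hx' a).2]
  exact Prod.ext (funext h1) (funext h2)

/-- Counting integer points in `{r : |V r|_j ≤ B_j}` by volume (in `ℂ^ι`, lattice `ℤ[i]^ι`). -/
theorem lattice_count {ι : Type*} [Fintype ι] [DecidableEq ι] (V : Matrix ι ι ℂ) (B : ι → ℝ)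
    (hB : ∀ j, 0 < B j) (S : Finset (ι → ℤ))
    (h1 : ∀ r ∈ S, ∀ j, ‖∑ a, V j a * (r a : ℂ)‖ ≤ B j)
    (h2 : ∀ j, ∑ a, ‖V j a‖ ≤ B j) :
    (S.card : ℝ) * ‖V.det‖ ≤ 8 ^ (Fintype.card ι) * ∏ j, B j := by
  classical
  have hP : 0 < ∏ j, B j := Finset.prod_pos fun j _ => hB j
  by_cases hdet : V.det = 0
  · rw [hdet]
    simp only [norm_zero, mul_zero]
    positivity
  set f : (ι → ℂ) →ₗ[ℝ] (ι → ℂ) := (Matrix.toLin' V).restrictScalars ℝ with hf
  have hfdet : LinearMap.det f = ‖V.det‖ ^ 2 := by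
    rw [hf, LinearMap.det_restrictScalars, LinearMap.det_toLin', Algebra.norm_complex_apply,
      Complex.normSq_eq_norm_sq]
  have hd : 0 < ‖V.det‖ := norm_pos_iff.2 hdet
  have hf0 : LinearMap.det f ≠ 0 := by rw [hfdet]; positivity
  set T : Set (ι → ℂ) := Set.pi Set.univ fun j => Metric.closedBall (0 : ℂ) (4 * B j) with hT
  have hvolT : volume T = ENNReal.ofReal (∏ j, (16 * Real.pi * B j ^ 2)) := by
    rw [hT, volume_pi, Measure.pi_pi, ENNReal.ofReal_prod_of_nonneg]
    · refine Finset.prod_congr rfl fun j _ => ?_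
      rw [Complex.volume_closedBall]
      have : (NNReal.pi : ENNReal) = ENNReal.ofReal Real.pi := by
        rw [ENNReal.ofReal, ← NNReal.coe_real_pi, Real.toNNReal_coe]
      rw [this, ← ENNReal.ofReal_pow (by have := hB j; positivity),
        ← ENNReal.ofReal_mul (by positivity)]
      congr 1
      ring
    · intro j _
      positivity
  have hvol : volume (f ⁻¹' T) = ENNReal.ofReal |(LinearMap.det f)⁻¹| *
      ENNReal.ofReal (∏ j, (16 * Real.pi * B j ^ 2)) := by
    rw [Measure.addHaar_preimage_linearMap _ hf0, hvolT]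
  -- the cubes are inside
  have hsub : (⋃ q ∈ S ×ˢ S, cube q) ⊆ f ⁻¹' T := by
    intro x hx
    simp only [Set.mem_iUnion, Finset.mem_product, exists_prop] at hx
    obtain ⟨q, ⟨hq1, hq2⟩, hxq⟩ := hx
    rw [mem_cube] at hxq
    rw [Set.mem_preimage, hT, Set.mem_univ_pi]
    intro j
    rw [mem_closedBall_zero_iff]
    have e1 : f x j = ∑ a, V j a * x a := by
      simp [hf, Matrix.toLin'_apply, Matrix.mulVec, dotProduct]
    have e2 : ∑ a, V j a * x a = (∑ a, V j a * (q.1 a : ℂ)) +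
        (∑ a, V j a * (q.2 a : ℂ)) * Complex.I +
        ∑ a, V j a * (x a - (q.1 a : ℂ) - (q.2 a : ℂ) * Complex.I) := by
      rw [Finset.sum_mul, ← Finset.sum_add_distrib, ← Finset.sum_add_distrib]
      refine Finset.sum_congr rfl fun a _ => ?_
      ring
    rw [e1, e2]
    have b3 : ‖∑ a, V j a * (x a - (q.1 a : ℂ) - (q.2 a : ℂ) * Complex.I)‖ ≤ 2 * B j := by
      calc ‖∑ a, V j a * (x a - (q.1 a : ℂ) - (q.2 a : ℂ) * Complex.I)‖
          ≤ ∑ a, ‖V j a * (x a - (q.1 a : ℂ) - (q.2 a : ℂ) * Complex.I)‖ := norm_sum_le _ _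
        _ ≤ ∑ a, ‖V j a‖ * 2 := by
            refine Finset.sum_le_sum fun a _ => ?_
            rw [norm_mul]
            refine mul_le_mul_of_nonneg_left ?_ (norm_nonneg _)
            refine (Complex.norm_le_abs_re_add_abs_im _).trans ?_
            obtain ⟨⟨c1, c2⟩, c3, c4⟩ := hxq a
            have r1 : (x a - (q.1 a : ℂ) - (q.2 a : ℂ) * Complex.I).re = (x a).re - q.1 a := by
              simp
            have r2 : (x a - (q.1 a : ℂ) - (q.2 a : ℂ) * Complex.I).im = (x a).im - q.2 a := by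
              simp
            rw [r1, r2, abs_of_nonneg (by linarith), abs_of_nonneg (by linarith)]
            linarith
        _ = (∑ a, ‖V j a‖) * 2 := by rw [Finset.sum_mul]
        _ ≤ 2 * B j := by have := h2 j; linarith
    have b1 := h1 q.1 hq1 j
    have b2 : ‖(∑ a, V j a * (q.2 a : ℂ)) * Complex.I‖ ≤ B j := by
      rw [norm_mul, Complex.norm_I, mul_one]
      exact h1 q.2 hq2 j
    refine (norm_add_le _ _).trans ?_
    have := norm_add_le (∑ a, V j a * (q.1 a : ℂ)) ((∑ a, V j a * (q.2 a : ℂ)) * Complex.I)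
    linarith
  have hcard : volume (⋃ q ∈ S ×ˢ S, cube q) = ENNReal.ofReal ((S.card : ℝ) ^ 2) := by
    rw [measure_biUnion_finset (fun q _ q' _ h => cube_disjoint h)
      (fun q _ => measurable_cube q)]
    simp only [volume_cube, Finset.sum_const, Finset.card_product]
    rw [nsmul_eq_mul, mul_one, ENNReal.ofReal_pow (by positivity), ENNReal.ofReal_natCast]
    push_cast
    ring
  have hmain := measure_mono (μ := volume) hsub
  rw [hcard, hvol, ← ENNReal.ofReal_mul (abs_nonneg _)] at hmain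
  have hnn : 0 ≤ |(LinearMap.det f)⁻¹| * ∏ j, (16 * Real.pi * B j ^ 2) := by
    refine mul_nonneg (abs_nonneg _) (Finset.prod_nonneg fun j _ => by positivity)
  rw [ENNReal.ofReal_le_ofReal_iff hnn, hfdet, abs_of_nonneg (by positivity)] at hmain
  have hprod : ∏ j, (16 * Real.pi * B j ^ 2) ≤ (8 ^ (Fintype.card ι) * ∏ j, B j) ^ 2 := by
    rw [mul_pow, ← pow_mul, ← Finset.prod_pow, Finset.prod_mul_distrib, Finset.prod_const,
      Finset.card_univ]
    refine mul_le_mul_of_nonneg_right ?_ (Finset.prod_nonneg fun j _ => by positivity)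
    rw [mul_comm (Fintype.card ι) 2, pow_mul]
    refine pow_le_pow_left₀ (by positivity) ?_ _
    have := Real.pi_le_four
    linarith
  have h3 : ((S.card : ℝ) * ‖V.det‖) ^ 2 ≤ (8 ^ (Fintype.card ι) * ∏ j, B j) ^ 2 := by
    refine le_trans ?_ hprod
    rw [mul_pow]
    have h4 : (S.card : ℝ) ^ 2 * ‖V.det‖ ^ 2 ≤
        ((‖V.det‖ ^ 2)⁻¹ * ∏ j, (16 * Real.pi * B j ^ 2)) * ‖V.det‖ ^ 2 :=
      mul_le_mul_of_nonneg_right hmain (by positivity)
    refine h4.trans (le_of_eq ?_)
    field_simp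
  exact le_of_sq_le_sq h3 (by positivity)

end Pool.Agent.Lead.ZN
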